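import Pool.Statements.S00100
import Pool.Agent.Helper69.Stillman

set_option autoImplicit false
open Pool Pool.MP_2cc7f8_ag

namespace Pool.Agent.S00100

open MvPolynomial Pool.Agent.Helper69.Stillman in
theorem result :
    ¬ (∀ d : ℕ, ∃ C : ℕ, ∀ (K : Type) [Field K] (N n : ℕ)
      (f : Fin n → MvPolynomial (Fin N) K),
      (∀ i, ∃ k, k ≤ d ∧ (f i).IsHomogeneous k) →
      ∃ P : CategoryTheory.ProjectiveResolution
          (ModuleCat.of (MvPolynomial (Fin N) K)
            (MvPolynomial (Fin N) K ⧸ Ideal.span (Set.range f))),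
        ∀ i : ℕ, C * n ^ d < i → CategoryTheory.Limits.IsZero (P.complex.X i)) := by
  intro h
  obtain ⟨C, hC⟩ := h 3
  obtain ⟨f, hf, hres⟩ := exists_cubics_resolution ℚ (27 * C + 1)
  obtain ⟨P, hP⟩ := hC ℚ _ _ f fun i => ⟨3, le_refl 3, hf i⟩
  have h1 := hres P _ hP
  have h2 : (27 * C + 1) ^ 4 = 27 * C * (27 * C + 1) ^ 3 + (27 * C + 1) ^ 3 := by ring
  have h3 : C * (3 * (27 * C + 1)) ^ 3 = 27 * C * (27 * C + 1) ^ 3 := by ring
  have h4 : 0 < (27 * C + 1) ^ 3 := by positivity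
  omega

end Pool.Agent.S00100
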