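import Pool.Statements.S00832

set_option autoImplicit false
open Pool Pool.MP_19aa8a_al

namespace Pool.Agent.S00832

/-- bottoms and tops (as bit masks of zero sets) of the Stanley decomposition of the quotient -/
def tbl : List (ℕ × ℕ) :=
  [(7, 39), (11, 587), (19, 659), (35, 747), (67, 83), (131, 715), (259, 319), (515, 579),
   (13, 687), (21, 87), (37, 293), (69, 751), (133, 183), (261, 285), (517, 695), (25, 767),
   (41, 617), (49, 691), (193, 745), (321, 895), (577, 609), (385, 447), (641, 681), (769, 959),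
   (14, 526), (22, 94), (38, 230), (70, 78), (134, 158), (262, 958), (518, 694), (26, 410),
   (42, 954), (50, 818), (194, 710), (322, 350), (578, 590), (386, 394), (642, 946), (770, 786),
   (28, 348), (44, 702), (52, 55), (196, 228), (324, 332), (580, 588), (388, 956), (644, 660),
   (772, 828), (56, 184), (88, 90), (152, 156), (280, 281), (536, 606), (104, 766), (168, 169),
   (296, 317), (552, 952), (200, 222), (328, 344), (584, 585), (392, 440), (648, 734), (776, 922),
   (112, 631), (176, 182), (304, 309), (560, 692), (208, 759), (336, 340), (592, 599), (400, 434),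
   (656, 657), (784, 816), (224, 226), (352, 382), (608, 742), (416, 418), (672, 676), (800, 802),
   (448, 1023), (704, 708), (832, 894), (896, 944)]

/-- `sub X Y`: the bit mask `X` is contained in the bit mask `Y` -/
def sub (X Y : ℕ) : Bool := X &&& Y == X

/-- mask of the triple `{x, 3+y, 6+z}` -/
def tri (t : Fin 3 × Fin 3 × Fin 4) : ℕ := 2 ^ (t.1 : ℕ) + 2 ^ (3 + (t.2.1 : ℕ)) + 2 ^ (6 + (t.2.2 : ℕ))

/-- list of the faces: sets of size at most two and the 36 transversal triples -/
def faces : List ℕ :=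
  [0] ++ (List.range 10).map (fun i => 2 ^ i)
    ++ (List.range 10).flatMap (fun i => (List.range i).map (fun j => 2 ^ i + 2 ^ j))
    ++ (List.range 3).flatMap (fun x => (List.range 3).flatMap
        (fun y => (List.range 4).map (fun z => 2 ^ x + 2 ^ (3 + y) + 2 ^ (6 + z))))

def face (X : ℕ) : Bool := faces.contains X

/-- the vector with zero set `M` and ones elsewhere -/
def vec (M : ℕ) (j : Fin 10) : ℕ := if M.testBit j then 0 else 1

def dir (e : ℕ) : Finset (Fin 10) := Finset.univ.filter (fun j => e.testBit j = false)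

def conv (p : ℕ × ℕ) : (Fin 10 → ℕ) × Finset (Fin 10) := (vec p.2, dir p.1)

/-- zero set of a vector as a mask -/
def zm (b : Fin 10 → ℕ) : ℕ := Nat.ofBits (fun j => decide (b j = 0))

def U : Set (Fin 10 → ℕ) := {b | face (zm b) = true}

theorem testBit_zm (b : Fin 10 → ℕ) (j : Fin 10) : (zm b).testBit j = decide (b j = 0) := by
  unfold zm
  rw [Nat.testBit_ofBits_lt _ _ j.2]

theorem zm_lt (b : Fin 10 → ℕ) : zm b < 1024 := Nat.ofBits_lt_two_pow _

theorem sub_iff {X Y : ℕ} (hX : X < 1024) :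
    sub X Y = true ↔ ∀ j : Fin 10, X.testBit j = true → Y.testBit j = true := by
  unfold sub
  rw [beq_iff_eq]
  constructor
  · intro h j hj
    have := congrArg (fun n => n.testBit j) h
    simp only [Nat.testBit_and, hj, Bool.true_and] at this
    exact this
  · intro h
    apply Nat.eq_of_testBit_eq
    intro i
    rw [Nat.testBit_and]
    by_cases hi : i < 10
    · have := h ⟨i, hi⟩
      simp only at this
      cases hx : X.testBit i
      · simp
      · simp [this hx]
    · have : X.testBit i = false := by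
        apply Nat.testBit_eq_false_of_lt
        calc X < 2 ^ 10 := hX
          _ ≤ 2 ^ i := Nat.pow_le_pow_right (by norm_num) (by omega)
      simp [this]

theorem cover_check :
    ((List.range 1024).all fun X =>
      face X != (tbl.any fun p => sub p.1 X && sub X p.2)) = true := by
  decide +kernel

theorem disj_check :
    (tbl.all fun p => tbl.all fun q => p == q || !(sub q.1 p.2 && sub p.1 q.2)) = true := by
  decide +kernel

theorem down_check :
    (faces.all fun X => (List.range 1024).all fun Y => !(sub Y X) || face Y) = true := by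
  decide +kernel

theorem tbl_check : (tbl.all fun p => decide (p.1 < 1024) && sub p.1 p.2) = true := by
  decide +kernel

theorem card_check : (tbl.all fun p => decide (7 ≤ (dir p.1).card)) = true := by
  decide +kernel


theorem mem_U_iff (b : Fin 10 → ℕ) : b ∈ U ↔ face (zm b) = true := Iff.rfl

theorem mem_conv_iff {p : ℕ × ℕ} (hp : p ∈ tbl) (b : Fin 10 → ℕ) :
    (∀ j : Fin 10, (j ∈ (conv p).2 → (conv p).1 j ≤ b j) ∧ (j ∉ (conv p).2 → b j = (conv p).1 j))
      ↔ (sub p.1 (zm b) = true ∧ sub (zm b) p.2 = true) := by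
  have hc := List.all_eq_true.mp tbl_check p hp
  rw [Bool.and_eq_true, decide_eq_true_eq] at hc
  have hsub := (sub_iff hc.1).mp hc.2
  rw [sub_iff hc.1, sub_iff (zm_lt b), ← forall_and]
  apply forall_congr'
  intro j
  have hj := hsub j
  rw [testBit_zm]
  simp only [conv, dir, vec, Finset.mem_filter, Finset.mem_univ, true_and, decide_eq_true_eq]
  cases h1 : p.1.testBit j <;> cases h2 : p.2.testBit j
  · simp; omega
  · simp
  · rw [h1, h2] at hj; simp at hj
  · simp

theorem face_iff (b : Fin 10 → ℕ) :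
    b ∉ U ↔ ∃ p ∈ tbl, sub p.1 (zm b) = true ∧ sub (zm b) p.2 = true := by
  have h := List.all_eq_true.mp cover_check (zm b) (List.mem_range.mpr (zm_lt b))
  rw [bne_iff_ne] at h
  rw [mem_U_iff]
  have h2 : (tbl.any fun p => sub p.1 (zm b) && sub (zm b) p.2) = true ↔
      ∃ p ∈ tbl, sub p.1 (zm b) = true ∧ sub (zm b) p.2 = true := by
    simp [List.any_eq_true]
  rw [← h2]
  cases hf : face (zm b) <;>
    cases ht : (tbl.any fun p => sub p.1 (zm b) && sub (zm b) p.2) <;>
    simp_all

theorem upper_U : IsUpperSet U := by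
  intro a b hab ha
  rw [mem_U_iff] at ha ⊢
  have hmem : zm a ∈ faces := by
    simpa [face] using ha
  have h := List.all_eq_true.mp (List.all_eq_true.mp down_check _ hmem) (zm b)
    (List.mem_range.mpr (zm_lt b))
  have hs : sub (zm b) (zm a) = true := by
    rw [sub_iff (zm_lt b)]
    intro j
    rw [testBit_zm, testBit_zm, decide_eq_true_eq, decide_eq_true_eq]
    intro hb
    have h5 : a j ≤ b j := hab j
    omega
  rw [hs] at h
  simpa using h

theorem zm_vec {M : ℕ} (hM : M < 1024) : zm (vec M) = M := by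
  apply Nat.eq_of_testBit_eq
  intro i
  by_cases hi : i < 10
  · have := testBit_zm (vec M) ⟨i, hi⟩
    simp only at this
    rw [this]
    unfold vec
    simp only
    cases M.testBit i <;> simp
  · have h1 : M.testBit i = false := by
      apply Nat.testBit_eq_false_of_lt
      calc M < 2 ^ 10 := hM
        _ ≤ 2 ^ i := Nat.pow_le_pow_right (by norm_num) (by omega)
    have h2 : (zm (vec M)).testBit i = false := by
      apply Nat.testBit_eq_false_of_lt
      calc zm (vec M) < 2 ^ 10 := zm_lt _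
        _ ≤ 2 ^ i := Nat.pow_le_pow_right (by norm_num) (by omega)
    rw [h1, h2]

/-- masks of the 33 transversal pairs -/
def pairs : List ℕ :=
  (List.range 3).flatMap (fun x => (List.range 3).map (fun y => 2 ^ x + 2 ^ (3 + y)))
    ++ (List.range 3).flatMap (fun x => (List.range 4).map (fun z => 2 ^ x + 2 ^ (6 + z)))
    ++ (List.range 3).flatMap (fun y => (List.range 4).map (fun z => 2 ^ (3 + y) + 2 ^ (6 + z)))

theorem pairs_card : pairs.toFinset.card = 33 := by decide +kernel

theorem tri_lt : ∀ t : Fin 3 × Fin 3 × Fin 4, tri t < 1024 := by decide +kernel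

theorem tri_face : ∀ t : Fin 3 × Fin 3 × Fin 4, face (tri t) = true := by decide +kernel

theorem tri_card : ∀ t : Fin 3 × Fin 3 × Fin 4,
    (Finset.univ.filter (fun j : Fin 10 => (tri t).testBit j = true)).card = 3 := by
  decide +kernel

theorem tri_del : ∀ t : Fin 3 × Fin 3 × Fin 4, ∀ v : Fin 10, (tri t).testBit v = true →
    tri t - 2 ^ (v : ℕ) ∈ pairs.toFinset ∧ tri t - 2 ^ (v : ℕ) < 1024 ∧
      ∀ j : Fin 10, (tri t - 2 ^ (v : ℕ)).testBit j = ((tri t).testBit j && (j != v)) := by
  decide +kernel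

theorem tri_or : ∀ t t' : Fin 3 × Fin 3 × Fin 4, t ≠ t' →
    face (tri t ||| tri t') = false ∧ (tri t ||| tri t') < 1024 := by
  decide +kernel

theorem vec_or (M N : ℕ) (j : Fin 10) : vec (M ||| N) j = min (vec M j) (vec N j) := by
  unfold vec
  rw [Nat.testBit_or]
  cases M.testBit j <;> cases N.testBit j <;> simp

theorem vec_or_le {M N x : ℕ} {j : Fin 10} (h1 : x ≤ vec M j) (h2 : x ≤ vec N j) :
    x ≤ vec (M ||| N) j := by
  rw [vec_or]; exact le_min h1 h2

theorem vec_or_eq {M N x : ℕ} {j : Fin 10} (h1 : vec M j = x) (h2 : vec N j = x) :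
    vec (M ||| N) j = x := by
  rw [vec_or, h1, h2, min_self]

theorem no_dec
    (hs : ∃ s : Finset ((Fin 10 → ℕ) × Finset (Fin 10)),
          (∀ p ∈ s, 7 + 1 ≤ p.2.card) ∧
          (∀ b : Fin 10 → ℕ, b ∈ U ↔
            ∃ p ∈ s, ∀ j : Fin 10, (j ∈ p.2 → p.1 j ≤ b j) ∧ (j ∉ p.2 → b j = p.1 j)) ∧
          (∀ p ∈ s, ∀ q ∈ s, ∀ b : Fin 10 → ℕ,
            (∀ j : Fin 10, (j ∈ p.2 → p.1 j ≤ b j) ∧ (j ∉ p.2 → b j = p.1 j)) →
            (∀ j : Fin 10, (j ∈ q.2 → q.1 j ≤ b j) ∧ (j ∉ q.2 → b j = q.1 j)) → p = q)) :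
    False := by
  obtain ⟨s, hcard, hcov, hdisj⟩ := hs
  have key : ∀ t : Fin 3 × Fin 3 × Fin 4, ∃ p ∈ s, ∃ v : Fin 10, (tri t).testBit v = true ∧
      (∀ j : Fin 10, (j ∈ p.2 → p.1 j ≤ vec (tri t) j) ∧ (j ∉ p.2 → vec (tri t) j = p.1 j)) ∧
      (∀ j : Fin 10, (j ∈ p.2 → p.1 j ≤ vec (tri t - 2 ^ (v : ℕ)) j) ∧
        (j ∉ p.2 → vec (tri t - 2 ^ (v : ℕ)) j = p.1 j)) := by
    intro t
    have hU : vec (tri t) ∈ U := by
      rw [mem_U_iff, zm_vec (tri_lt t)]
      exact tri_face t
    obtain ⟨p, hp, hmem⟩ := (hcov _).mp hU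
    have hex : ∃ v : Fin 10, (tri t).testBit v = true ∧ v ∈ p.2 := by
      by_contra hno
      push Not at hno
      have hdis : Disjoint (Finset.univ.filter (fun j : Fin 10 => (tri t).testBit j = true))
          p.2 := by
        rw [Finset.disjoint_left]
        intro v hv
        rw [Finset.mem_filter] at hv
        exact hno v hv.2
      have h1 := Finset.card_union_of_disjoint hdis
      have h2 := Finset.card_le_univ
        ((Finset.univ.filter (fun j : Fin 10 => (tri t).testBit j = true)) ∪ p.2)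
      rw [h1, tri_card t, Fintype.card_fin] at h2
      have h3 := hcard p hp
      omega
    obtain ⟨v, hv, hvp⟩ := hex
    refine ⟨p, hp, v, hv, hmem, ?_⟩
    intro j
    obtain ⟨_, _, hbit⟩ := tri_del t v hv
    have hj := hmem j
    refine ⟨fun h => ?_, fun h => ?_⟩
    · refine le_trans (hj.1 h) ?_
      unfold vec
      rw [hbit j]
      cases (tri t).testBit j <;> simp
    · have hne : j ≠ v := fun hh => h (hh ▸ hvp)
      rw [← hj.2 h]
      unfold vec
      rw [hbit j]
      simp [hne]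
  choose p hp v hv hm1 hm2 using key
  have hlt : pairs.toFinset.card < (Finset.univ : Finset (Fin 3 × Fin 3 × Fin 4)).card := by
    rw [pairs_card]; simp
  obtain ⟨t, _, t', _, hne, heq⟩ := Finset.exists_ne_map_eq_of_card_lt_of_maps_to hlt
    (f := fun t => tri t - 2 ^ ((v t : Fin 10) : ℕ))
    (fun t _ => (tri_del t (v t) (hv t)).1)
  have hpp : p t = p t' := by
    apply hdisj _ (hp t) _ (hp t') (vec (tri t - 2 ^ ((v t : Fin 10) : ℕ))) (hm2 t)
    rw [heq]
    exact hm2 t'
  obtain ⟨hf, hl⟩ := tri_or t t' hne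
  have hmem : vec (tri t ||| tri t') ∈ U := by
    rw [hcov]
    refine ⟨p t, hp t, ?_⟩
    intro j
    have a1 := hm1 t j
    have a2 := hm1 t' j
    rw [← hpp] at a2
    exact ⟨fun h => vec_or_le (a1.1 h) (a2.1 h), fun h => vec_or_eq (a1.2 h) (a2.2 h)⟩
  rw [mem_U_iff, zm_vec hl, hf] at hmem
  exact absurd hmem (by simp)

/-- The negation of the preceding statement: For every proper nonzero monomial ideal I in n variables and every d: if S/I has a Stanley decomposition with all spaces of dimension at least d, then I has one with all at least d+1; i.e. sdepth I ≥ sdepth S/I + 1. -/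
theorem result :
    ¬ (∀ (n : ℕ) (U : Set (Fin n → ℕ)), IsUpperSet U → U.Nonempty → (0 : Fin n → ℕ) ∉ U →
      ∀ d : ℕ,
        (∃ s : Finset ((Fin n → ℕ) × Finset (Fin n)),
          (∀ p ∈ s, d ≤ p.2.card) ∧
          (∀ b : Fin n → ℕ, b ∉ U ↔
            ∃ p ∈ s, ∀ j : Fin n, (j ∈ p.2 → p.1 j ≤ b j) ∧ (j ∉ p.2 → b j = p.1 j)) ∧
          (∀ p ∈ s, ∀ q ∈ s, ∀ b : Fin n → ℕ,
            (∀ j : Fin n, (j ∈ p.2 → p.1 j ≤ b j) ∧ (j ∉ p.2 → b j = p.1 j)) →
            (∀ j : Fin n, (j ∈ q.2 → q.1 j ≤ b j) ∧ (j ∉ q.2 → b j = q.1 j)) → p = q)) →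
        (∃ s : Finset ((Fin n → ℕ) × Finset (Fin n)),
          (∀ p ∈ s, d + 1 ≤ p.2.card) ∧
          (∀ b : Fin n → ℕ, b ∈ U ↔
            ∃ p ∈ s, ∀ j : Fin n, (j ∈ p.2 → p.1 j ≤ b j) ∧ (j ∉ p.2 → b j = p.1 j)) ∧
          (∀ p ∈ s, ∀ q ∈ s, ∀ b : Fin n → ℕ,
            (∀ j : Fin n, (j ∈ p.2 → p.1 j ≤ b j) ∧ (j ∉ p.2 → b j = p.1 j)) →
            (∀ j : Fin n, (j ∈ q.2 → q.1 j ≤ b j) ∧ (j ∉ q.2 → b j = q.1 j)) → p = q))) := by
  intro h
  apply no_dec
  refine h 10 U upper_U ⟨vec 0, ?_⟩ ?_ 7 ⟨(tbl.map conv).toFinset, ?_, ?_, ?_⟩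
  · rw [mem_U_iff, zm_vec (by norm_num)]
    decide +kernel
  · rw [mem_U_iff]
    decide +kernel
  · intro p hp
    rw [List.mem_toFinset, List.mem_map] at hp
    obtain ⟨q, hq, rfl⟩ := hp
    have := List.all_eq_true.mp card_check q hq
    rw [decide_eq_true_eq] at this
    exact this
  · intro b
    rw [face_iff]
    constructor
    · rintro ⟨q, hq, h1⟩
      exact ⟨conv q, List.mem_toFinset.mpr (List.mem_map_of_mem hq), (mem_conv_iff hq b).mpr h1⟩
    · rintro ⟨p, hp, h1⟩
      rw [List.mem_toFinset, List.mem_map] at hp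
      obtain ⟨q, hq, rfl⟩ := hp
      exact ⟨q, hq, (mem_conv_iff hq b).mp h1⟩
  · intro p hp q hq b h1 h2
    rw [List.mem_toFinset, List.mem_map] at hp hq
    obtain ⟨p', hp', rfl⟩ := hp
    obtain ⟨q', hq', rfl⟩ := hq
    have e1 := (mem_conv_iff hp' b).mp h1
    have e2 := (mem_conv_iff hq' b).mp h2
    have hc := List.all_eq_true.mp (List.all_eq_true.mp disj_check p' hp') q' hq'
    have l1 := List.all_eq_true.mp tbl_check p' hp'
    have l2 := List.all_eq_true.mp tbl_check q' hq'
    rw [Bool.and_eq_true, decide_eq_true_eq] at l1 l2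
    have c1 : sub q'.1 p'.2 = true := by
      rw [sub_iff l2.1]
      intro j hj
      exact (sub_iff (zm_lt b)).mp e1.2 j ((sub_iff l2.1).mp e2.1 j hj)
    have c2 : sub p'.1 q'.2 = true := by
      rw [sub_iff l1.1]
      intro j hj
      exact (sub_iff (zm_lt b)).mp e2.2 j ((sub_iff l1.1).mp e1.1 j hj)
    rw [c1, c2] at hc
    have : p' = q' := by simpa using hc
    rw [this]

end Pool.Agent.S00832
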