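import Pool.Statements.S00882

set_option autoImplicit false
open Pool Pool.MP_1e7c77_al

namespace Pool.Agent.S00882

open Real

/-! Angle maps of symmetric positive definite matrices. -/

/-- cross product of (cos t, sin t) with its image under (a b; b d) -/
noncomputable def crs (a b d t : ℝ) : ℝ :=
  cos t * (b * cos t + d * sin t) - sin t * (a * cos t + b * sin t)

/-- dot product of (cos t, sin t) with its image under (a b; b d) -/
noncomputable def dts (a b d t : ℝ) : ℝ :=
  cos t * (a * cos t + b * sin t) + sin t * (b * cos t + d * sin t)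

/-- lift to the line of the action of (a b; b d) on directions -/
noncomputable def FF (a b d t : ℝ) : ℝ := t + arctan (crs a b d t / dts a b d t)

lemma dts_pos {a b d : ℝ} (ha : 0 < a) (h : b ^ 2 < a * d) (t : ℝ) : 0 < dts a b d t := by
  have h1 : a * dts a b d t = (a * cos t + b * sin t) ^ 2 + (a * d - b ^ 2) * (sin t) ^ 2 := by
    unfold dts; ring
  have h2 : 0 < a * dts a b d t := by
    rw [h1]
    rcases eq_or_ne (sin t) 0 with hs | hs
    · have hc : (cos t) ^ 2 = 1 := by
        have := sin_sq_add_cos_sq t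
        rw [hs] at this
        nlinarith
      rw [hs]
      have : (a * cos t + b * 0) ^ 2 + (a * d - b ^ 2) * 0 ^ 2 = a ^ 2 * (cos t) ^ 2 := by ring
      rw [this, hc]
      positivity
    · have h3 : 0 < (sin t) ^ 2 := by positivity
      have h4 : 0 < (a * d - b ^ 2) * (sin t) ^ 2 := mul_pos (by linarith) h3
      nlinarith [sq_nonneg (a * cos t + b * sin t)]
  exact (pos_iff_pos_of_mul_pos h2).1 ha

lemma FF_dir {a b d : ℝ} (ha : 0 < a) (h : b ^ 2 < a * d) (t : ℝ) :
    ∃ r : ℝ, 0 < r ∧ r * cos (FF a b d t) = a * cos t + b * sin t ∧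
      r * sin (FF a b d t) = b * cos t + d * sin t := by
  have hd := dts_pos ha h t
  set x := crs a b d t / dts a b d t with hx
  have hs : 0 < √(1 + x ^ 2) := by positivity
  refine ⟨dts a b d t * √(1 + x ^ 2), by positivity, ?_, ?_⟩
  · unfold FF
    rw [← hx, cos_add, cos_arctan, sin_arctan]
    have : dts a b d t * √(1 + x ^ 2) * (cos t * (1 / √(1 + x ^ 2)) - sin t * (x / √(1 + x ^ 2)))
        = dts a b d t * cos t - sin t * (x * dts a b d t) := by
      field_simp
    rw [this, hx, div_mul_cancel₀ _ hd.ne']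
    unfold dts crs
    have := sin_sq_add_cos_sq t
    linear_combination (a * cos t + b * sin t) * this
  · unfold FF
    rw [← hx, sin_add, cos_arctan, sin_arctan]
    have : dts a b d t * √(1 + x ^ 2) * (sin t * (1 / √(1 + x ^ 2)) + cos t * (x / √(1 + x ^ 2)))
        = dts a b d t * sin t + cos t * (x * dts a b d t) := by
      field_simp
    rw [this, hx, div_mul_cancel₀ _ hd.ne']
    unfold dts crs
    have := sin_sq_add_cos_sq t
    linear_combination (b * cos t + d * sin t) * this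

lemma FF_bd (a b d t : ℝ) : |FF a b d t - t| < π / 2 := by
  unfold FF
  rw [add_sub_cancel_left, abs_lt]
  exact ⟨neg_pi_div_two_lt_arctan _, arctan_lt_pi_div_two _⟩

lemma angle_eq {r ρ x y : ℝ} (hr : 0 < r) (hρ : 0 < ρ) (h1 : r * cos x = ρ * cos y)
    (h2 : r * sin x = ρ * sin y) (hb : |x - y| < 2 * π) : x = y := by
  have e1 : r ^ 2 = ρ ^ 2 := by
    have hx := sin_sq_add_cos_sq x
    have hy := sin_sq_add_cos_sq y
    have : (r * cos x) ^ 2 + (r * sin x) ^ 2 = (ρ * cos y) ^ 2 + (ρ * sin y) ^ 2 := by rw [h1, h2]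
    nlinarith
  have e2 : r = ρ := by
    have := abs_eq_abs.2 (sq_eq_sq_iff_eq_or_eq_neg.1 e1)
    rwa [abs_of_pos hr, abs_of_pos hρ] at this
  subst e2
  have e3 : cos x = cos y := mul_left_cancel₀ hr.ne' h1
  have e4 : sin x = sin y := mul_left_cancel₀ hr.ne' h2
  have e5 : cos (x - y) = 1 := by
    rw [cos_sub, e3, e4]
    have := sin_sq_add_cos_sq y
    nlinarith
  rw [abs_lt] at hb
  have := (cos_eq_one_iff_of_lt_of_lt hb.1 hb.2).1 e5
  linarith

lemma FF_strictMono {a b d : ℝ} (ha : 0 < a) (h : b ^ 2 < a * d) : StrictMono (FF a b d) := by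
  intro s t hst
  have bs := abs_lt.1 (FF_bd a b d s)
  have bt := abs_lt.1 (FF_bd a b d t)
  by_cases hp : π ≤ t - s
  · linarith [bs.2, bt.1]
  · push Not at hp
    by_contra hcon
    push Not at hcon
    obtain ⟨r, hr, r1, r2⟩ := FF_dir ha h s
    obtain ⟨q, hq, q1, q2⟩ := FF_dir ha h t
    have hsin : 0 < sin (t - s) := sin_pos_of_pos_of_lt_pi (by linarith) hp
    have key : r * q * sin (FF a b d t - FF a b d s) = (a * d - b ^ 2) * sin (t - s) := by
      rw [sin_sub, sin_sub]
      have : r * q * (sin (FF a b d t) * cos (FF a b d s) - cos (FF a b d t) * sin (FF a b d s))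
        = (q * sin (FF a b d t)) * (r * cos (FF a b d s))
          - (q * cos (FF a b d t)) * (r * sin (FF a b d s)) := by ring
      rw [this, r1, r2, q1, q2]
      ring
    have h3 : 0 < r * q * sin (FF a b d t - FF a b d s) := by
      rw [key]; exact mul_pos (by linarith) hsin
    have h4 : 0 < sin (FF a b d t - FF a b d s) := (pos_iff_pos_of_mul_pos h3).1 (mul_pos hr hq)
    have h5 : sin (FF a b d t - FF a b d s) ≤ 0 :=
      sin_nonpos_of_nonpos_of_neg_pi_le (by linarith) (by linarith [bs.2, bt.1])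
    linarith

lemma FF_inv {a b d : ℝ} (ha : 0 < a) (h : b ^ 2 < a * d) (t : ℝ) :
    FF d (-b) a (FF a b d t) = t := by
  have hdp : 0 < d := by
    by_contra hd
    push Not at hd
    nlinarith [sq_nonneg b]
  have h' : (-b) ^ 2 < d * a := by nlinarith
  obtain ⟨r, hr, r1, r2⟩ := FF_dir ha h t
  obtain ⟨q, hq, q1, q2⟩ := FF_dir hdp h' (FF a b d t)
  refine angle_eq (r := q * r) (ρ := a * d - b ^ 2) (by positivity) (by linarith) ?_ ?_ ?_
  · have : q * r * cos (FF d (-b) a (FF a b d t)) = r * (q * cos (FF d (-b) a (FF a b d t))) := by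
      ring
    rw [this, q1]
    have : r * (d * cos (FF a b d t) + -b * sin (FF a b d t)) =
      d * (r * cos (FF a b d t)) - b * (r * sin (FF a b d t)) := by ring
    rw [this, r1, r2]
    ring
  · have : q * r * sin (FF d (-b) a (FF a b d t)) = r * (q * sin (FF d (-b) a (FF a b d t))) := by
      ring
    rw [this, q2]
    have : r * (-b * cos (FF a b d t) + a * sin (FF a b d t)) =
      a * (r * sin (FF a b d t)) - b * (r * cos (FF a b d t)) := by ring
    rw [this, r1, r2]
    ring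
  · have b1 := abs_lt.1 (FF_bd a b d t)
    have b2 := abs_lt.1 (FF_bd d (-b) a (FF a b d t))
    rw [abs_lt]
    have := pi_pos
    constructor <;> linarith [b1.1, b1.2, b2.1, b2.2]

/-- The half turn attached to a symmetric positive definite matrix. -/
lemma exists_half {a b d : ℝ} (ha : 0 < a) (h : b ^ 2 < a * d) :
    ∃ y : ℝ ≃o ℝ, (∀ t, y t = FF a b d (t + π / 2)) ∧ ∀ t, y (y t) = t + π := by
  have hdp : 0 < d := by
    by_contra hd
    push Not at hd
    nlinarith [sq_nonneg b]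
  have h' : (-b) ^ 2 < d * a := by nlinarith
  have hmono : StrictMono (fun t => FF a b d (t + π / 2)) := by
    intro s t hst
    exact FF_strictMono ha h (by linarith)
  let y : ℝ ≃o ℝ := StrictMono.orderIsoOfRightInverse (fun t => FF a b d (t + π / 2)) hmono
    (fun t => FF d (-b) a t - π / 2) (by
      intro t
      have := FF_inv hdp h' t
      simp only [neg_neg] at this
      simp only [sub_add_cancel]
      exact this)
  have hy : ∀ t, y t = FF a b d (t + π / 2) := fun t => rfl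
  refine ⟨y, hy, ?_⟩
  intro t
  rw [hy, hy]
  obtain ⟨r, hr, r1, r2⟩ := FF_dir ha h (t + π / 2)
  obtain ⟨q, hq, q1, q2⟩ := FF_dir ha h (FF a b d (t + π / 2) + π / 2)
  refine angle_eq (r := q * r) (ρ := a * d - b ^ 2) (by positivity) (by linarith) ?_ ?_ ?_
  · have : q * r * cos (FF a b d (FF a b d (t + π / 2) + π / 2)) =
      r * (q * cos (FF a b d (FF a b d (t + π / 2) + π / 2))) := by ring
    rw [this, q1, cos_add_pi_div_two, sin_add_pi_div_two]
    have : r * (a * -sin (FF a b d (t + π / 2)) + b * cos (FF a b d (t + π / 2))) =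
      b * (r * cos (FF a b d (t + π / 2))) - a * (r * sin (FF a b d (t + π / 2))) := by ring
    rw [this, r1, r2, cos_add_pi_div_two, sin_add_pi_div_two, cos_add_pi]
    ring
  · have : q * r * sin (FF a b d (FF a b d (t + π / 2) + π / 2)) =
      r * (q * sin (FF a b d (FF a b d (t + π / 2) + π / 2))) := by ring
    rw [this, q2, cos_add_pi_div_two, sin_add_pi_div_two]
    have : r * (b * -sin (FF a b d (t + π / 2)) + d * cos (FF a b d (t + π / 2))) =
      d * (r * cos (FF a b d (t + π / 2))) - b * (r * sin (FF a b d (t + π / 2))) := by ring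
    rw [this, r1, r2, cos_add_pi_div_two, sin_add_pi_div_two, sin_add_pi]
    ring
  · have b1 := abs_lt.1 (FF_bd a b d (t + π / 2))
    have b2 := abs_lt.1 (FF_bd a b d (FF a b d (t + π / 2) + π / 2))
    rw [abs_lt]
    have := pi_pos
    constructor <;> linarith [b1.1, b1.2, b2.1, b2.2]

/-- Four half turns with product a rotation by `2 π - θ`. -/
lemma exists_four (θ : ℝ) (hc : 0 < cos θ) (hcs : 4 * (sin θ) ^ 2 < (cos θ) ^ 2) (hθ : |θ| < π / 2) :
    ∃ y1 y2 y3 y4 : ℝ ≃o ℝ, (∀ t, y1 (y1 t) = t + π) ∧ (∀ t, y2 (y2 t) = t + π) ∧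
      (∀ t, y3 (y3 t) = t + π) ∧ (∀ t, y4 (y4 t) = t + π) ∧
      ∀ t, y4 (y3 (y2 (y1 t))) = t + (2 * π - θ) := by
  have hA : (2 * sin θ) ^ 2 < cos θ * cos θ := by nlinarith
  have hB0 : 0 < (cos θ) ^ 2 + 2 * (sin θ) ^ 2 := by positivity
  have h1 := sin_sq_add_cos_sq θ
  have hB : (3 * cos θ * sin θ) ^ 2 <
      ((cos θ) ^ 2 + 2 * (sin θ) ^ 2) * (3 * (cos θ) ^ 2 - 6 * (sin θ) ^ 2) := by
    have : ((cos θ) ^ 2 + 2 * (sin θ) ^ 2) * (3 * (cos θ) ^ 2 - 6 * (sin θ) ^ 2)
      - (3 * cos θ * sin θ) ^ 2 =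
      3 * ((cos θ) ^ 2 - 4 * (sin θ) ^ 2) * (sin θ ^ 2 + cos θ ^ 2) := by ring
    rw [h1] at this
    linarith
  have hD : (0 : ℝ) ^ 2 < 1 * 3 := by norm_num
  obtain ⟨y1, y1f, y1s⟩ := exists_half (a := 1) (b := 0) (d := 1) one_pos (by norm_num)
  obtain ⟨y2, y2f, y2s⟩ := exists_half hc hA
  obtain ⟨y3, y3f, y3s⟩ := exists_half hB0 hB
  obtain ⟨y4, y4f, y4s⟩ := exists_half one_pos hD
  refine ⟨y1, y2, y3, y4, y1s, y2s, y3s, y4s, ?_⟩
  intro t
  have hy1 : y1 t = t + π / 2 := by
    rw [y1f]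
    unfold FF crs
    have : cos (t + π / 2) * (0 * cos (t + π / 2) + 1 * sin (t + π / 2)) -
      sin (t + π / 2) * (1 * cos (t + π / 2) + 0 * sin (t + π / 2)) = 0 := by ring
    rw [this]
    simp
  set u1 := y1 t with hu1
  set u2 := y2 u1 with hu2
  set u3 := y3 u2 with hu3
  have e2 := y2f u1
  have e3 := y3f u2
  have e4 := y4f u3
  obtain ⟨p, hp, p1, p2⟩ := FF_dir hc hA (u1 + π / 2)
  obtain ⟨q, hq, q1, q2⟩ := FF_dir hB0 hB (u2 + π / 2)
  obtain ⟨r, hr, r1, r2⟩ := FF_dir one_pos hD (u3 + π / 2)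
  rw [← e2, ← hu2] at p1 p2
  rw [← e3, ← hu3] at q1 q2
  rw [← e4] at r1 r2
  have hu1' : u1 + π / 2 = t + π := by rw [hy1]; ring
  rw [hu1', cos_add_pi, sin_add_pi] at p1 p2
  rw [cos_add_pi_div_two, sin_add_pi_div_two] at q1 q2 r1 r2
  have hK : 0 < 3 * ((cos θ) ^ 2 - 4 * (sin θ) ^ 2) := by linarith
  refine angle_eq (r := p * q * r) (ρ := 3 * ((cos θ) ^ 2 - 4 * (sin θ) ^ 2))
    (by positivity) hK ?_ ?_ ?_
  · have ee : t + (2 * π - θ) = (t - θ) + 2 * π := by ring
    rw [ee, cos_add_two_pi, cos_sub]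
    have : p * q * r * cos (y4 u3) = p * q * (r * cos (y4 u3)) := by ring
    rw [this, r1]
    have : p * q * (1 * -sin u3 + 0 * cos u3) = - (p * (q * sin u3)) := by ring
    rw [this, q2]
    have : -(p * (3 * cos θ * sin θ * -sin u2 + (3 * cos θ ^ 2 - 6 * sin θ ^ 2) * cos u2)) =
      3 * cos θ * sin θ * (p * sin u2) - (3 * cos θ ^ 2 - 6 * sin θ ^ 2) * (p * cos u2) := by ring
    rw [this, p1, p2]
    ring
  · have ee : t + (2 * π - θ) = (t - θ) + 2 * π := by ring
    rw [ee, sin_add_two_pi, sin_sub]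
    have : p * q * r * sin (y4 u3) = p * q * (r * sin (y4 u3)) := by ring
    rw [this, r2]
    have : p * q * (0 * -sin u3 + 3 * cos u3) = 3 * (p * (q * cos u3)) := by ring
    rw [this, q1]
    have : 3 * (p * ((cos θ ^ 2 + 2 * sin θ ^ 2) * -sin u2 + 3 * cos θ * sin θ * cos u2)) =
      3 * (3 * cos θ * sin θ * (p * cos u2) - (cos θ ^ 2 + 2 * sin θ ^ 2) * (p * sin u2)) := by ring
    rw [this, p1, p2]
    ring
  · have b2 := abs_lt.1 (FF_bd (cos θ) (2 * sin θ) (cos θ) (u1 + π / 2))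
    have b3 := abs_lt.1 (FF_bd (cos θ ^ 2 + 2 * sin θ ^ 2) (3 * cos θ * sin θ)
      (3 * cos θ ^ 2 - 6 * sin θ ^ 2) (u2 + π / 2))
    have b4 := abs_lt.1 (FF_bd 1 0 3 (u3 + π / 2))
    rw [← e2, ← hu2] at b2
    rw [← e3, ← hu3] at b3
    rw [← e4] at b4
    rw [abs_lt] at hθ
    rw [abs_lt]
    have := pi_pos
    constructor <;> linarith [b2.1, b2.2, b3.1, b3.2, b4.1, b4.2, hθ.1, hθ.2]

/-- Scaled version: four square roots of the translation by `L`. -/
lemma exists_four_int (L : ℤ) (hL : 8 ≤ |L|) :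
    ∃ x1 x2 x3 x4 : ℝ ≃o ℝ, (∀ t, x1 (x1 t) = t + L) ∧ (∀ t, x2 (x2 t) = t + L) ∧
      (∀ t, x3 (x3 t) = t + L) ∧ (∀ t, x4 (x4 t) = t + L) ∧
      ∀ t, x4 (x3 (x2 (x1 t))) = t + (2 * L - 1) := by
  have hpi := pi_pos
  have hLR : (8 : ℝ) ≤ |(L : ℝ)| := by exact_mod_cast hL
  have hL0 : (L : ℝ) ≠ 0 := by
    intro h0
    rw [h0] at hLR
    norm_num at hLR
  -- conjugation by the scaling
  have conj : ∀ (y : ℝ ≃o ℝ), ∃ x : ℝ ≃o ℝ, ∀ t, x t = (L / π) * y (π * t / L) := by
    intro y
    have hm : StrictMono (fun t : ℝ => (L / π) * y (π * t / L)) := by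
      intro s t hst
      rcases lt_or_gt_of_ne hL0 with hneg | hpos
      · have h1 : π * t / L < π * s / L := by
          rw [div_lt_div_right_of_neg hneg]
          nlinarith
        have h2 := y.strictMono h1
        have h3 : (L : ℝ) / π < 0 := div_neg_of_neg_of_pos hneg hpi
        simp only
        nlinarith
      · have h1 : π * s / L < π * t / L := by
          rw [div_lt_div_iff_of_pos_right hpos]
          nlinarith
        have h2 := y.strictMono h1
        have h3 : 0 < (L : ℝ) / π := div_pos hpos hpi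
        simp only
        nlinarith
    refine ⟨StrictMono.orderIsoOfRightInverse _ hm (fun t : ℝ => (L / π) * y.symm (π * t / L)) ?_, ?_⟩
    · intro t
      have : π * (L / π * y.symm (π * t / L)) / L = y.symm (π * t / L) := by
        field_simp
      simp only [this, OrderIso.apply_symm_apply]
      field_simp
    · intro t
      rfl
  set θ : ℝ := π / L with hθdef
  have habs : |θ| ≤ π / 8 := by
    rw [hθdef, abs_div, abs_of_pos hpi]
    exact div_le_div_of_nonneg_left hpi.le (by norm_num) hLR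
  have habs' := abs_le.1 habs
  have hcosθ : cos (π / 8) ≤ cos θ := by
    rw [← cos_abs θ]
    exact cos_le_cos_of_nonneg_of_le_pi (abs_nonneg _) (by linarith) habs
  have h8 : 0 < cos (π / 8) := cos_pos_of_mem_Ioo ⟨by linarith, by linarith⟩
  have hc2 : (cos (π / 8)) ^ 2 = (1 + √2 / 2) / 2 := by
    have := cos_sq (π / 8)
    rw [this]
    have e : 2 * (π / 8) = π / 4 := by ring
    rw [e, cos_pi_div_four]
    ring
  have hsq2 : (1.4 : ℝ) < √2 := by
    rw [lt_sqrt (by norm_num)]
    norm_num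
  have hbig : (0.85 : ℝ) < (cos θ) ^ 2 := by
    have : (cos (π / 8)) ^ 2 ≤ (cos θ) ^ 2 := by
      exact pow_le_pow_left₀ h8.le hcosθ 2
    rw [hc2] at this
    nlinarith
  have hs : 4 * (sin θ) ^ 2 < (cos θ) ^ 2 := by
    have := sin_sq_add_cos_sq θ
    nlinarith
  obtain ⟨y1, y2, y3, y4, s1, s2, s3, s4, hp⟩ := exists_four θ (by linarith) hs (by
    have : π / 8 < π / 2 := by linarith
    linarith)
  obtain ⟨x1, h1⟩ := conj y1
  obtain ⟨x2, h2⟩ := conj y2
  obtain ⟨x3, h3⟩ := conj y3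
  obtain ⟨x4, h4⟩ := conj y4
  have cancel : ∀ w : ℝ, π * (L / π * w) / L = w := by
    intro w
    field_simp
  refine ⟨x1, x2, x3, x4, ?_, ?_, ?_, ?_, ?_⟩
  · intro t
    rw [h1, h1, cancel, s1]
    field_simp
  · intro t
    rw [h2, h2, cancel, s2]
    field_simp
  · intro t
    rw [h3, h3, cancel, s3]
    field_simp
  · intro t
    rw [h4, h4, cancel, s4]
    field_simp
  · intro t
    rw [h4, h3, h2, h1, cancel, cancel, cancel, hp, hθdef]
    field_simp

/-! The chain and its automorphism group. -/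

/-- the chain: integers times reals, ordered lexicographically -/
abbrev Om : Type := ℤ ×ₗ ℝ

/-- fibrewise automorphism -/
lemma exists_fib (f : ℤ → (ℝ ≃o ℝ)) :
    ∃ F : Om ≃o Om, ∀ m t, F (toLex (m, t)) = toLex (m, f m t) := by
  have hm : StrictMono (fun w : Om => (toLex ((ofLex w).1, f (ofLex w).1 (ofLex w).2) : Om)) := by
    intro w v h
    rw [Prod.Lex.lt_iff] at h
    rw [Prod.Lex.lt_iff]
    rcases h with h | ⟨h1, h2⟩
    · left; exact h
    · right
      refine ⟨h1, ?_⟩
      simp only [ofLex_toLex]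
      rw [h1]
      exact (f _).strictMono h2
  refine ⟨StrictMono.orderIsoOfRightInverse _ hm
    (fun w : Om => (toLex ((ofLex w).1, (f (ofLex w).1).symm (ofLex w).2) : Om)) ?_, ?_⟩
  · intro w
    simp
  · intro m t
    rfl

/-- the affine automorphism attached to `(j, i, k)` -/
lemma exists_aff (j i k : ℤ) :
    ∃ F : Om ≃o Om, ∀ (m : ℤ) (t : ℝ), F (toLex (m, t)) = toLex (m + j, t + k + i * m) := by
  have hm : StrictMono (fun w : Om =>
      (toLex ((ofLex w).1 + j, (ofLex w).2 + k + i * ((ofLex w).1 : ℝ)) : Om)) := by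
    intro w v h
    rw [Prod.Lex.lt_iff] at h
    rw [Prod.Lex.lt_iff]
    rcases h with h | ⟨h1, h2⟩
    · left
      simpa using h
    · right
      simp only [ofLex_toLex]
      rw [h1]
      exact ⟨rfl, by linarith⟩
  refine ⟨StrictMono.orderIsoOfRightInverse _ hm
    (fun w : Om => (toLex ((ofLex w).1 - j, (ofLex w).2 - k - i * (((ofLex w).1 - j : ℤ) : ℝ)) : Om))
      ?_, ?_⟩
  · intro w
    have e : (ofLex w).2 - (k : ℝ) - i * (((ofLex w).1 - j : ℤ) : ℝ) + k
      + i * (((ofLex w).1 - j : ℤ) : ℝ) = (ofLex w).2 := by ring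
    have e' : (ofLex w).1 - j + j = (ofLex w).1 := by ring
    simp only [ofLex_toLex, e, e']
    rfl
  · intro m t
    rfl

/-- positivity predicate of a cone -/
def IsCone {G : Type} [Group G] (P : Set G) : Prop :=
  (∀ a ∈ P, ∀ b ∈ P, a * b ∈ P) ∧ (1 : G) ∉ P ∧ (∀ a : G, a ≠ 1 → (a ∈ P ↔ a⁻¹ ∉ P))

lemma exists_base_cone (Ω : Type) [LinearOrder Ω] : ∃ P : Set (Ω ≃o Ω), IsCone P := by
  classical
  let r : Ω → Ω → Prop := WellOrderingRel
  have hwf : WellFounded r := IsWellFounded.wf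
  refine ⟨{f | ∃ w, (∀ w', r w' w → f w' = w') ∧ w < f w}, ?_, ?_, ?_⟩
  · rintro f ⟨w, hw, hfw⟩ g ⟨v, hv, hgv⟩
    rcases trichotomous_of r w v with h | h | h
    · refine ⟨w, ?_, ?_⟩
      · intro w' hw'
        rw [RelIso.mul_apply, hv w' (_root_.trans hw' h), hw w' hw']
      · rw [RelIso.mul_apply, hv w h]
        exact hfw
    · subst h
      refine ⟨w, ?_, ?_⟩
      · intro w' hw'
        rw [RelIso.mul_apply, hv w' hw', hw w' hw']
      · rw [RelIso.mul_apply]
        exact hfw.trans (f.strictMono hgv)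
    · refine ⟨v, ?_, ?_⟩
      · intro w' hw'
        rw [RelIso.mul_apply, hv w' hw', hw w' (_root_.trans hw' h)]
      · rw [RelIso.mul_apply]
        have := f.strictMono hgv
        rwa [hw v h] at this
  · rintro ⟨w, _, hw⟩
    exact lt_irrefl _ hw
  · intro f hf
    have hex : ∃ w, f w ≠ w := by
      by_contra hcon
      push Not at hcon
      exact hf (by ext w; exact hcon w)
    let w := hwf.min {w | f w ≠ w} hex
    have hw : f w ≠ w := hwf.min_mem {w | f w ≠ w} hex
    have hmin : ∀ w', r w' w → f w' = w' := by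
      intro w' hw'
      by_contra hne
      exact hwf.not_lt_min {w | f w ≠ w} hne hw'
    have hinv : ∀ w', f w' = w' → f⁻¹ w' = w' := by
      intro w' hw'
      have : f⁻¹ (f w') = w' := RelIso.inv_apply_self f w'
      rwa [hw'] at this
    have huniq : ∀ (g : Ω ≃o Ω), (∀ w', r w' w → g w' = w') → g w ≠ w →
        ((∃ v, (∀ w', r w' v → g w' = w') ∧ v < g v) ↔ w < g w) := by
      intro g hg hgw
      constructor
      · rintro ⟨v, hv, hgv⟩
        rcases trichotomous_of r w v with h | h | h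
        · exact absurd (hv w h) hgw
        · subst h; exact hgv
        · rw [hg v h] at hgv
          exact absurd hgv (lt_irrefl _)
      · intro h
        exact ⟨w, hg, h⟩
    have hinvne : f⁻¹ w ≠ w := by
      intro h
      apply hw
      have : f (f⁻¹ w) = w := RelIso.apply_inv_self f w
      rwa [h] at this
    show (∃ v, (∀ w', r w' v → f w' = w') ∧ v < f v) ↔
      ¬ (∃ v, (∀ w', r w' v → f⁻¹ w' = w') ∧ v < f⁻¹ v)
    rw [huniq f hmin hw, huniq f⁻¹ (fun w' hw' => hinv w' (hmin w' hw')) hinvne, not_lt]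
    constructor
    · intro h
      have := f⁻¹.monotone h.le
      rwa [RelIso.inv_apply_self] at this
    · intro h
      have := f.monotone h
      rw [RelIso.apply_inv_self] at this
      exact lt_of_le_of_ne this (Ne.symm hw)

lemma extend_cone {Ω : Type} [LinearOrder Ω] (p : Ω) (P : Set (Ω ≃o Ω)) (hP : IsCone P) :
    IsCone {f : Ω ≃o Ω | p < f p ∨ (f p = p ∧ f ∈ P)} := by
  obtain ⟨h1, h2, h3⟩ := hP
  refine ⟨?_, ?_, ?_⟩
  · rintro f (hf | ⟨hf, hfP⟩) g (hg | ⟨hg, hgP⟩)
    · left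
      rw [RelIso.mul_apply]
      exact hf.trans (f.strictMono hg)
    · left
      rw [RelIso.mul_apply, hg]
      exact hf
    · left
      rw [RelIso.mul_apply]
      have := f.strictMono hg
      rwa [hf] at this
    · right
      exact ⟨by rw [RelIso.mul_apply, hg, hf], h1 f hfP g hgP⟩
  · rintro (h | ⟨_, h⟩)
    · exact lt_irrefl _ h
    · exact h2 h
  · intro f hf
    have hi : f (f⁻¹ p) = p := RelIso.apply_inv_self f p
    have hi' : f⁻¹ (f p) = p := RelIso.inv_apply_self f p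
    show (p < f p ∨ (f p = p ∧ f ∈ P)) ↔ ¬ (p < f⁻¹ p ∨ (f⁻¹ p = p ∧ f⁻¹ ∈ P))
    rcases lt_trichotomy p (f p) with h | h | h
    · have h4 : f⁻¹ p < p := by
        have := f⁻¹.strictMono h
        rwa [hi'] at this
      constructor
      · rintro - (h5 | ⟨h5, -⟩)
        · exact lt_asymm h4 h5
        · exact h4.ne h5
      · intro _; exact Or.inl h
    · have h4 : f⁻¹ p = p := by
        rw [← h] at hi'
        exact hi'
      constructor
      · rintro (h5 | ⟨-, h5⟩)
        · exact absurd h5 (by rw [← h]; exact lt_irrefl _)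
        · rintro (h6 | ⟨-, h6⟩)
          · exact absurd h6 (by rw [h4]; exact lt_irrefl _)
          · exact (h3 f hf).1 h5 h6
      · intro h5
        right
        refine ⟨h.symm, (h3 f hf).2 ?_⟩
        intro h6
        exact h5 (Or.inr ⟨h4, h6⟩)
    · have h4 : p < f⁻¹ p := by
        have := f⁻¹.strictMono h
        rwa [hi'] at this
      constructor
      · rintro (h5 | ⟨h5, -⟩)
        · exact absurd h5 (lt_asymm h)
        · exact absurd h5 h.ne
      · intro h5
        exact absurd (Or.inl h4) h5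

/-! Heisenberg groups. -/

/-- Heisenberg group over a commutative ring -/
@[ext] structure Heis (R : Type) where
  x : R
  y : R
  z : R

namespace Heis
variable {R : Type} [CommRing R]

instance : Mul (Heis R) := ⟨fun a b => ⟨a.x + b.x, a.y + b.y, a.z + b.z + a.y * b.x⟩⟩
instance : One (Heis R) := ⟨⟨0, 0, 0⟩⟩
instance : Inv (Heis R) := ⟨fun a => ⟨-a.x, -a.y, -a.z + a.y * a.x⟩⟩

@[simp] lemma mul_x (a b : Heis R) : (a * b).x = a.x + b.x := rfl
@[simp] lemma mul_y (a b : Heis R) : (a * b).y = a.y + b.y := rfl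
@[simp] lemma mul_z (a b : Heis R) : (a * b).z = a.z + b.z + a.y * b.x := rfl
@[simp] lemma one_x : (1 : Heis R).x = 0 := rfl
@[simp] lemma one_y : (1 : Heis R).y = 0 := rfl
@[simp] lemma one_z : (1 : Heis R).z = 0 := rfl
@[simp] lemma inv_x (a : Heis R) : (a⁻¹).x = -a.x := rfl
@[simp] lemma inv_y (a : Heis R) : (a⁻¹).y = -a.y := rfl
@[simp] lemma inv_z (a : Heis R) : (a⁻¹).z = -a.z + a.y * a.x := rfl

instance : Group (Heis R) := Group.ofLeftAxioms
  (by intro a b c; ext <;> simp <;> ring)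
  (by intro a; ext <;> simp)
  (by intro a; ext <;> simp)

/-- projection to the abelianisation -/
def pr : Heis R →* Multiplicative (R × R) where
  toFun a := Multiplicative.ofAdd (a.x, a.y)
  map_one' := rfl
  map_mul' _ _ := rfl

lemma nilp : Group.IsNilpotent (Heis R) := by
  apply Subgroup.isNilpotent_of_ker_le_center (pr (R := R))
  intro a ha
  rw [MonoidHom.mem_ker] at ha
  have h : (a.x, a.y) = (0, 0) := ha
  rw [Prod.mk.injEq] at h
  rw [Subgroup.mem_center_iff]
  intro g
  ext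
  · simp [h.1]
  · simp [h.2]
  · simp [h.1, h.2, add_comm]

end Heis

/-- order on the rational Heisenberg group -/
def QH : Set (Heis ℚ) := {h | 0 < h.x ∨ (h.x = 0 ∧ (0 < h.z ∨ (h.z = 0 ∧ 0 < h.y)))}

lemma QH_cone : IsCone QH := by
  refine ⟨?_, ?_, ?_⟩
  · rintro a ha b hb
    simp only [QH, Set.mem_ofPred_eq, Heis.mul_x, Heis.mul_y, Heis.mul_z] at ha hb ⊢
    rcases ha with ha | ⟨ha, ha'⟩
    · rcases hb with hb | ⟨hb, hb'⟩
      · left; linarith
      · left; linarith
    · rcases hb with hb | ⟨hb, hb'⟩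
      · left; linarith
      · right
        refine ⟨by linarith, ?_⟩
        rw [hb, mul_zero, add_zero]
        rcases ha' with ha' | ⟨ha', ha''⟩
        · rcases hb' with hb' | ⟨hb', hb''⟩
          · left; linarith
          · left; linarith
        · rcases hb' with hb' | ⟨hb', hb''⟩
          · left; linarith
          · right; constructor <;> linarith
  · simp [QH]
  · intro a ha
    simp only [QH, Set.mem_ofPred_eq, Heis.inv_x, Heis.inv_y, Heis.inv_z]
    rcases lt_trichotomy a.x 0 with h | h | h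
    · constructor
      · rintro (h1 | ⟨h1, -⟩) <;> linarith
      · intro h1
        exact absurd (Or.inl (by linarith)) h1
    · rw [h]
      simp only [lt_self_iff_false, true_and, false_or, neg_zero, mul_zero, add_zero]
      rcases lt_trichotomy a.z 0 with h2 | h2 | h2
      · constructor
        · rintro (h3 | ⟨h3, -⟩) <;> linarith
        · intro h3
          exact absurd (Or.inl (by linarith)) h3
      · rw [h2]
        simp only [lt_self_iff_false, true_and, false_or, neg_zero]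
        rcases lt_trichotomy a.y 0 with h3 | h3 | h3
        · constructor
          · intro h4; linarith
          · intro h4
            exact absurd (by linarith) h4
        · exact absurd (Heis.ext h h3 h2) ha
        · constructor
          · intro h4 h5; linarith
          · intro _; exact h3
      · constructor
        · rintro - (h3 | ⟨h3, -⟩) <;> linarith
        · intro _; exact Or.inl h2
    · constructor
      · rintro - (h1 | ⟨h1, -⟩) <;> linarith
      · intro _; exact Or.inl h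

lemma pow_formula (h : Heis ℚ) (n : ℕ) :
    h ^ n = ⟨n * h.x, n * h.y, n * h.z + h.x * h.y * (n * (n - 1) / 2)⟩ := by
  induction n with
  | zero => ext <;> simp
  | succ n ih =>
    rw [pow_succ, ih]
    ext
    · simp; ring
    · simp; ring
    · simp; ring

lemma divisible (h : Heis ℚ) (n : ℕ) (hn : 0 < n) : ∃ x : Heis ℚ, x ^ n = h := by
  have hn' : (n : ℚ) ≠ 0 := by positivity
  refine ⟨⟨h.x / n, h.y / n, h.z / n - h.x * h.y * (n - 1) / (2 * n ^ 2)⟩, ?_⟩
  rw [pow_formula]
  ext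
  · simp only; field_simp
  · simp only; field_simp
  · simp only; field_simp; ring

/-- inclusion of the integral Heisenberg group in the rational one -/
def castH : Heis ℤ →* Heis ℚ where
  toFun a := ⟨a.x, a.y, a.z⟩
  map_one' := by ext <;> simp
  map_mul' a b := by ext <;> simp

lemma castH_inj : Function.Injective castH := by
  intro a b h
  have h1 : (castH a).x = (castH b).x := by rw [h]
  have h2 : (castH a).y = (castH b).y := by rw [h]
  have h3 : (castH a).z = (castH b).z := by rw [h]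
  simp only [castH, MonoidHom.coe_mk, OneHom.coe_mk, Int.cast_inj] at h1 h2 h3
  exact Heis.ext h1 h2 h3

lemma exists_pow (h : Heis ℚ) : ∃ n : ℕ, 0 < n ∧ ∃ w : Heis ℤ, castH w = h ^ n := by
  obtain ⟨x, y, z⟩ := h
  set D : ℕ := x.den * y.den * z.den with hD
  refine ⟨2 * D, by have := x.den_pos; have := y.den_pos; have := z.den_pos; positivity, ?_⟩
  refine ⟨⟨2 * x.num * y.den * z.den, 2 * y.num * x.den * z.den,
    2 * z.num * x.den * y.den + x.num * y.num * z.den * (2 * D - 1)⟩, ?_⟩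
  rw [pow_formula]
  have hDq : (D : ℚ) = x.den * y.den * z.den := by rw [hD]; push_cast; ring
  ext
  · simp only [castH, MonoidHom.coe_mk, OneHom.coe_mk]
    push_cast
    rw [hDq]
    have e1 : x * x.den = x.num := Rat.mul_den_eq_num x
    rw [← e1]
    ring
  · simp only [castH, MonoidHom.coe_mk, OneHom.coe_mk]
    push_cast
    rw [hDq]
    have e2 : y * y.den = y.num := Rat.mul_den_eq_num y
    rw [← e2]
    ring
  · simp only [castH, MonoidHom.coe_mk, OneHom.coe_mk]
    push_cast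
    rw [hDq]
    have e1 : x * x.den = x.num := Rat.mul_den_eq_num x
    have e2 : y * y.den = y.num := Rat.mul_den_eq_num y
    have e3 : z * z.den = z.num := Rat.mul_den_eq_num z
    rw [← e1, ← e2, ← e3]
    ring

/-- the affine automorphism attached to an element of the integral Heisenberg group -/
noncomputable def aff (h : Heis ℤ) : Om ≃o Om := (exists_aff h.x h.y h.z).choose

lemma aff_apply (h : Heis ℤ) (m : ℤ) (t : ℝ) :
    aff h (toLex (m, t)) = toLex (m + h.x, t + h.z + h.y * m) :=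
  (exists_aff h.x h.y h.z).choose_spec m t

/-- the action of the integral Heisenberg group -/
noncomputable def Phi : Heis ℤ →* (Om ≃o Om) where
  toFun := aff
  map_one' := by
    ext w
    obtain ⟨m, t⟩ := w
    have := aff_apply 1 m t
    simp only [Heis.one_x, Heis.one_y, Heis.one_z, Int.cast_zero, add_zero, zero_mul] at this
    exact this
  map_mul' a b := by
    ext w
    obtain ⟨m, t⟩ := w
    show aff (a * b) (toLex (m, t)) = aff a (aff b (toLex (m, t)))
    rw [aff_apply, aff_apply, aff_apply]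
    congr 1
    ext
    · simp; ring
    · simp; ring

lemma Phi_apply (h : Heis ℤ) (m : ℤ) (t : ℝ) :
    Phi h (toLex (m, t)) = toLex (m + h.x, t + h.z + h.y * m) := aff_apply h m t

lemma Phi_inj : Function.Injective Phi := by
  intro a b h
  have h0 : Phi a (toLex (0, 0)) = Phi b (toLex (0, 0)) := by rw [h]
  have h1 : Phi a (toLex (1, 0)) = Phi b (toLex (1, 0)) := by rw [h]
  rw [Phi_apply, Phi_apply] at h0 h1
  have h0' := toLex.injective h0
  have h1' := toLex.injective h1
  rw [Prod.mk.injEq] at h0' h1'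
  obtain ⟨ex, ez⟩ := h0'
  obtain ⟨-, ey⟩ := h1'
  simp only [zero_add, Int.cast_zero, mul_zero, add_zero, Int.cast_inj, Int.cast_one,
    mul_one] at ex ez ey
  rw [ez] at ey
  have ey' : (a.y : ℝ) = b.y := by linarith
  exact Heis.ext ex (by exact_mod_cast ey') ez

/-- The negation of the preceding statement: Take a group G with a right-order cone P, a nilpotent subgroup N, its minimal divisible completion N# with a cone extending P∩N, and g in N#. Then the cone on N cut out by the g-conjugate of that cone is the restriction of some right-order cone on G. -/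
theorem result :
    ¬ (∀ (G : Type) [Group G] (N : Subgroup G), Group.IsNilpotent N →
    ∀ (P : Set G),
      ((∀ a ∈ P, ∀ b ∈ P, a * b ∈ P) ∧ (1 : G) ∉ P ∧ (∀ a : G, a ≠ 1 → (a ∈ P ↔ a⁻¹ ∉ P))) →
    ∀ (H : Type) [Group H], Group.IsNilpotent H →
      (∀ h : H, ∀ n : ℕ, 0 < n → ∃ x : H, x ^ n = h) →
    ∀ (ι : N →* H), Function.Injective ι →
      (∀ h : H, ∃ n : ℕ, 0 < n ∧ h ^ n ∈ ι.range) →
    ∀ (Q : Set H),
      ((∀ a ∈ Q, ∀ b ∈ Q, a * b ∈ Q) ∧ (1 : H) ∉ Q ∧ (∀ a : H, a ≠ 1 → (a ∈ Q ↔ a⁻¹ ∉ Q))) →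
      (∀ x : N, ι x ∈ Q ↔ (x : G) ∈ P) →
    ∀ g : H, ∃ R : Set G,
      ((∀ a ∈ R, ∀ b ∈ R, a * b ∈ R) ∧ (1 : G) ∉ R ∧ (∀ a : G, a ≠ 1 → (a ∈ R ↔ a⁻¹ ∉ R))) ∧
      (∀ x : N, (x : G) ∈ R ↔ g⁻¹ * ι x * g ∈ Q)) := by
  intro hall
  obtain ⟨P0, hP0⟩ := exists_base_cone Om
  have hP1 := extend_cone (toLex (1, 0) : Om) P0 hP0
  have hP := extend_cone (toLex (0, 0) : Om) _ hP1
  set P1 : Set (Om ≃o Om) := {f | toLex (1, 0) < f (toLex (1, 0)) ∨
    (f (toLex (1, 0)) = toLex (1, 0) ∧ f ∈ P0)} with hP1def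
  set P : Set (Om ≃o Om) := {f | toLex (0, 0) < f (toLex (0, 0)) ∨
    (f (toLex (0, 0)) = toLex (0, 0) ∧ f ∈ P1)} with hPdef
  let e : Heis ℤ ≃* Phi.range := MonoidHom.ofInjective Phi_inj
  have he : ∀ w, ((e w : Phi.range) : Om ≃o Om) = Phi w := fun w => rfl
  let ι : Phi.range →* Heis ℚ := castH.comp e.symm.toMonoidHom
  have hι : ∀ w, ι (e w) = castH w := by
    intro w
    show castH (e.symm (e w)) = castH w
    rw [MulEquiv.symm_apply_apply]
  have hιinj : Function.Injective ι := castH_inj.comp e.symm.injective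
  have hN : Group.IsNilpotent Phi.range :=
    @Group.nilpotent_of_mulEquiv (Heis ℤ) _ _ _ Heis.nilp e
  -- compatibility of the orders
  have hcomp : ∀ x : Phi.range, ι x ∈ QH ↔ (x : Om ≃o Om) ∈ P := by
    intro x
    obtain ⟨w, rfl⟩ := e.surjective x
    rw [hι, he]
    have a0 := Phi_apply w 0 0
    have a1 := Phi_apply w 1 0
    have hq : castH w ∈ QH ↔ (0 < w.x ∨ (w.x = 0 ∧ (0 < w.z ∨ (w.z = 0 ∧ 0 < w.y)))) := by
      simp only [QH, castH, Set.mem_ofPred_eq, MonoidHom.coe_mk, OneHom.coe_mk, Int.cast_pos,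
        Int.cast_eq_zero]
    have l0 : (toLex ((0 : ℤ), (0 : ℝ)) : Om) < Phi w (toLex (0, 0)) ↔
        (0 < w.x ∨ (w.x = 0 ∧ 0 < w.z)) := by
      rw [a0, Prod.Lex.lt_iff]
      simp [eq_comm]
    have l0' : Phi w (toLex ((0 : ℤ), (0 : ℝ))) = toLex (0, 0) ↔ (w.x = 0 ∧ w.z = 0) := by
      rw [a0, toLex_inj, Prod.mk.injEq]
      simp
    have hp : Phi w ∈ P ↔ ((0 < w.x ∨ (w.x = 0 ∧ 0 < w.z)) ∨ ((w.x = 0 ∧ w.z = 0) ∧ Phi w ∈ P1)) := by
      rw [hPdef, Set.mem_ofPred_eq, l0, l0']
    rw [hq, hp]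
    constructor
    · rintro (h | ⟨h, h1 | ⟨h1, h2⟩⟩)
      · exact Or.inl (Or.inl h)
      · exact Or.inl (Or.inr ⟨h, h1⟩)
      · right
        refine ⟨⟨h, h1⟩, ?_⟩
        left
        rw [a1, Prod.Lex.lt_iff]
        right
        simp [h, h1, h2]
    · rintro ((h | ⟨h, h1⟩) | ⟨⟨h, h1⟩, h2⟩)
      · exact Or.inl h
      · exact Or.inr ⟨h, Or.inl h1⟩
      · right
        refine ⟨h, Or.inr ⟨h1, ?_⟩⟩
        rcases h2 with h2 | ⟨h2, h3⟩
        · rw [a1, Prod.Lex.lt_iff] at h2
          simpa [h, h1] using h2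
        · exfalso
          rw [a1, toLex_inj, Prod.mk.injEq] at h2
          have hy0 : w.y = 0 := by simpa [h, h1] using h2
          have hw1 : w = 1 := Heis.ext h hy0 h1
          rw [hw1, map_one] at h3
          exact hP0.2.1 h3
  obtain ⟨R, ⟨hR1, hR2, hR3⟩, hR⟩ := hall (Om ≃o Om) Phi.range hN P hP (Heis ℚ) Heis.nilp divisible
    ι hιinj (by
      intro h
      obtain ⟨n, hn, w, hw⟩ := exists_pow h
      exact ⟨n, hn, e w, by rw [hι, hw]⟩) QH QH_cone hcomp ⟨-1/2, 0, 0⟩
  have hR' : ∀ w : Heis ℤ, Phi w ∈ R ↔ ((⟨-1/2, 0, 0⟩ : Heis ℚ)⁻¹ * castH w * ⟨-1/2, 0, 0⟩) ∈ QH := by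
    intro w
    have := hR (e w)
    rwa [hι, he] at this
  -- the two elements
  have hz : Phi ⟨0, 16, 8⟩ ∈ R := by
    rw [hR']
    simp only [QH, castH, MonoidHom.coe_mk, OneHom.coe_mk, Set.mem_ofPred_eq, Heis.mul_x,
      Heis.mul_y, Heis.mul_z, Heis.inv_x, Heis.inv_y, Heis.inv_z]
    norm_num
  have hc : Phi ⟨0, -32, -15⟩ ∈ R := by
    rw [hR']
    simp only [QH, castH, MonoidHom.coe_mk, OneHom.coe_mk, Set.mem_ofPred_eq, Heis.mul_x,
      Heis.mul_y, Heis.mul_z, Heis.inv_x, Heis.inv_y, Heis.inv_z]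
    norm_num
  -- the square roots
  have hfour : ∀ m : ℤ, ∃ x : Fin 4 → (ℝ ≃o ℝ), (∀ i t, x i (x i t) = t + (8 + 16 * m : ℤ)) ∧
      ∀ t, x 3 (x 2 (x 1 (x 0 t))) = t + (2 * (8 + 16 * m : ℤ) - 1) := by
    intro m
    obtain ⟨x1, x2, x3, x4, h1, h2, h3, h4, h5⟩ := exists_four_int (8 + 16 * m) (by
      rcases le_or_gt 0 m with h | h
      · rw [abs_of_nonneg (by omega)]; omega
      · rw [abs_of_neg (by omega)]; omega)
    refine ⟨![x1, x2, x3, x4], ?_, ?_⟩
    · intro i t
      fin_cases i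
      · exact h1 t
      · exact h2 t
      · exact h3 t
      · exact h4 t
    · intro t
      exact h5 t
  choose xs hsq hprod using hfour
  choose X hX using fun i : Fin 4 => exists_fib (fun m => xs m i)
  have hXsq : ∀ i, X i * X i = Phi ⟨0, 16, 8⟩ := by
    intro i
    ext w
    obtain ⟨m, t⟩ := w
    show X i (X i (toLex (m, t))) = Phi ⟨0, 16, 8⟩ (toLex (m, t))
    rw [hX, hX, Phi_apply, hsq]
    congr 1
    ext
    · simp
    · push_cast; ring
  have hXprod : X 3 * X 2 * X 1 * X 0 = Phi ⟨0, 32, 15⟩ := by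
    ext w
    obtain ⟨m, t⟩ := w
    show X 3 (X 2 (X 1 (X 0 (toLex (m, t))))) = Phi ⟨0, 32, 15⟩ (toLex (m, t))
    rw [hX, hX, hX, hX, Phi_apply, hprod]
    congr 1
    ext
    · simp
    · push_cast; ring
  have hXR : ∀ i, X i ∈ R := by
    intro i
    by_contra hcon
    have hne : X i ≠ 1 := by
      intro h1
      have := hXsq i
      rw [h1, one_mul] at this
      rw [← this] at hz
      exact hR2 hz
    have hinv : (X i)⁻¹ ∈ R := by
      by_contra h2
      exact hcon ((hR3 _ hne).2 h2)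
    have h3 := hR1 _ hz _ (hR1 _ hinv _ hinv)
    rw [← hXsq i] at h3
    have : X i * X i * ((X i)⁻¹ * (X i)⁻¹) = 1 := by group
    rw [this] at h3
    exact hR2 h3
  have hfin : X 3 * X 2 * X 1 * X 0 ∈ R :=
    hR1 _ (hR1 _ (hR1 _ (hXR 3) _ (hXR 2)) _ (hXR 1)) _ (hXR 0)
  rw [hXprod] at hfin
  have hlast := hR1 _ hfin _ hc
  rw [← map_mul] at hlast
  have : (⟨0, 32, 15⟩ : Heis ℤ) * ⟨0, -32, -15⟩ = 1 := by
    ext <;> simp
  rw [this, map_one] at hlast
  exact hR2 hlast

end Pool.Agent.S00882
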