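import Pool.Statements.S01722
import Pool.Agent.Helper93.HZ.ALL

set_option autoImplicit false
open Pool Pool.MP_64298a_al

namespace Pool.Agent.S01722

/-- The negation of the preceding statement: There is a finitely presented group whose Cayley graph for some finite generating set has exactly one end, with infinite-order elements a, b such that the HNN extension ⟨G, t ∣ t a t⁻¹ = b⟩ is isomorphic to G. -/
theorem result :
    ¬ (∃ (G : Type) (_ : Group G),
    (∃ (n : ℕ) (rels : Set (FreeGroup (Fin n))),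
        rels.Finite ∧ Nonempty (PresentedGroup rels ≃* G)) ∧
    (∃ S : Finset G, Subgroup.closure (S : Set G) = ⊤ ∧
      Nonempty (Unique (SimpleGraph.end
        (SimpleGraph.fromRel (fun x y : G => ∃ s ∈ S, y = x * s))))) ∧
    ∃ (a b : G), ¬ IsOfFinOrder a ∧ ¬ IsOfFinOrder b ∧
      ∃ φ : Subgroup.zpowers a ≃* Subgroup.zpowers b,
        ((φ ⟨a, Subgroup.mem_zpowers a⟩ : Subgroup.zpowers b) : G) = b ∧
        Nonempty (HNNExtension G (Subgroup.zpowers a) (Subgroup.zpowers b) φ ≃* G)) := by
  exact Pool.Agent.Helper93.HZ.final_result Pool.Agent.Helper93.HZ.hz_END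
    Pool.Agent.Helper93.HZ.hz_EX Pool.Agent.Helper93.HZ.hz_BST Pool.Agent.Helper93.HZ.hz_OPT
    Pool.Agent.Helper93.HZ.hz_PRU Pool.Agent.Helper93.HZ.hz_STEP Pool.Agent.Helper93.HZ.hz_M
    Pool.Agent.Helper93.HZ.hz_FIN

end Pool.Agent.S01722
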