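import Pool.Statements.S01836
import Pool.Agent.Helper81.BL4

set_option autoImplicit false
open Pool Pool.MP_6e2f2f_al

namespace Pool.Agent.S01836

open Pool.Agent.Helper81.BL

/-- a bound for the variables of the polynomials of a finite set -/
theorem exists_bound (S : Finset (FreeMagma ℕ →₀ ℤ)) :
    ∃ N : ℕ, ∀ s ∈ S, ∀ m ∈ s.support, bnd m ≤ N :=
  ⟨S.sup fun s => s.support.sup bnd, fun _ hs _ hm =>
    (Finset.le_sup (f := bnd) hm).trans
      (Finset.le_sup (f := fun s : FreeMagma ℕ →₀ ℤ => s.support.sup bnd) hs)⟩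

/-- The negation of the preceding statement: For every finite nonassociative ring in which any two elements generate a Lie subring, there is a finite set of integer polynomial identities holding in it from which all its identities follow. -/
theorem result :
    ¬ (∀ (R : Type) [NonUnitalNonAssocRing R] [Finite R],
      (∀ a b : R,
        ∀ x ∈ NonUnitalSubring.closure ({a, b} : Set R),
        ∀ y ∈ NonUnitalSubring.closure ({a, b} : Set R),
        ∀ z ∈ NonUnitalSubring.closure ({a, b} : Set R),
          x * x = 0 ∧ (x * y) * z + (y * z) * x + (z * x) * y = 0) →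
      ∃ S : Finset (FreeMagma ℕ →₀ ℤ),
        (∀ s ∈ S, ∀ f : ℕ → R,
            Finsupp.sum s (fun m c => c • FreeMagma.lift f m) = 0) ∧
        ∀ p : FreeMagma ℕ →₀ ℤ,
          (∀ f : ℕ → R, Finsupp.sum p (fun m c => c • FreeMagma.lift f m) = 0) →
          ∀ (A : Type) [NonUnitalNonAssocRing A],
            (∀ s ∈ S, ∀ g : ℕ → A,
                Finsupp.sum s (fun m c => c • FreeMagma.lift g m) = 0) →
            ∀ g : ℕ → A, Finsupp.sum p (fun m c => c • FreeMagma.lift g m) = 0) := by
  intro H
  obtain ⟨S, hS, hall⟩ := H (Q (0 : K)) (fun a b x hx y hy z hz =>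
    ⟨sq_zero x, jacobi_C a b x y z (closure_le a b hx) (closure_le a b hy) (closure_le a b hz)⟩)
  obtain ⟨N, hN⟩ := exists_bound S
  have hm : (2 * N + 1) % 2 = 1 := by omega
  refine not_pm (m := 2 * N + 1) hm ?_
  refine hall (pm (2 * N + 1)) (fun f => idn_pm (2 * N + 1) f) (A (2 * N + 1 + 1)) ?_ (gg (2 * N + 1))
  intro s hs g
  exact idn_A s (fun f => hS s hs f) N (by omega) (hN s hs) g

end Pool.Agent.S01836
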