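import Pool.Statements.S02130
import Pool.Agent.Helper85.SRCrit
import Pool.Agent.Helper85.QuatLength

set_option autoImplicit false
open CategoryTheory MonoidalCategory
open Pool Pool.MP_83ca68_al

namespace Pool.Agent.S02130

/-- The negation of the preceding statement: There is a constant c such that every finite soluble group in which each element is conjugate to its inverse, and in which every tensor product of two irreducible complex representations is multiplicity-free, has derived length at most c. -/
theorem result :
    ¬ (∃ c : ℕ, ∀ (G : Type) [Group G] [Fintype G], IsSolvable G →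
      (∀ g : G, IsConj g g⁻¹) →
      (∀ U V W : FDRep ℂ G, CategoryTheory.Simple U → CategoryTheory.Simple V →
        CategoryTheory.Simple W → Module.finrank ℂ (U ⟶ V ⊗ W) ≤ 1) →
      derivedSeries G c = ⊥) := by
  rintro ⟨c, hc⟩
  obtain ⟨n, hn⟩ := Pool.Agent.Helper85.SR.exists_derived_ne_bot c
  have hpair := Pool.Agent.Helper85.SR.pair_inversion n
  let _ : Fintype (Pool.Agent.Helper85.SR.Gq n) := Fintype.ofFinite _
  refine hn (hc (Pool.Agent.Helper85.SR.Gq n) (Pool.Agent.Helper85.SR.Gq_solvable n) ?_ ?_)
  · intro g
    obtain ⟨h, hh, _⟩ := hpair g g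
    exact isConj_iff.mpr ⟨h, hh⟩
  · intro U V W hU hV hW
    exact Pool.Agent.Helper85.SR.finrank_hom_tensor_le_one hpair U V W hU hV hW

end Pool.Agent.S02130
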