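import Pool.Statements.S02641
import Pool.Agent.Reg4.PartB
import Pool.Agent.Reg4.PartE

set_option autoImplicit false
open Pool Pool.MP_aaae20_al

namespace Pool.Agent.S02641

/-- Let G be a group in which every element has finite order, with an automorphism of order exactly 4 that fixes only the identity. Then every finitely generated subgroup of G is finite. -/
theorem result :
    ∀ (G : Type) [Group G] (φ : MulAut G),
      Monoid.IsTorsion G →
      orderOf φ = 4 →
      (∀ g : G, φ g = g → g = 1) →
      ∀ H : Subgroup G, H.FG → Finite H := by
  intro G _ φ hG h4 hreg H hH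
  have hS := Pool.Agent.Reg4.setup_of hG h4 hreg
  have hC : Pool.Agent.Reg4.CommCentral φ := Pool.Agent.Reg4.comm_central hS
  have hss := Pool.Agent.Reg4.starStar_of hS hC
  have hsol := hS.isSolvable hss
  have hH2 : Group.IsSolvable H := inferInstance
  exact Pool.Agent.Reg4.finite_of_solvable hH2 ((Group.fg_iff_subgroup_fg H).mpr hH)
    (IsMulTorsion.subgroup hG H)

end Pool.Agent.S02641
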