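import Pool.Statements.S02868
import Pool.Agent.Helper84.TorFinal

/-!
The counterexample.  Let `O` be the localization of `ℚ[s,z,w]` at the origin and let
`R = O ⊕ O x ⊕ O r` with `x^2 = s x - w r - z w`, `r x = w r`, `r^2 = (s - w - z) r`.
With `y = s - x - r` this is the local ring with relations `x y = z w`, `r (x - w) = 0`,
`r (z - y) = 0`: it is free over `O` (hence Cohen-Macaulay of dimension three) and has the two
minimal primes `(r)` and `(x - w, y - z)`.
* `N = R/(r)` (a cone over a smooth quadric), of dimension `dim R = 3`.
* `M` is the cokernel of `R/(y, w - x^2 + x z) ⊕ R/(x, z - y^2 + y w) ⟶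
  R/(x, y) ⊕ R/(z, w - y - x^2) ⊕ R/(w, z - x - y^2)`, `1 ↦ (z, x + r, x)`, `1 ↦ (w, y, y + r)`.
`M` has the finite free resolution `0 → R^2 → R^7 → R^8 → R^3 → M → 0`
(`Pool.Agent.Helper84.Five`), which stays exact after tensoring with `N`, so `M` and `N` are
Tor-independent; `M ⊗ N` is killed by `r, x^3, y^3, z^3, w^3`, so it has finite length, while the
support of `M` contains the curve `x = y = z = w = 0`, so `dim M ≥ 1`.  Hence
`dim M + dim N > dim R + dim (M ⊗ N)`.
-/

set_option autoImplicit false
open CategoryTheory CategoryTheory.Limits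
open Pool Pool.MP_b9e986_al

namespace Pool.Agent.S02868

/-- The negation of the preceding statement: For nonzero finitely generated modules M, N over a Noetherian local ring R with Tor_i(M,N)=0 for all i>0, dim R/ann M + dim R/ann N = dim R + dim R/ann(M⊗N). -/
theorem result :
    ¬ (∀ (R : Type) [CommRing R] [IsNoetherianRing R] [IsLocalRing R]
      (M N : Type) [AddCommGroup M] [Module R M] [Module.Finite R M]
      [AddCommGroup N] [Module R N] [Module.Finite R N],
      Nontrivial M → Nontrivial N →
      (∀ i : ℕ, 0 < i →
        CategoryTheory.Limits.IsZero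
          (((CategoryTheory.Tor (ModuleCat R) i).obj (ModuleCat.of R M)).obj (ModuleCat.of R N))) →
      ringKrullDim (R ⧸ Module.annihilator R M) + ringKrullDim (R ⧸ Module.annihilator R N)
        = ringKrullDim R + ringKrullDim (R ⧸ Module.annihilator R (TensorProduct R M N))) := by
  intro H
  have h := H Helper84.RR (Helper84.RR ⧸ Ideal.span {Helper84.DD.r}) Helper84.DD.Mod
    Helper84.nontriv1 Helper84.nontriv2 Helper84.RR_tor
  rw [Ideal.annihilator_quotient] at h
  exact Helper84.dim_contra Helper84.RA.dim_eq
    (Helper84.one_le_dim_quot _ _ _ Helper84.cc_prime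
      (Helper84.RA.res_ker_max Helper84.ez_mem).isPrime Helper84.RA.ann_le Helper84.cc_lt)
    (Helper84.dim_quot_le_zero _ _ Helper84.prime_eq) h

end Pool.Agent.S02868
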