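import Pool.Statements.S03355
import Pool.Agent.Helper78.NoGap
-- import your own Pool.Agent.* helpers here

set_option autoImplicit false
open Pool Pool.MP_e4245d_al

namespace Pool.Agent.S03355

/-- There is a bounded-degree graph on ℕ with finite components whose Laplacian has a uniform spectral gap in every *-representation of finite-propagation operators killing ghosts, yet has no spectral gap on ℓ², i.e. is not an expander. -/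
theorem result :
  ∃ G : SimpleGraph ℕ,
    (∃ D : ℕ, ∀ x : ℕ, (G.neighborSet x).Finite ∧ (G.neighborSet x).ncard ≤ D) ∧
    (∀ x : ℕ, {y : ℕ | G.Reachable x y}.Finite) ∧
    ∃ L : lp (fun _ : ℕ => ℂ) 2 →L[ℂ] lp (fun _ : ℕ => ℂ) 2,
      (∀ x : ℕ, inner ℂ (lp.single 2 x (1 : ℂ) : lp (fun _ : ℕ => ℂ) 2)
          (L (lp.single 2 x (1 : ℂ) : lp (fun _ : ℕ => ℂ) 2)) = ((G.neighborSet x).ncard : ℂ)) ∧
      (∀ x y : ℕ, G.Adj x y → inner ℂ (lp.single 2 y (1 : ℂ) : lp (fun _ : ℕ => ℂ) 2)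
          (L (lp.single 2 x (1 : ℂ) : lp (fun _ : ℕ => ℂ) 2)) = -1) ∧
      (∀ x y : ℕ, x ≠ y → ¬ G.Adj x y → inner ℂ (lp.single 2 y (1 : ℂ) : lp (fun _ : ℕ => ℂ) 2)
          (L (lp.single 2 x (1 : ℂ) : lp (fun _ : ℕ => ℂ) 2)) = 0) ∧
      (∀ P Gh : Set (lp (fun _ : ℕ => ℂ) 2 →L[ℂ] lp (fun _ : ℕ => ℂ) 2),
        (∀ T, T ∈ P ↔ ∃ R : ℕ, ∀ x y : ℕ,
            inner ℂ (lp.single 2 y (1 : ℂ) : lp (fun _ : ℕ => ℂ) 2)
              (T (lp.single 2 x (1 : ℂ) : lp (fun _ : ℕ => ℂ) 2)) ≠ 0 →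
            G.edist x y ≤ (R : ℕ∞)) →
        (∀ T, T ∈ Gh ↔ ∀ ε : ℝ, 0 < ε → ∃ F : Finset ℕ, ∀ x y : ℕ, x ∉ F →
            ‖inner ℂ (lp.single 2 y (1 : ℂ) : lp (fun _ : ℕ => ℂ) 2)
              (T (lp.single 2 x (1 : ℂ) : lp (fun _ : ℕ => ℂ) 2))‖ < ε) →
        ∃ c : ℝ, 0 < c ∧
          ∀ (H : Type) [NormedAddCommGroup H] [InnerProductSpace ℂ H] [CompleteSpace H]
            (π : (lp (fun _ : ℕ => ℂ) 2 →L[ℂ] lp (fun _ : ℕ => ℂ) 2) → (H →L[ℂ] H)),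
            (∀ S ∈ P, ∀ T ∈ P, π (S + T) = π S + π T ∧ π (S * T) = π S * π T) →
            (∀ a : ℂ, ∀ T ∈ P, π (a • T) = a • π T) →
            (∀ T ∈ P, π (star T) = star (π T)) →
            (∀ T ∈ P, T ∈ Gh → π T = 0) →
            spectrum ℂ (π L) ⊆ {z : ℂ | z = 0 ∨ (z.im = 0 ∧ c ≤ z.re)}) ∧
      ¬ ∃ c : ℝ, 0 < c ∧ spectrum ℂ L ⊆ {z : ℂ | z = 0 ∨ (z.im = 0 ∧ c ≤ z.re)} := by
  refine ⟨Pool.Agent.Helper78.Gr, ?_, ?_, Pool.Agent.Helper78.LL Pool.Agent.Helper78.ss, ?_, ?_, ?_, ?_, ?_⟩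
  · refine ⟨Fintype.card (Option (Fin 3 × ZMod 5)), fun x => ⟨?_, ?_⟩⟩
    · exact Pool.Agent.Helper78.SG_finite _ _ x
    · exact Pool.Agent.Helper78.SG_ncard_le _ _ x
  · exact Pool.Agent.Helper78.comp_finite
  · intro x
    exact Pool.Agent.Helper78.LL_diag _ _ Pool.Agent.Helper78.ss_free x
  · intro x y h
    exact Pool.Agent.Helper78.LL_adj _ _ Pool.Agent.Helper78.ss_free x y h
  · intro x y hxy h
    exact Pool.Agent.Helper78.LL_nadj _ _ x y hxy h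
  · intro P Gh hP hGh
    refine ⟨1 / 2, by norm_num, ?_⟩
    intro H _ _ _ π h1 h2 h3 h4
    exact Pool.Agent.Helper78.boundary_gap P Gh hP hGh π h1 h2 h3 h4
  · exact Pool.Agent.Helper78.no_gap

end Pool.Agent.S03355
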