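import Pool.Statements.S03947
import Pool.Agent.HBasis.Main
import Pool.Agent.HBasis.Embed
-- import your own Pool.Agent.* helpers here

set_option autoImplicit false
open AddCircle
open Pool Pool.MP_18d5a6_an

namespace Pool.Agent.S03947

/-- There is a sequence in H^1 of the infinite torus (the L^1-closure of analytic polynomials) such that every element is the norm limit of the partial sums of a unique coefficient series in it, i.e. a Schauder basis. -/
theorem result :
    ∃ e : ℕ → MeasureTheory.Lp ℂ 1
        (MeasureTheory.Measure.infinitePi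
          (fun _ : ℕ => (haarAddCircle : MeasureTheory.Measure (AddCircle (1:ℝ))))),
      (∀ k, e k ∈ (Submodule.span ℂ
          {g : MeasureTheory.Lp ℂ 1
              (MeasureTheory.Measure.infinitePi
                (fun _ : ℕ => (haarAddCircle : MeasureTheory.Measure (AddCircle (1:ℝ))))) |
            ∃ ν : ℕ →₀ ℕ,
              (g : (ℕ → AddCircle (1:ℝ)) → ℂ) =ᵐ[MeasureTheory.Measure.infinitePi
                (fun _ : ℕ => (haarAddCircle : MeasureTheory.Measure (AddCircle (1:ℝ))))]
                (fun θ => ∏ j ∈ ν.support, fourier (ν j : ℤ) (θ j))}).topologicalClosure) ∧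
      ∀ x ∈ (Submodule.span ℂ
          {g : MeasureTheory.Lp ℂ 1
              (MeasureTheory.Measure.infinitePi
                (fun _ : ℕ => (haarAddCircle : MeasureTheory.Measure (AddCircle (1:ℝ))))) |
            ∃ ν : ℕ →₀ ℕ,
              (g : (ℕ → AddCircle (1:ℝ)) → ℂ) =ᵐ[MeasureTheory.Measure.infinitePi
                (fun _ : ℕ => (haarAddCircle : MeasureTheory.Measure (AddCircle (1:ℝ))))]
                (fun θ => ∏ j ∈ ν.support, fourier (ν j : ℤ) (θ j))}).topologicalClosure,
        ∃! c : ℕ → ℂ,
          Filter.Tendsto (fun N : ℕ => ∑ k ∈ Finset.range N, c k • e k)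
            Filter.atTop (nhds x) := by
  exact HBasis.main_of_embed HBasis.embed_factor

end Pool.Agent.S03947
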