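import Pool.Statements.S05278
import Pool.Agent.Helper46.Gardner.Fin

set_option autoImplicit false
open MeasureTheory
open Pool Pool.MP_85f3a0_an

namespace Pool.Agent.S05278

/-- The negation of the preceding statement: If bounded Lebesgue measurable sets A, B in ℝⁿ are finitely equidecomposable using isometries from a (discretely) amenable group G, then they are equidecomposable with Lebesgue measurable pieces and some isometries of ℝⁿ. -/
theorem result :
    ¬ (∀ (n : ℕ)
      (G : Subgroup (EuclideanSpace ℝ (Fin n) ≃ᵢ EuclideanSpace ℝ (Fin n)))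
      (A B : Set (EuclideanSpace ℝ (Fin n))),
      Bornology.IsBounded A → Bornology.IsBounded B →
      NullMeasurableSet A volume → NullMeasurableSet B volume →
      (∃ m : Set G → ℝ, (∀ S, 0 ≤ m S) ∧ m Set.univ = 1 ∧
          (∀ S T : Set G, Disjoint S T → m (S ∪ T) = m S + m T) ∧
          (∀ (g : G) (S : Set G), m ((fun h => g * h) '' S) = m S)) →
      (∃ k : ℕ, ∃ P : Fin k → Set (EuclideanSpace ℝ (Fin n)),
        ∃ g : Fin k → (EuclideanSpace ℝ (Fin n) ≃ᵢ EuclideanSpace ℝ (Fin n)),
          (∀ i, g i ∈ G) ∧ (⋃ i, P i) = A ∧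
          Pairwise (fun i j => Disjoint (P i) (P j)) ∧
          (⋃ i, (⇑(g i)) '' (P i)) = B ∧
          Pairwise (fun i j => Disjoint ((⇑(g i)) '' (P i)) ((⇑(g j)) '' (P j)))) →
      (∃ k : ℕ, ∃ P : Fin k → Set (EuclideanSpace ℝ (Fin n)),
        ∃ g : Fin k → (EuclideanSpace ℝ (Fin n) ≃ᵢ EuclideanSpace ℝ (Fin n)),
          (∀ i, NullMeasurableSet (P i) volume) ∧ (⋃ i, P i) = A ∧
          Pairwise (fun i j => Disjoint (P i) (P j)) ∧
          (⋃ i, (⇑(g i)) '' (P i)) = B ∧
          Pairwise (fun i j => Disjoint ((⇑(g i)) '' (P i)) ((⇑(g j)) '' (P j))))) := by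
  intro h
  have h2 : Pool.Agent.Helper46.Gardner.Stmt (EuclideanSpace ℝ (Fin 2)) := h 2
  exact Pool.Agent.Helper46.Gardner.not_Stmt_C
    (Pool.Agent.Helper46.Gardner.Stmt_transfer Complex.orthonormalBasisOneI.repr.toIsometryEquiv
      (LinearIsometryEquiv.measurePreserving _)
      (LinearIsometryEquiv.measurePreserving Complex.orthonormalBasisOneI.repr.symm) h2)

end Pool.Agent.S05278
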