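import Pool.Statements.S05922
import Pool.Agent.Helper42.UnionFinal

set_option autoImplicit false
open Pool Pool.MP_b97ffe_an

namespace Pool.Agent.S05922

/-- The negation of the preceding statement: For any metric space and subsets A, B: if A and B each bi-Lipschitz embed into some L1(μ) space, then their union A ∪ B also bi-Lipschitz embeds into some L1(μ) space. -/
theorem result :
    ¬ (∀ (X : Type) [MetricSpace X] (A B : Set X),
      (∃ (Ω : Type) (_ : MeasurableSpace Ω) (μ : MeasureTheory.Measure Ω)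
          (f : A → MeasureTheory.Lp ℝ 1 μ) (c C : ℝ), 0 < c ∧
          ∀ x y : A, c * dist x y ≤ dist (f x) (f y) ∧ dist (f x) (f y) ≤ C * dist x y) →
      (∃ (Ω : Type) (_ : MeasurableSpace Ω) (μ : MeasureTheory.Measure Ω)
          (f : B → MeasureTheory.Lp ℝ 1 μ) (c C : ℝ), 0 < c ∧
          ∀ x y : B, c * dist x y ≤ dist (f x) (f y) ∧ dist (f x) (f y) ≤ C * dist x y) →
      (∃ (Ω : Type) (_ : MeasurableSpace Ω) (μ : MeasureTheory.Measure Ω)
          (f : ↥(A ∪ B) → MeasureTheory.Lp ℝ 1 μ) (c C : ℝ), 0 < c ∧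
          ∀ x y : ↥(A ∪ B), c * dist x y ≤ dist (f x) (f y) ∧ dist (f x) (f y) ≤ C * dist x y)) := by
  exact Pool.Agent.Helper42.UnionL1.main_neg

end Pool.Agent.S05922
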