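import Pool.Statements.S06346

set_option autoImplicit false

open Filter Topology
open scoped ENNReal

namespace Pool.Agent.Helper48.FStarS

/-- `X` is the set of reals with one extra point `none`. -/
abbrev X : Type := Option ℝ

/-- self maps of `X` that are constant, or fix `none` and are injective off the preimage of `none` -/
def Good (s : X → X) : Prop :=
  (∃ x, ∀ y, s y = x) ∨ (s none = none ∧ ∀ x y, s x = s y → s x ≠ none → x = y)

/-- the semigroup: constants together with partial injections of the reals -/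
def S : Type := {s : X → X // Good s}

theorem good_comp {s t : X → X} (hs : Good s) (ht : Good t) : Good (s ∘ t) := by
  rcases ht with ⟨x, hx⟩ | ⟨h0, h1⟩
  · exact Or.inl ⟨s x, fun y => by simp [hx y]⟩
  · rcases hs with ⟨x, hx⟩ | ⟨h0', h1'⟩
    · exact Or.inl ⟨x, fun y => by simp [hx]⟩
    · refine Or.inr ⟨by simp [h0, h0'], fun x y hxy hne => ?_⟩
      have h2 : t x = t y := h1' _ _ hxy hne
      refine h1 _ _ h2 ?_
      intro h3
      apply hne
      simp [h3, h0']

instance : Semigroup S where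
  mul s t := ⟨s.1 ∘ t.1, good_comp s.2 t.2⟩
  mul_assoc s t u := by
    apply Subtype.ext
    rfl

/-- the constant map -/
def c (x : X) : S := ⟨fun _ => x, Or.inl ⟨x, fun _ => rfl⟩⟩

instance : Nonempty S := ⟨c none⟩

theorem mul_apply (s t : S) (x : X) : (s * t).1 x = s.1 (t.1 x) := rfl

theorem c_mul (x : X) (s : S) : c x * s = c x := rfl

theorem mul_c (x : X) (s : S) : s * c x = c (s.1 x) := by
  apply Subtype.ext
  rfl

/-- the matrix unit -/
noncomputable def e (x y : ℝ) : S := by
  classical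
  exact ⟨fun z => if z = some x then some y else none, by
    refine Or.inr ⟨by simp, ?_⟩
    intro z w hzw hz
    by_cases h1 : z = some x
    · by_cases h2 : w = some x
      · rw [h1, h2]
      · simp [h1, h2] at hzw
    · simp [h1] at hz⟩

theorem e_apply_self (x y : ℝ) : (e x y).1 (some x) = some y := by
  simp [e]

theorem e_apply_ne (x y : ℝ) {z : X} (h : z ≠ some x) : (e x y).1 z = none := by
  simp [e, h]

/-- Every action of `S` by nonexpansive maps on a separable set has a common fixed point. -/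
theorem fixedPoint (E : Type) [NormedAddCommGroup E] [NormedSpace ℝ E]
    (C : Set (WeakDual ℝ E)) (T : S → WeakDual ℝ E → WeakDual ℝ E)
    (hne : C.Nonempty)
    (hsep : ∃ D : Set (WeakDual ℝ E), D.Countable ∧ D ⊆ C ∧
          ∀ x ∈ C, ∀ ε : ℝ, 0 < ε → ∃ d ∈ D, ∀ e : E, |x e - d e| ≤ ε * ‖e‖)
    (hmaps : ∀ s : S, Set.MapsTo (T s) C C)
    (hmul : ∀ s t : S, ∀ x ∈ C, T (s * t) x = T s (T t x))
    (hnonexp : ∀ s : S, ∀ x ∈ C, ∀ y ∈ C, ∀ r : ℝ,
          (∀ e : E, |x e - y e| ≤ r * ‖e‖) →
          ∀ e : E, |T s x e - T s y e| ≤ r * ‖e‖) :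
    ∃ x ∈ C, ∀ s : S, T s x = x := by
  obtain ⟨p, hp⟩ := hne
  obtain ⟨D, hDc, hDC, hD⟩ := hsep
  set q : X → WeakDual ℝ E := fun x => T (c x) p with hq
  have hqC : ∀ x, q x ∈ C := fun x => hmaps _ hp
  have hTq : ∀ s : S, ∀ x, T s (q x) = q (s.1 x) := by
    intro s x
    simp only [hq]
    rw [← hmul s (c x) p hp, mul_c]
  have key : ∀ z : ℝ, ∀ ε : ℝ, 0 < ε → ∀ v : E, |q (some z) v - q none v| ≤ (2 * ε) * ‖v‖ := by
    intro z ε hε
    choose d hdD hd using fun x : ℝ => hD (q (some x)) (hqC _) ε hε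
    have hpig : ∃ x y : ℝ, x ≠ y ∧ d x = d y := by
      by_contra hcon
      push Not at hcon
      have hinj : Function.Injective (fun x : ℝ => (⟨d x, hdD x⟩ : D)) := by
        intro x y hxy
        by_contra hne
        exact hcon x y hne (congrArg Subtype.val hxy)
      have : Countable D := hDc.to_subtype
      have hcR : Countable ℝ := hinj.countable
      exact not_countable (α := ℝ) hcR
    obtain ⟨x, y, hxy, hdxy⟩ := hpig
    have h1 : ∀ v : E, |q (some x) v - q (some y) v| ≤ (2 * ε) * ‖v‖ := by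
      intro v
      have h2 := hd x v
      have h3 := hd y v
      rw [hdxy] at h2
      have h4 : q (some x) v - q (some y) v
          = (q (some x) v - d y v) - (q (some y) v - d y v) := by ring
      rw [h4]
      calc |(q (some x) v - d y v) - (q (some y) v - d y v)|
          ≤ |q (some x) v - d y v| + |q (some y) v - d y v| := abs_sub _ _
        _ ≤ ε * ‖v‖ + ε * ‖v‖ := add_le_add h2 h3
        _ = (2 * ε) * ‖v‖ := by ring
    have h5 := hnonexp (e x z) (q (some x)) (hqC _) (q (some y)) (hqC _) (2 * ε) h1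
    rw [hTq, hTq, e_apply_self, e_apply_ne] at h5
    · exact h5
    · intro h
      exact hxy (Option.some.inj h).symm
  have hall : ∀ x : X, q x = q none := by
    intro x
    rcases x with _ | z
    · rfl
    · apply DFunLike.ext
      intro v
      have h6 : ∀ ε : ℝ, 0 < ε → |q (some z) v - q none v| ≤ ε := by
        intro ε hε
        have hv : 0 < 2 * (‖v‖ + 1) := by positivity
        have h7 := key z (ε / (2 * (‖v‖ + 1))) (by positivity) v
        refine h7.trans ?_
        have : 2 * (ε / (2 * (‖v‖ + 1))) * ‖v‖ = ε * (‖v‖ / (‖v‖ + 1)) := by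
          field_simp
        rw [this]
        have h8 : ‖v‖ / (‖v‖ + 1) ≤ 1 := by
          rw [div_le_one (by positivity)]
          linarith
        nlinarith
      have h9 : |q (some z) v - q none v| ≤ 0 := le_of_forall_pos_le_add (fun ε hε => by
        simpa using h6 ε hε)
      have := abs_nonpos_iff.mp h9
      linarith
  refine ⟨q none, hqC _, fun s => ?_⟩
  rw [hTq, hall]

/-- the indicator of the set of `t` sending the point `0` to the point `y` -/
noncomputable def phiFun (y : ℝ) (t : S) : ℝ := by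
  classical
  exact if t.1 (some 0) = some y then 1 else 0

theorem phiFun_mem (a : Finset ℝ) (w : ℝ → ℝ) (hw : ∀ y, |w y| ≤ 1) (t : S) :
    |∑ y ∈ a, w y * phiFun y t| ≤ 1 := by
  classical
  by_cases h : ∃ y ∈ a, t.1 (some 0) = some y
  · obtain ⟨y, hy, hty⟩ := h
    rw [Finset.sum_eq_single_of_mem y hy]
    · simp [phiFun, hty, hw y]
    · intro z _ hzy
      have : ¬ (t.1 (some 0) = some z) := by
        rw [hty]
        intro h
        exact hzy (Option.some.inj h).symm
      simp [phiFun, this]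
  · push Not at h
    rw [Finset.sum_eq_zero]
    · simp
    · intro z hz
      simp [phiFun, h z hz]

theorem phiFun_memlp (y : ℝ) : Memℓp (phiFun y) ∞ := by
  apply memℓp_infty
  refine ⟨1, ?_⟩
  rintro _ ⟨t, rfl⟩
  have := phiFun_mem {y} (fun _ => 1) (by simp) t
  simpa using this

/-- the indicator as an element of the space of bounded functions -/
noncomputable def phi (y : ℝ) : lp (fun _ : S => ℝ) ⊤ := ⟨phiFun y, phiFun_memlp y⟩

theorem phi_apply (y : ℝ) (t : S) : phi y t = phiFun y t := rfl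

theorem sum_phi_apply (a : Finset ℝ) (w : ℝ → ℝ) (t : S) :
    (∑ y ∈ a, w y • phi y : lp (fun _ : S => ℝ) ⊤) t = ∑ y ∈ a, w y * phiFun y t := by
  rw [lp.coeFn_sum]
  simp [phi_apply]

theorem norm_sum_phi (a : Finset ℝ) (w : ℝ → ℝ) (hw : ∀ y, |w y| ≤ 1) :
    ‖(∑ y ∈ a, w y • phi y : lp (fun _ : S => ℝ) ⊤)‖ ≤ 1 := by
  apply lp.norm_le_of_forall_le zero_le_one
  intro t
  rw [sum_phi_apply]
  exact phiFun_mem a w hw t

theorem tendsto_eval (l : lp (fun _ : S => ℝ) ⊤ →L[ℝ] ℝ) :
    Tendsto (fun y => l (phi y)) cofinite (𝓝 0) := by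
  have h1 : ∀ a : Finset ℝ, ∑ y ∈ a, |l (phi y)| ≤ ‖l‖ := by
    intro a
    set w : ℝ → ℝ := fun y => SignType.sign (l (phi y)) with hw
    have hw1 : ∀ y, |w y| ≤ 1 := by
      intro y
      simp only [hw]
      rcases lt_trichotomy (l (phi y)) 0 with h | h | h
      · simp [sign_neg h]
      · simp [h]
      · simp [sign_pos h]
    have h2 : ∑ y ∈ a, |l (phi y)| = l (∑ y ∈ a, w y • phi y) := by
      rw [map_sum]
      refine Finset.sum_congr rfl fun y _ => ?_
      rw [map_smul, smul_eq_mul]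
      simp only [hw]
      exact (sign_mul_self (l (phi y))).symm
    rw [h2]
    calc l (∑ y ∈ a, w y • phi y) ≤ ‖l (∑ y ∈ a, w y • phi y)‖ := le_abs_self _
      _ ≤ ‖l‖ * ‖(∑ y ∈ a, w y • phi y : lp (fun _ : S => ℝ) ⊤)‖ := l.le_opNorm _
      _ ≤ ‖l‖ * 1 := by gcongr; exact norm_sum_phi a w hw1
      _ = ‖l‖ := mul_one _
  have h3 : Summable (fun y => |l (phi y)|) :=
    summable_of_sum_le (fun y => abs_nonneg _) h1
  have h4 := h3.tendsto_cofinite_zero
  exact (tendsto_zero_iff_abs_tendsto_zero _).mpr h4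

theorem tendsto_phi :
    Tendsto (fun y => toWeakSpace ℝ (lp (fun _ : S => ℝ) ⊤) (phi y)) cofinite (𝓝 0) := by
  have h0 : ∀ l : StrongDual ℝ (lp (fun _ : S => ℝ) ⊤),
      Tendsto (fun y => (topDualPairing ℝ (lp (fun _ : S => ℝ) ⊤)).flip (phi y) l)
        cofinite (𝓝 ((topDualPairing ℝ (lp (fun _ : S => ℝ) ⊤)).flip 0 l)) := by
    intro l
    have h := tendsto_eval l
    simpa using h
  have h1 : Tendsto (fun y => (fun l => (topDualPairing ℝ (lp (fun _ : S => ℝ) ⊤)).flip (phi y) l :
      StrongDual ℝ (lp (fun _ : S => ℝ) ⊤) → ℝ))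
      cofinite (𝓝 (fun l => (topDualPairing ℝ (lp (fun _ : S => ℝ) ⊤)).flip 0 l)) :=
    tendsto_pi_nhds.mpr h0
  have h2 : Topology.IsInducing (fun (x : WeakBilin (topDualPairing ℝ (lp (fun _ : S => ℝ) ⊤)).flip) y
      => (topDualPairing ℝ (lp (fun _ : S => ℝ) ⊤)).flip x y) := ⟨rfl⟩
  exact (h2.tendsto_nhds_iff (f := fun y => toWeakSpace ℝ (lp (fun _ : S => ℝ) ⊤) (phi y))).mpr h1

theorem isCompact_K :
    IsCompact ((insert 0 (Set.range
      (fun y => toWeakSpace ℝ (lp (fun _ : S => ℝ) ⊤) (phi y)))) ∪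
      {toWeakSpace ℝ (lp (fun _ : S => ℝ) ⊤) 1}) :=
  (tendsto_phi.isCompact_insert_range_of_cofinite).union isCompact_singleton

theorem orbit_mem (g : lp (fun _ : S => ℝ) ⊤) (s : S) (hg : ∀ t : S, g t = phi 0 (s * t)) :
    toWeakSpace ℝ (lp (fun _ : S => ℝ) ⊤) g ∈ (insert 0 (Set.range
      (fun y => toWeakSpace ℝ (lp (fun _ : S => ℝ) ⊤) (phi y)))) ∪
      {toWeakSpace ℝ (lp (fun _ : S => ℝ) ⊤) 1} := by
  classical
  rcases s.2 with ⟨x, hx⟩ | ⟨h0, h1⟩
  · by_cases hx0 : x = some 0
    · right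
      have : g = 1 := by
        apply lp.ext
        funext t
        rw [hg t]
        simp [phi_apply, phiFun, mul_apply, hx, hx0]
      rw [this]
      rfl
    · left; left
      have : g = 0 := by
        apply lp.ext
        funext t
        rw [hg t]
        simp [phi_apply, phiFun, mul_apply, hx, hx0]
      rw [this]
      simp
  · left
    by_cases hy : ∃ y : ℝ, s.1 (some y) = some 0
    · right
      obtain ⟨y, hy⟩ := hy
      refine ⟨y, ?_⟩
      have : g = phi y := by
        apply lp.ext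
        funext t
        rw [hg t]
        simp only [phi_apply, phiFun, mul_apply]
        by_cases h2 : t.1 (some 0) = some y
        · simp [h2, hy]
        · have h3 : ¬ (s.1 (t.1 (some 0)) = some 0) := by
            intro h4
            apply h2
            apply h1 _ _ (h4.trans hy.symm)
            rw [h4]
            simp
          simp [h2, h3]
      rw [this]
    · left
      push Not at hy
      have : g = 0 := by
        apply lp.ext
        funext t
        rw [hg t]
        simp only [phi_apply, phiFun, mul_apply]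
        have h3 : ¬ (s.1 (t.1 (some 0)) = some 0) := by
          intro h4
          rcases h5 : t.1 (some 0) with _ | z
          · rw [h5, h0] at h4
            simp at h4
          · rw [h5] at h4
            exact hy z h4
        simp [h3]
      rw [this]
      simp

theorem phi_c_zero : phi 0 (c (some 0)) = 1 := by
  rw [phi_apply]
  simp [phiFun, c]

theorem phi_c_none : phi 0 (c none) = 0 := by
  rw [phi_apply]
  simp [phiFun, c]

end Pool.Agent.Helper48.FStarS

open Pool Pool.MP_d890fe_an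

namespace Pool.Agent.S06346

/-- The negation of the preceding statement: For every nonempty semigroup S: if every nonexpansive, weak*-continuous action of S on a nonempty norm-separable weak*-compact convex set in a Banach dual has a common fixed point, then the weakly almost periodic functions on S have a left invariant mean. -/
theorem result :
    ¬ (∀ (S : Type) [Semigroup S] [Nonempty S],
    (∀ (E : Type) [NormedAddCommGroup E] [NormedSpace ℝ E] [CompleteSpace E]
       (C : Set (WeakDual ℝ E)) (T : S → WeakDual ℝ E → WeakDual ℝ E),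
       C.Nonempty → Convex ℝ C → IsCompact C →
       (∃ D : Set (WeakDual ℝ E), D.Countable ∧ D ⊆ C ∧
          ∀ x ∈ C, ∀ ε : ℝ, 0 < ε → ∃ d ∈ D, ∀ e : E, |x e - d e| ≤ ε * ‖e‖) →
       (∀ s : S, Set.MapsTo (T s) C C) →
       (∀ s t : S, ∀ x ∈ C, T (s * t) x = T s (T t x)) →
       (∀ s : S, ∀ x ∈ C, ∀ y ∈ C, ∀ r : ℝ,
          (∀ e : E, |x e - y e| ≤ r * ‖e‖) →
          ∀ e : E, |T s x e - T s y e| ≤ r * ‖e‖) →
       (∀ s : S, ContinuousOn (T s) C) →
       ∃ x ∈ C, ∀ s : S, T s x = x) →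
    ∃ m : lp (fun _ : S => ℝ) ⊤ →L[ℝ] ℝ,
      m 1 = 1 ∧
      (∀ g : lp (fun _ : S => ℝ) ⊤, (∀ t : S, 0 ≤ g t) → 0 ≤ m g) ∧
      ∀ f : lp (fun _ : S => ℝ) ⊤,
        (∃ K : Set (WeakSpace ℝ (lp (fun _ : S => ℝ) ⊤)), IsCompact K ∧
          ∀ g : lp (fun _ : S => ℝ) ⊤, (∃ s : S, ∀ t : S, g t = f (s * t)) →
            toWeakSpace ℝ (lp (fun _ : S => ℝ) ⊤) g ∈ K) →
        ∀ s : S, ∀ g : lp (fun _ : S => ℝ) ⊤, (∀ t : S, g t = f (s * t)) → m g = m f) := by
  intro H
  obtain ⟨m, hm1, -, hm⟩ := H Pool.Agent.Helper48.FStarS.S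
    (fun E _ _ _ C T hne _ _ hsep hmaps hmul hnonexp _ =>
      Pool.Agent.Helper48.FStarS.fixedPoint E C T hne hsep hmaps hmul hnonexp)
  have h := hm (Pool.Agent.Helper48.FStarS.phi 0)
    ⟨_, Pool.Agent.Helper48.FStarS.isCompact_K, fun g hg => by
      obtain ⟨s, hs⟩ := hg
      exact Pool.Agent.Helper48.FStarS.orbit_mem g s hs⟩
  have h1 := h (Pool.Agent.Helper48.FStarS.c (some 0)) 1 (fun t => by
    rw [Pool.Agent.Helper48.FStarS.c_mul, Pool.Agent.Helper48.FStarS.phi_c_zero]
    rfl)
  have h2 := h (Pool.Agent.Helper48.FStarS.c none) 0 (fun t => by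
    rw [Pool.Agent.Helper48.FStarS.c_mul, Pool.Agent.Helper48.FStarS.phi_c_none]
    rfl)
  rw [map_zero] at h2
  rw [← h2] at h1
  rw [hm1] at h1
  exact one_ne_zero h1

end Pool.Agent.S06346
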