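import Pool.Statements.S07703
import Pool.Agent.Helper30.Rep

set_option autoImplicit false
open Pool Pool.MP_253944_co

namespace Pool.Agent.S07703

/-- For 1≤k≤n−1, the S_{2n}-character of the top homology of partitions of [2n] with 2,4,…,2k blocks, computed as a signed count of σ-fixed chains, is a nonnegative integer combination of Young permutation characters (h-positivity). -/
theorem result :
    ∀ n k : ℕ, 1 ≤ k → k ≤ n - 1 →
      ∃ c : Nat.Partition (2 * n) → ℕ,
        ∀ σ : Equiv.Perm (Fin (2 * n)),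
          (∑ᶠ (C : Finset (Setoid (Fin (2 * n))))
              (_ : IsChain (· ≤ ·) (C : Set (Setoid (Fin (2 * n)))) ∧
                   (∀ r ∈ C, ∃ j : ℕ, 1 ≤ j ∧ j ≤ k ∧ Nat.card (Quotient r) = 2 * j) ∧
                   (∀ r ∈ C, Setoid.comap (⇑σ) r ∈ C)),
              (-1 : ℤ) ^ (k + C.card))
          = ∑ μ : Nat.Partition (2 * n), (c μ : ℤ) *
              (Nat.card {f : Fin (2 * n) → Fin μ.parts.toList.length //
                 (∀ x, f (σ x) = f x) ∧
                 ∀ i, (Finset.univ.filter (fun x => f x = i)).card = μ.parts.toList.get i} : ℤ) := by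
  intro n k hk hkn
  obtain ⟨c, hc⟩ := Pool.Agent.Helper30.EvenBlock.Rep.chi (n := n) (by omega) k
  refine ⟨c, fun σ => ?_⟩
  rw [Pool.Agent.Helper30.EvenBlock.finsum_eq_chi k σ]
  exact hc σ

end Pool.Agent.S07703
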