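import Pool.Statements.S08039
import Pool.Agent.ThreeDec.Final

set_option autoImplicit false
open Pool Pool.MP_34c651_co

namespace Pool.Agent.S08039

/-- Every finite connected 3-regular simple graph has a spanning tree T such that the leftover edges G − E(T) form a graph whose components are single vertices, single edges, or cycles. -/
theorem result :
    ∀ (V : Type) [Fintype V] [DecidableEq V] (G : SimpleGraph V) [DecidableRel G.Adj],
      G.IsRegularOfDegree 3 → G.Connected →
      ∃ T : SimpleGraph V, T ≤ G ∧ T.IsTree ∧
        (∀ v : V, ((G \ T).neighborSet v).ncard ≤ 2) ∧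
        (∀ v w : V, (G \ T).Adj v w → ((G \ T).neighborSet v).ncard = 1 →
          ((G \ T).neighborSet w).ncard = 1) := by
  intro V _ _ G _ h3 hc
  exact Pool.Agent.ThreeDec.final V G h3 hc

end Pool.Agent.S08039
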