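import Pool.Statements.S08311
import Pool.Agent.Helper35.BryEnd

set_option autoImplicit false
open Pool Pool.MP_3f7cc7_co

namespace Pool.Agent.S08311

/-- For any finite field F, take finitely many nonzero vectors over F whose matroid is a gammoid, meaning a transversal matroid contracted by an independent set. Then some linear map to F^2 sends none of them to zero, i.e. the critical exponent is at most 2. -/
theorem result :
    ∀ (F : Type) [Field F] [Fintype F] (N r : ℕ) (v : Fin N → (Fin r → F)),
      (∀ i, v i ≠ 0) →
      (∃ (K m : ℕ) (R : Fin N ⊕ Fin K → Fin m → Prop),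
        ∀ S : Finset (Fin N),
          LinearIndependent F (fun i : S => v i.1) ↔
            ∃ f : Fin N ⊕ Fin K → Fin m,
              Set.InjOn f ((Sum.inl '' (S : Set (Fin N))) ∪ Set.range Sum.inr) ∧
              ∀ x ∈ ((Sum.inl '' (S : Set (Fin N))) ∪ Set.range Sum.inr), R x (f x)) →
      ∃ L : (Fin r → F) →ₗ[F] (Fin 2 → F), ∀ i, L (v i) ≠ 0 := by
  intro F _ _ N r v hv h
  exact Pool.Agent.Helper35.BryLin.brylawski F N r v hv h

end Pool.Agent.S08311
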