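import Pool.Statements.S08325
import Pool.Agent.Helper27.MC.FINA
import Pool.Agent.Helper27.MC.GJ

set_option autoImplicit false
open Pool Pool.MP_4042d8_co

namespace Pool.Agent.S08325

/-- Every finite simple 3-regular graph has a vertex set B containing exactly half the vertices such that the subgraph induced on B is isomorphic to the subgraph induced on the complement of B. -/
theorem result :
    ∀ (V : Type) [Fintype V] [DecidableEq V] (G : SimpleGraph V) [DecidableRel G.Adj],
      G.IsRegularOfDegree 3 →
        ∃ B : Finset V,
          2 * B.card = Fintype.card V ∧
            Nonempty (SimpleGraph.Iso (G.induce (↑B : Set V)) (G.induce ((↑B : Set V)ᶜ))) := by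
  intro V _ _ G _ hG
  exact Pool.Agent.Helper27.MC.ando Pool.Agent.Helper27.GST.st_GJ V G hG

end Pool.Agent.S08325
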