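import Pool.Statements.S08945
import Pool.Agent.Helper31.RpcMain

set_option autoImplicit false
open Pool Pool.MP_5aeb54_co

namespace Pool.Agent.S08945

open Pool.Agent.Helper31.Rpc in
lemma aux (n : ℕ) [Nonempty (Fin n)] (G : SimpleGraph (Fin n)) (col : Sym2 (Fin n) → ℕ)
    (h : ∀ e ∈ G.edgeSet, ∀ f ∈ G.edgeSet, e ≠ f →
            (∃ v : Fin n, v ∈ e ∧ v ∈ f) → col e ≠ col f) :
    ∃ k : ℕ, (k : ℝ) ≤ 20000000 * (n : ℝ) ∧
          ∃ u w : Fin k → Fin n, ∃ p : ∀ i : Fin k, G.Walk (u i) (w i),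
            (∀ i : Fin k, (p i).IsPath ∧ ((p i).edges.map col).Nodup) ∧
            ∀ e ∈ G.edgeSet, ∃ i : Fin k, e ∈ (p i).edges := by
  classical
  set q : ℕ := Finset.univ.sup col with hq
  set col' : Sym2 (Fin n) → Fin (q + 1) := fun e =>
    ⟨col e, Nat.lt_succ_of_le (Finset.le_sup (Finset.mem_univ e))⟩ with hcol'
  have hP : Proper G col' := by
    intro x y z hxy hxz hyz hc
    refine h s(x, y) hxy s(x, z) hxz ?_ ⟨x, Sym2.mem_mk_left x y, Sym2.mem_mk_left x z⟩ ?_
    · intro he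
      exact hyz (Sym2.congr_right.1 he)
    · have := congrArg Fin.val hc
      simpa [hcol'] using this
  obtain ⟨l, h1, h2, h3⟩ := cover hP (Finset.univ.filter fun e => e ∈ G.edgeSet)
    (fun e he => (Finset.mem_filter.1 he).2)
  have h4 : ∀ i : Fin l.length, ∃ (z : Fin n) (Q : GPath G col' z), l.get i = Q.p.edges.toFinset :=
    fun i => h1 _ (List.get_mem l i)
  choose z Q hQ using h4
  refine ⟨l.length, ?_, z, fun i => (Q i).b, fun i => (Q i).p, ?_, ?_⟩
  · simpa using h2
  · intro i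
    refine ⟨good_isPath col' _ (Q i).good, ?_⟩
    have h5 := good_colors col' _ (Q i).good
    have h6 : (Q i).p.edges.map col = ((Q i).p.edges.map col').map Fin.val := by
      rw [List.map_map]
      rfl
    rw [h6]
    exact h5.map Fin.val_injective
  · intro e he
    obtain ⟨P, hP1, hP2⟩ := h3 e (Finset.mem_filter.2 ⟨Finset.mem_univ _, he⟩)
    obtain ⟨i, hi⟩ := List.get_of_mem hP1
    refine ⟨i, ?_⟩
    rw [← hi, hQ i] at hP2
    exact List.mem_toFinset.1 hP2

/-- There is a constant c>0 such that for every n, every graph on n vertices with a proper edge-colouring has its edges covered by at most c·n paths, each using pairwise distinct colours. -/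
theorem result :
    ∃ c : ℝ, 0 < c ∧
      ∀ n : ℕ, ∀ G : SimpleGraph (Fin n), ∀ col : Sym2 (Fin n) → ℕ,
        (∀ e ∈ G.edgeSet, ∀ f ∈ G.edgeSet, e ≠ f →
            (∃ v : Fin n, v ∈ e ∧ v ∈ f) → col e ≠ col f) →
        ∃ k : ℕ, (k : ℝ) ≤ c * (n : ℝ) ∧
          ∃ u w : Fin k → Fin n, ∃ p : ∀ i : Fin k, G.Walk (u i) (w i),
            (∀ i : Fin k, (p i).IsPath ∧ ((p i).edges.map col).Nodup) ∧
            ∀ e ∈ G.edgeSet, ∃ i : Fin k, e ∈ (p i).edges := by
  refine ⟨20000000, by norm_num, ?_⟩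
  intro n G col h
  rcases n with _ | n
  · refine ⟨0, by simp, fun i => i.elim0, fun i => i.elim0, fun i => i.elim0, fun i => i.elim0, ?_⟩
    intro e
    induction e using Sym2.ind with
    | _ a b => exact a.elim0
  · exact aux (n + 1) G col h

end Pool.Agent.S08945
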