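import Pool.Statements.S09131
import Pool.Agent.Helper31.KkMain
import Pool.Agent.Helper31.KkFinal

set_option autoImplicit false
open Pool Pool.MP_61873f_co

namespace Pool.Agent.S09131

/-- For every L>0 there are L'>0 and δ>0 such that any nonempty A in {0,1}^n with density α≤1/2 and edge boundary at most L∣A∣log₂(1/α) has a subcube of measure at least α^{L'} on which A has density at least (1+δ)α. -/
theorem result :
    ∀ L : ℝ, 0 < L → ∃ L' : ℝ, 0 < L' ∧ ∃ δ : ℝ, 0 < δ ∧
      ∀ n : ℕ, ∀ A : Finset (Fin n → Bool), A.Nonempty →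
        (A.card : ℝ) / 2 ^ n ≤ 1 / 2 →
        (((A ×ˢ (Finset.univ : Finset (Fin n))).filter
            (fun p => Function.update p.1 p.2 (!(p.1 p.2)) ∉ A)).card : ℝ)
          ≤ L * (A.card : ℝ) * Real.logb 2 ((2 : ℝ) ^ n / (A.card : ℝ)) →
        ∃ S : Finset (Fin n), ∃ c : Fin n → Bool,
          ((A.card : ℝ) / 2 ^ n) ^ L' ≤ (1 / 2 : ℝ) ^ S.card ∧
          (1 + δ) * ((A.card : ℝ) / 2 ^ n) ≤
            ((A.filter (fun x => ∀ i ∈ S, x i = c i)).card : ℝ) /
              ((Finset.univ.filter (fun x : Fin n → Bool => ∀ i ∈ S, x i = c i)).card : ℝ) :=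
  Pool.Agent.Helper31.Kk.bridge Pool.Agent.Helper31.Kk.main_valid

end Pool.Agent.S09131
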