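import Pool.Statements.S09180
import Pool.Agent.LC.Inst
import Pool.Agent.LC.Steps
import Pool.Agent.LC.Walk1
import Pool.Agent.LC.Walk2
import Pool.Agent.LC.DPAbs
import Pool.Agent.LC.NumSound
import Pool.Agent.LC.BlowUp
import Pool.Agent.LC.BlowLow
import Pool.Agent.LC.BlowChord
import Pool.Agent.LC.BlowConn

set_option autoImplicit false
open Pool Pool.MP_6323aa_co

namespace Pool.Agent.S09180

/-- The negation of the preceding statement: Every finite graph that is 2-connected (at least 3 vertices, no cut vertex) and chordal (every cycle of length at least 4 has a chord) has a vertex lying on all of its longest cycles. -/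
theorem result :
    ¬ (∀ (V : Type) [Fintype V] (G : SimpleGraph V),
      3 ≤ Fintype.card V →
      G.Connected →
      (∀ v : V, (G.induce ({v}ᶜ : Set V)).Connected) →
      (∀ (u : V) (c : G.Walk u u), c.IsCycle → 4 ≤ c.length →
        ∃ x ∈ c.support, ∃ y ∈ c.support, G.Adj x y ∧ s(x, y) ∉ c.edges) →
      ∃ v : V, ∀ (u : V) (c : G.Walk u u), c.IsCycle →
        (∀ (w : V) (d : G.Walk w w), d.IsCycle → d.length ≤ c.length) →
        v ∈ c.support) := by
  intro h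
  open Pool.Agent.LC in
  have hcard : 3 ≤ Fintype.card (BV 44 N0.w) := by
    have h1 : Fintype.card (Fin 44) ≤ Fintype.card (BV 44 N0.w) :=
      Fintype.card_le_of_injective Sum.inl Sum.inl_injective
    rw [Fintype.card_fin] at h1
    omega
  have hconn := Pool.Agent.LC.blow_conn 44 Pool.Agent.LC.N0.w Pool.Agent.LC.w0_symm (by norm_num)
    (by decide +kernel) Pool.Agent.LC.two0
  obtain ⟨v, hv⟩ := h (Pool.Agent.LC.BV 44 Pool.Agent.LC.N0.w)
    (Pool.Agent.LC.BG 44 Pool.Agent.LC.N0.w Pool.Agent.LC.w0_symm) hcard hconn.1 hconn.2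
    (Pool.Agent.LC.blow_chordal 44 Pool.Agent.LC.N0.w Pool.Agent.LC.w0_symm Pool.Agent.LC.peo0)
  -- upper bound
  have hup : ∀ (u : Pool.Agent.LC.BV 44 Pool.Agent.LC.N0.w)
      (d : (Pool.Agent.LC.BG 44 Pool.Agent.LC.N0.w Pool.Agent.LC.w0_symm).Walk u u),
      d.IsCycle → d.length ≤ 136 := by
    intro u d hd
    obtain ⟨l, hl, hlen, -⟩ := Pool.Agent.LC.cyc_of_walk _ d hd
    rw [← hlen]
    refine Pool.Agent.LC.blow_upper 44 _ _ 136 Pool.Agent.LC.w0_le ?_ l hl
    intro L hL hn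
    exact Pool.Agent.LC.DP.sound Pool.Agent.LC.N0.toDP
      (Pool.Agent.LC.Num.sound _ Pool.Agent.LC.side0 Pool.Agent.LC.steps0) L hL hn
  -- a heaviest cycle missing a given old vertex
  have key : ∀ x < 44, ∃ L : List ℕ, Pool.Agent.LC.IsCyc (fun x y => 0 < Pool.Agent.LC.N0.w x y) L ∧
      (∀ z ∈ L, z < 44) ∧ Pool.Agent.LC.wt Pool.Agent.LC.N0.w L = 136 ∧ x ∉ L := by
    intro x hx
    have h0 := Pool.Agent.LC.cycs0_ok x hx
    exact ⟨_, h0.1, h0.2.1, h0.2.2.1, h0.2.2.2⟩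
  -- the vertex v is missed by a longest cycle
  obtain ⟨x, hx, hxv⟩ : ∃ x : Fin 44, ((x : ℕ) < 44) ∧ (v = Sum.inl x ∨ ∃ s, v = Sum.inr s ∧ x = s.1.1) := by
    rcases v with x | s
    · exact ⟨x, x.2, Or.inl rfl⟩
    · exact ⟨s.1.1, s.1.1.2, Or.inr ⟨s, rfl, rfl⟩⟩
  obtain ⟨L, hL, hn, hw, hxL⟩ := key x hx
  obtain ⟨l, hl, hlen, h1, h2⟩ := Pool.Agent.LC.blow_lower 44 Pool.Agent.LC.N0.w
    Pool.Agent.LC.w0_symm L hL hn
  obtain ⟨u, c, hc, hclen, hsupp⟩ := Pool.Agent.LC.walk_of_cyc _ l hl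
  have hmem := hv u c hc (fun w d hd => by rw [hclen, hlen, hw]; exact hup w d hd)
  rw [hsupp] at hmem
  rcases hxv with rfl | ⟨s, rfl, rfl⟩
  · exact hxL (h1 _ hmem)
  · exact hxL (h2 _ hmem).1

end Pool.Agent.S09180
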