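import Pool.Statements.S09983
import Pool.Agent.Helper39.HR.Final

set_option autoImplicit false
open Pool Pool.MP_8b22ef_co

namespace Pool.Agent.S09983

/-- There are ε>0 and d₀ such that every finite graph with maximum degree d ≥ d₀, in which every vertex subset S contains an independent set of size at least ∣S∣/3, has chromatic number at most d^(1−ε). -/
theorem result :
    ∃ ε : ℝ, 0 < ε ∧ ∃ d₀ : ℕ,
      ∀ (V : Type) [Fintype V] (G : SimpleGraph V) [DecidableRel G.Adj],
        d₀ ≤ G.maxDegree →
        (∀ S : Finset V, ∃ I : Finset V,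
            I ⊆ S ∧ G.IsIndepSet (I : Set V) ∧ S.card ≤ 3 * I.card) →
        G.Colorable ⌊((G.maxDegree : ℝ) ^ (1 - ε))⌋₊ := by
  exact Pool.Agent.Helper39.HR.main

end Pool.Agent.S09983
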