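import Pool.Statements.S10211
import Pool.Agent.Helper37.Mader

set_option autoImplicit false
open Pool Pool.MP_94944d_co

namespace Pool.Agent.S10211

open Pool.Agent.Helper37.Mader

theorem reach_mem {V : Type} [Fintype V] [DecidableEq V] (G : SimpleGraph V) (A S : Finset V)
    (hS : nb G A ⊆ S) (a b : ((S : Set V)ᶜ : Set V)) (ha : (a : V) ∈ A)
    (h : (G.induce ((S : Set V)ᶜ)).Reachable a b) : (b : V) ∈ A := by
  obtain ⟨w⟩ := h
  induction w with
  | nil => exact ha
  | cons hadj _ ih =>
    rename_i u v w' p
    apply ih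
    by_contra hv
    have h1 : (v : V) ∈ nb G A := (mem_nb G).2 ⟨hv, u, ha, by simpa using hadj⟩
    exact v.2 (by simpa using hS h1)

/-- There is c>0 such that every finite graph G with κ(G−X)=k−∣X∣ for every vertex set X of size at most 3 (κ = vertex connectivity) has at most c·k^(3/2) vertices. -/
theorem result :
    ∃ c : ℝ, 0 < c ∧
      ∀ (k : ℕ) (V : Type) [Fintype V] [DecidableEq V] (G : SimpleGraph V),
        (∀ X : Finset V, X.card ≤ 3 →
          X.card ≤ k ∧
          (k < Fintype.card V ∧
            ∀ S : Finset V, Disjoint S X → S.card < k - X.card →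
              (G.induce (((X ∪ S : Finset V) : Set V)ᶜ)).Connected) ∧
          ¬ (k + 1 < Fintype.card V ∧
            ∀ S : Finset V, Disjoint S X → S.card < k - X.card + 1 →
              (G.induce (((X ∪ S : Finset V) : Set V)ᶜ)).Connected)) →
        (Fintype.card V : ℝ) ≤ c * (k : ℝ) ^ ((3 : ℝ) / 2) := by
  refine ⟨100, by norm_num, ?_⟩
  intro k V _ _ G h
  have h0 := h ∅ (by simp)
  have hkV : k < Fintype.card V := h0.2.1.1
  have hk : 0 < k := by
    have hVpos : 0 < Fintype.card V := by omega
    obtain ⟨v⟩ := Fintype.card_pos_iff.1 hVpos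
    have := (h {v} (by simp)).1
    rw [Finset.card_singleton] at this
    omega
  have hk1 : (1 : ℝ) ≤ k := by exact_mod_cast hk
  have hpow : (k : ℝ) ≤ (k : ℝ) ^ ((3 : ℝ) / 2) := by
    calc (k : ℝ) = (k : ℝ) ^ (1 : ℝ) := (Real.rpow_one _).symm
      _ ≤ (k : ℝ) ^ ((3 : ℝ) / 2) := Real.rpow_le_rpow_of_exponent_le hk1 (by norm_num)
  rcases Nat.lt_or_ge (k + 1) (Fintype.card V) with hlarge | hsmall
  · -- the main case
    have hK : KConn G k := by
      intro A hA hfar
      by_contra hlt
      push Not at hlt
      have hconn := h0.2.1.2 (nb G A) (by simp) (by simpa using hlt)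
      rw [Finset.empty_union] at hconn
      obtain ⟨a, ha⟩ := hA
      obtain ⟨b, hb⟩ := hfar
      have hna : a ∉ nb G A := fun h' => ((mem_nb G).1 h').1 ha
      have hnb : b ∉ nb G A := by
        have := not_cl_of_mem_far hb
        simp only [cl, Finset.mem_union, not_or] at this
        exact this.2
      have hr := hconn.preconnected ⟨a, by simpa using hna⟩ ⟨b, by simpa using hnb⟩
      have := reach_mem G A (nb G A) (Finset.Subset.refl _) _ _ ha hr
      exact ((mem_far G).1 hb).1 this
    have hC : Crit3 G k := by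
      intro x y z
      have hX3 : ({x, y, z} : Finset V).card ≤ 3 := Finset.card_le_three
      obtain ⟨hXk, -, hnot⟩ := h {x, y, z} hX3
      have hex : ∃ S : Finset V, Disjoint S {x, y, z} ∧
          S.card < k - ({x, y, z} : Finset V).card + 1 ∧
          ¬ (G.induce ((({x, y, z} ∪ S : Finset V) : Set V)ᶜ)).Connected := by
        by_contra hcon
        push Not at hcon
        exact hnot ⟨hlarge, hcon⟩
      obtain ⟨S, -, hSc, hSn⟩ := hex
      set T : Finset V := {x, y, z} ∪ S with hT
      have hTk : T.card ≤ k := by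
        have := Finset.card_union_le ({x, y, z} : Finset V) S
        rw [← hT] at this
        omega
      have hne : Nonempty ((T : Set V)ᶜ : Set V) := by
        by_contra hemp
        have : T = Finset.univ := by
          ext v
          simp only [Finset.mem_univ, iff_true]
          by_contra hv
          exact hemp ⟨⟨v, by simpa using hv⟩⟩
        rw [this, Finset.card_univ] at hTk
        omega
      have hpre : ¬ (G.induce ((T : Set V)ᶜ)).Preconnected := by
        intro hp
        exact hSn ⟨hp⟩
      rw [SimpleGraph.Preconnected] at hpre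
      push Not at hpre
      obtain ⟨a, b, hab⟩ := hpre
      classical
      let A : Finset V := Finset.univ.filter (fun v => ∃ hv : v ∈ ((T : Set V)ᶜ : Set V),
        (G.induce ((T : Set V)ᶜ)).Reachable a ⟨v, hv⟩)
      have hAmem : ∀ v, v ∈ A ↔ ∃ hv : v ∈ ((T : Set V)ᶜ : Set V),
        (G.induce ((T : Set V)ᶜ)).Reachable a ⟨v, hv⟩ := by
        intro v; simp [A]
      have hstep : ∀ u ∈ A, ∀ v, G.Adj u v → v ∉ T → v ∈ A := by
        intro u hu v huv hv
        obtain ⟨hu1, hu2⟩ := (hAmem u).1 hu
        have hv1 : v ∈ ((T : Set V)ᶜ : Set V) := by simpa using hv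
        refine (hAmem v).2 ⟨hv1, hu2.trans (SimpleGraph.Adj.reachable ?_)⟩
        simpa using huv
      have haA : (a : V) ∈ A := (hAmem a).2 ⟨a.2, SimpleGraph.Reachable.refl _⟩
      have hbA : (b : V) ∉ A := by
        intro hb
        obtain ⟨hb1, hb2⟩ := (hAmem b).1 hb
        exact hab hb2
      have hnbT : nb G A ⊆ T := by
        intro v hv
        obtain ⟨hv1, u, hu, huv⟩ := (mem_nb G).1 hv
        by_contra hvT
        exact hv1 (hstep u hu v huv hvT)
      have hbfar : (b : V) ∈ far G A := by
        refine (mem_far G).2 ⟨hbA, fun u hu hub => hbA (hstep u hu b hub ?_)⟩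
        have hb2 := b.2
        rw [Set.mem_compl_iff, Finset.mem_coe] at hb2
        exact hb2
      have hcard : (nb G A).card = k := by
        have h1 := hK A ⟨a, haA⟩ ⟨b, hbfar⟩
        have h2 := Finset.card_le_card hnbT
        omega
      have heq : nb G A = T := Finset.eq_of_subset_of_card_le hnbT (by omega)
      refine ⟨A, ⟨⟨a, haA⟩, hcard, ⟨b, hbfar⟩⟩, ?_, ?_, ?_⟩ <;> rw [heq, hT] <;> simp
    by_contra hcon
    push Not at hcon
    have hn15 : 15 * k < Fintype.card V := by
      have : (15 * k : ℝ) < Fintype.card V := by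
        have : (15 * k : ℝ) ≤ 100 * (k : ℝ) ^ ((3 : ℝ) / 2) := by nlinarith
        linarith
      exact_mod_cast this
    have hsq : ((k : ℝ) ^ ((3 : ℝ) / 2)) ^ 2 = (k : ℝ) ^ 3 := by
      rw [← Real.rpow_natCast, ← Real.rpow_mul (by positivity), ← Real.rpow_natCast]
      norm_num
    have hbig : 10000 * k ^ 3 < Fintype.card V ^ 2 := by
      have : (10000 * k ^ 3 : ℝ) < (Fintype.card V : ℝ) ^ 2 := by
        rw [← hsq]
        have hpos : (0 : ℝ) ≤ (k : ℝ) ^ ((3 : ℝ) / 2) := by positivity
        nlinarith
      exact_mod_cast this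
    exact main hk hK hC hn15 hbig
  · have h1 : (Fintype.card V : ℝ) ≤ k + 1 := by exact_mod_cast hsmall
    nlinarith

end Pool.Agent.S10211
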