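import Pool.Statements.S10221
import Pool.Agent.Helper41.CYC.C7
import Pool.Agent.Helper57.CYC.Arith
import Pool.Agent.Helper23.CYC.Core

set_option autoImplicit false
open Pool Pool.MP_9508c8_co

namespace Pool.Agent.S10221

/-- For even n, if equal-size sets A, B in Z/nZ admit no bijection f from A to B with the sums a+f(a) all distinct, then A and B are cosets of one subgroup of even order. -/
theorem result :
    ∀ n : ℕ, 0 < n → Even n →
      ∀ A B : Finset (ZMod n), A.card = B.card →
        (¬ ∃ f : ZMod n → ZMod n,
            Set.BijOn f (A : Set (ZMod n)) (B : Set (ZMod n)) ∧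
            Set.InjOn (fun a => a + f a) (A : Set (ZMod n))) →
        ∃ H : AddSubgroup (ZMod n), Even (Nat.card H) ∧
          ∃ a b : ZMod n,
            (∀ x : ZMod n, x ∈ A ↔ x - a ∈ H) ∧
            (∀ x : ZMod n, x ∈ B ↔ x - b ∈ H) :=
  Pool.Agent.Helper41.CYC.main_of_arith_core Pool.Agent.Helper57.CYC.st_arith
    Pool.Agent.Helper23.CYC.st_core

end Pool.Agent.S10221
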