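import Pool.Statements.S10843
import Pool.Agent.Helper39.TW.All

set_option autoImplicit false
open Pool Pool.MP_b0c5b2_co

namespace Pool.Agent.S10843

/-- There is a constant s₀ so that every finite 3-connected graph embeddable in the plane has a closed walk visiting each vertex once or twice, with at most ∣V∣/3 + s₀ vertices visited twice. -/
theorem result :
  ∃ s₀ : ℝ, ∀ (V : Type) [Fintype V] [DecidableEq V] (G : SimpleGraph V),
    4 ≤ Fintype.card V →
    (∀ S : Finset V, S.card ≤ 2 → (G.induce {v | v ∉ S}).Connected) →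
    (∃ (f : V → ℝ × ℝ) (γ : V → V → C(unitInterval, ℝ × ℝ)),
      Function.Injective f ∧
      (∀ u v, G.Adj u v →
        γ u v 0 = f u ∧ γ u v 1 = f v ∧ Function.Injective ⇑(γ u v) ∧
        ∀ t : unitInterval, t ≠ 0 → t ≠ 1 → ∀ w, γ u v t ≠ f w) ∧
      (∀ u v u' v', G.Adj u v → G.Adj u' v' → s(u, v) ≠ s(u', v') →
        ∀ t t' : unitInterval, t ≠ 0 → t ≠ 1 → t' ≠ 0 → t' ≠ 1 →
          γ u v t ≠ γ u' v' t')) →
    ∃ (x : V) (w : G.Walk x x),
      (∀ y, 1 ≤ w.support.tail.count y ∧ w.support.tail.count y ≤ 2) ∧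
      (((Finset.univ.filter (fun y => w.support.tail.count y = 2)).card : ℝ)
        ≤ (Fintype.card V : ℝ) / 3 + s₀) := by
  exact TwoWalk.final_of_top TwoWalk.top

end Pool.Agent.S10843
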