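import Pool.Statements.S10912
import Pool.Agent.Helper70.Bent.Main
import Pool.Agent.Helper52.BentC
import Pool.Agent.Helper91.BentD

set_option autoImplicit false
open Pool Pool.MP_b38f68_co

namespace Pool.Agent.S10912

/-- The negation of the preceding statement: For no n is there a Boolean function on n bits that is bent, invariant under cyclic shift of coordinates, and whose algebraic normal form is nonzero with all monomials of one common degree greater than 2. -/
theorem result :
    ¬ (¬ ∃ (n : ℕ) (f : (Fin n → ZMod 2) → ZMod 2) (d : ℕ) (c : Finset (Fin n) → ZMod 2),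
      2 < d ∧
      (∀ S : Finset (Fin n), c S ≠ 0 → S.card = d) ∧
      (∃ S : Finset (Fin n), c S ≠ 0) ∧
      (∀ x : Fin n → ZMod 2, f x = ∑ S : Finset (Fin n), c S * ∏ i ∈ S, x i) ∧
      (∀ x : Fin n → ZMod 2, f (x ∘ finRotate n) = f x) ∧
      (∀ a : Fin n → ZMod 2,
        (∑ x : Fin n → ZMod 2, (-1 : ℤ) ^ (f x + ∑ i, a i * x i).val) ^ 2 = (2 : ℤ) ^ n)) := by
  intro h
  apply h
  obtain ⟨z, hz, hz1⟩ := Pool.Agent.Helper91.BentD.exists_z
  have hsurj := Pool.Agent.Helper91.BentD.hsurj Pool.Agent.Helper91.BentD.card_K9 z hz hz1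
  exact Pool.Agent.Helper70.Bent.assembly Pool.Agent.Helper91.BentD.T9
    Pool.Agent.Helper91.BentD.T9_sq Pool.Agent.Helper91.BentD.T9_one z hz
    (Pool.Agent.Helper52.BentC.slope_inj Pool.Agent.Helper91.BentD.pow_512
      Pool.Agent.Helper91.BentD.T9 Pool.Agent.Helper91.BentD.T9_nondeg z hz hsurj)
    (Pool.Agent.Helper91.BentD.card_C Pool.Agent.Helper91.BentD.card_K9 z hz hz1)

end Pool.Agent.S10912
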