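import Pool.Statements.S11082
import Pool.Agent.Helper29.MG

set_option autoImplicit false
open Pool Pool.MP_bb01b3_co

namespace Pool.Agent.S11082

/-- The negation of the preceding statement: For every graph H with chromatic number p+1, p≥2, whose decomposition family contains a matching: there is C so that for all large n, some H-extremal n-vertex graph is a join of a B(H)-extremal graph on γ−1 vertices with a graph within C edges of T_p(n−γ+1). -/
theorem result :
    ¬ (∀ (h p : ℕ) (H : SimpleGraph (Fin h)), H.chromaticNumber = ((p + 1 : ℕ) : ℕ∞) → 2 ≤ p →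
  ∀ Dec : (m : ℕ) → SimpleGraph (Fin m) → Prop,
    (∀ (m : ℕ) (M : SimpleGraph (Fin m)), Dec m M ↔ ∃ t : ℕ, H.IsContained
      (SimpleGraph.fromRel (fun x y : Fin m ⊕ (Fin p × Fin t) =>
        Sum.elim (fun a => Sum.elim (fun b => M.Adj a b) (fun q => q.1.val ≠ 0) y)
          (fun q => Sum.elim (fun _ => q.1.val ≠ 0) (fun q' => q.1 ≠ q'.1) y) x))) →
  ∀ Mem : (m : ℕ) → SimpleGraph (Fin m) → Prop,
    (∀ (m : ℕ) (M : SimpleGraph (Fin m)), Mem m M ↔ (Dec m M ∧
      ∀ (m' : ℕ) (M' : SimpleGraph (Fin m')), M'.IsContained M → Dec m' M' → M.IsContained M')) →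
  (∃ (m : ℕ) (M : SimpleGraph (Fin m)), Mem m M ∧ ∀ v, ∃! w, M.Adj v w) →
  ∀ γ β : ℕ,
    IsLeast {k : ℕ | ∃ (m : ℕ) (M : SimpleGraph (Fin m)) (S : Finset (Fin m)), Mem m M ∧
      (∀ a b, M.Adj a b → a ∈ S ∨ b ∈ S) ∧ (∀ a ∈ S, ∀ b ∈ S, ¬ M.Adj a b) ∧ S.card = k} γ →
    IsLeast {k : ℕ | ∃ (m : ℕ) (M : SimpleGraph (Fin m)) (S : Finset (Fin m)), Mem m M ∧
      (∀ a b, M.Adj a b → a ∈ S ∨ b ∈ S) ∧ S.card = k} β →
  ∀ BF : SimpleGraph (Fin (γ - 1)) → Prop,
    (∀ G : SimpleGraph (Fin (γ - 1)), BF G ↔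
      ((β = γ → ¬ (⊤ : SimpleGraph (Fin γ)).IsContained G) ∧
       (β ≠ γ → ∀ (m : ℕ) (M : SimpleGraph (Fin m)) (S : Finset (Fin m)), Mem m M →
          (∀ a b, M.Adj a b → a ∈ S ∨ b ∈ S) → S.card < γ →
          ¬ (M.induce (S : Set (Fin m))).IsContained G))) →
  ∃ C N : ℕ, ∀ n ≥ N, ∃ (H1 : SimpleGraph (Fin (γ - 1))) (H2 : SimpleGraph (Fin (n - γ + 1))),
    BF H1 ∧ (∀ G : SimpleGraph (Fin (γ - 1)), BF G → G.edgeSet.ncard ≤ H1.edgeSet.ncard) ∧
    (symmDiff H2.edgeSet (SimpleGraph.turanGraph (n - γ + 1) p).edgeSet).ncard ≤ C ∧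
    ¬ H.IsContained (SimpleGraph.fromRel (fun x y : Fin (γ - 1) ⊕ Fin (n - γ + 1) =>
        Sum.elim (fun a => Sum.elim (fun b => H1.Adj a b) (fun _ => True) y)
          (fun a => Sum.elim (fun _ => True) (fun b => H2.Adj a b) y) x)) ∧
    ∀ G : SimpleGraph (Fin n), ¬ H.IsContained G → G.edgeSet.ncard ≤
      (SimpleGraph.fromRel (fun x y : Fin (γ - 1) ⊕ Fin (n - γ + 1) =>
        Sum.elim (fun a => Sum.elim (fun b => H1.Adj a b) (fun _ => True) y)
          (fun a => Sum.elim (fun _ => True) (fun b => H2.Adj a b) y) x)).edgeSet.ncard) := by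
  intro Hyp
  have main := Hyp 21 2 Helper29.MG.H Helper29.MG.chromatic le_rfl
    (fun m M => ∃ t : ℕ, Helper29.MG.H.IsContained (Helper29.MG.J M 2 t)) (fun _ _ => Iff.rfl)
    (fun m M => (∃ t : ℕ, Helper29.MG.H.IsContained (Helper29.MG.J M 2 t)) ∧
      ∀ (m' : ℕ) (M' : SimpleGraph (Fin m')), M'.IsContained M →
        (∃ t : ℕ, Helper29.MG.H.IsContained (Helper29.MG.J M' 2 t)) → M.IsContained M')
    (fun _ _ => Iff.rfl)
    ⟨8, Helper29.MG.M0, ⟨⟨21, Helper29.MG.dec_M0⟩, fun m' M' h ⟨t, ⟨c⟩⟩ =>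
      Helper29.MG.M0_min h c⟩, Helper29.MG.M0_perfect⟩
    3 3
  -- a minimal member with an independent covering of size three
  obtain ⟨m', M', hMem, ⟨f⟩⟩ := Helper29.MG.exists_min
    (fun m M => ∃ t : ℕ, Helper29.MG.H.IsContained (Helper29.MG.J M 2 t))
    (M := Helper29.MG.M1) ⟨21, Helper29.MG.dec_M1⟩
  have hcover : ∃ S : Finset (Fin m'), (∀ a b, M'.Adj a b → a ∈ S ∨ b ∈ S) ∧
      (∀ a ∈ S, ∀ b ∈ S, ¬ M'.Adj a b) ∧ S.card = 3 := by
    classical
    refine ⟨Finset.univ.filter (fun a => f a ∈ Helper29.MG.S1), ?_, ?_, ?_⟩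
    · intro a b hab
      have h1 := Helper29.MG.S1_cover (f a) (f b) (f.toHom.map_adj hab)
      simpa using h1
    · intro a ha b hb hab
      rw [Finset.mem_filter] at ha hb
      exact Helper29.MG.S1_indep (f a) ha.2 (f b) hb.2 (f.toHom.map_adj hab)
    · apply le_antisymm
      · have h1 : (Finset.univ.filter (fun a => f a ∈ Helper29.MG.S1)).card ≤
            Helper29.MG.S1.card := by
          apply Finset.card_le_card_of_injOn f
          · intro a ha
            rw [Finset.mem_coe, Finset.mem_filter] at ha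
            exact ha.2
          · intro a _ b _ hab
            exact f.injective hab
        exact h1
      · obtain ⟨⟨t, ⟨c⟩⟩, -⟩ := hMem
        refine Helper29.MG.card_cover c _ ?_
        intro a b hab
        have h1 := Helper29.MG.S1_cover (f a) (f b) (f.toHom.map_adj hab)
        simpa using h1
  obtain ⟨S, hS1, hS2, hS3⟩ := hcover
  have main2 := main
    ⟨⟨m', M', S, hMem, hS1, hS2, hS3⟩, by
      rintro k ⟨m, M, S, ⟨⟨t, ⟨c⟩⟩, -⟩, h1, -, rfl⟩
      exact Helper29.MG.card_cover c S h1⟩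
    ⟨⟨m', M', S, hMem, hS1, hS3⟩, by
      rintro k ⟨m, M, S, ⟨⟨t, ⟨c⟩⟩, -⟩, h1, rfl⟩
      exact Helper29.MG.card_cover c S h1⟩
    _ (fun _ => Iff.rfl)
  obtain ⟨C, N, h⟩ := main2
  obtain ⟨H1, H2, -, hmax1, hsym, hfree, hmax⟩ := h (N + (4 * C + 50)) (by omega)
  have h01 : H1.Adj 0 1 := by
    have h1 := hmax1 ⊤ ⟨fun _ => by
      rintro ⟨g⟩
      have := Fintype.card_le_of_injective g g.injective
      simp at this, fun h => absurd rfl h⟩
    by_contra hcon
    have h2 : H1.edgeSet = ∅ := by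
      rw [Set.eq_empty_iff_forall_notMem]
      intro e he
      induction e with
      | h x y =>
        have hxy : H1.Adj x y := he
        have hne := hxy.ne
        fin_cases x <;> fin_cases y
        · exact hne rfl
        · exact hcon hxy
        · exact hcon hxy.symm
        · exact hne rfl
    have h3 : s((0 : Fin (3 - 1)), (1 : Fin (3 - 1))) ∈ (⊤ : SimpleGraph (Fin (3 - 1))).edgeSet := by
      rw [SimpleGraph.mem_edgeSet, SimpleGraph.top_adj]
      decide
    rw [h2, Set.ncard_empty, Nat.le_zero, Set.ncard_eq_zero (Set.toFinite _)] at h1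
    rw [h1] at h3
    exact h3
  exact Helper29.MG.no_join (n := N + (4 * C + 50)) (C := C) (by omega) h01 hsym hfree hmax

end Pool.Agent.S11082
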