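import Pool.Statements.S11302

set_option autoImplicit false
open Pool Pool.MP_c49100_co

namespace Pool.Agent.S11302

/-- The complete graph on the first `n` natural numbers, as a list of pairs. -/
def clique : ℕ → List (ℕ × ℕ)
  | 0 => []
  | n + 1 => clique n ++ (List.range n).map (fun i => (i, n))

theorem clique_cut (P : ℕ → Bool) (n : ℕ) :
    (clique n).countP (fun e => xor (P e.1) (P e.2)) =
      (List.range n).countP P * (List.range n).countP (fun i => ! P i) := by
  induction n with
  | zero => simp [clique]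
  | succ n ih =>
    rw [clique, List.countP_append, ih, List.range_succ, List.countP_append, List.countP_append,
      List.countP_map]
    cases h : P n
    · have h1 : (List.range n).countP ((fun e : ℕ × ℕ => xor (P e.1) (P e.2)) ∘ fun i => (i, n))
          = (List.range n).countP P := by
        apply List.countP_congr
        intro i _
        simp [h]
      rw [h1]
      simp [h]
      ring
    · have h1 : (List.range n).countP ((fun e : ℕ × ℕ => xor (P e.1) (P e.2)) ∘ fun i => (i, n))
          = (List.range n).countP (fun i => ! P i) := by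
        apply List.countP_congr
        intro i _
        simp [h]
      rw [h1]
      simp [h]
      ring

theorem clique_sum (P : ℕ → Bool) (n : ℕ) :
    (List.range n).countP P + (List.range n).countP (fun i => ! P i) = n := by
  induction n with
  | zero => simp
  | succ n ih =>
    rw [List.range_succ, List.countP_append, List.countP_append]
    cases h : P n <;> simp [h] <;> omega

theorem prod_le (a b n q : ℕ) (h : a + b = n) (hq : n * n ≤ 4 * q + 3) : a * b ≤ q := by
  subst h
  by_contra hc
  push Not at hc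
  have h1 : 4 * (a * b) ≤ (a + b) * (a + b) := by
    rcases le_total a b with h | h
    · obtain ⟨d, rfl⟩ := Nat.exists_eq_add_of_le h
      nlinarith [Nat.zero_le (d * d)]
    · obtain ⟨d, rfl⟩ := Nat.exists_eq_add_of_le h
      nlinarith [Nat.zero_le (d * d)]
  omega

/-- The multigraph `K₁₃` with the edges of a `K₇` doubled: 99 edges, maximum cut 54. -/
def bigE : List (Fin 13 × Fin 13) :=
  (clique 13 ++ clique 7).map (fun e => (Fin.ofNat 13 e.1, Fin.ofNat 13 e.2))

theorem bigE_cut (S : Finset (Fin 13)) :
    bigE.countP (fun e => decide ((e.1 ∈ S) ≠ (e.2 ∈ S))) ≤ 54 := by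
  set P : ℕ → Bool := fun i => decide (Fin.ofNat 13 i ∈ S) with hP
  have h1 : bigE.countP (fun e => decide ((e.1 ∈ S) ≠ (e.2 ∈ S))) =
      (clique 13 ++ clique 7).countP (fun e => xor (P e.1) (P e.2)) := by
    rw [bigE, List.countP_map]
    apply List.countP_congr
    intro e _
    simp only [hP, Function.comp]
    by_cases h1 : Fin.ofNat 13 e.1 ∈ S <;> by_cases h2 : Fin.ofNat 13 e.2 ∈ S <;>
      simp [h1, h2]
  rw [h1, List.countP_append, clique_cut, clique_cut]
  have h13 := prod_le _ _ 13 42 (clique_sum P 13) (by norm_num)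
  have h7 := prod_le _ _ 7 12 (clique_sum P 7) (by norm_num)
  omega

theorem exists_coloring (N : ℕ) (E : List (Fin N × Fin N)) (hlen : E.length ≤ 9)
    (hloop : ∀ e ∈ E, e.1 ≠ e.2) : ∃ c : Fin N → Fin 4, ∀ e ∈ E, c e.1 ≠ c e.2 := by
  classical
  have hex : ∃ n : ℕ, ∃ c : Fin N → Fin n, ∀ e ∈ E, c e.1 ≠ c e.2 := ⟨N, id, hloop⟩
  obtain ⟨c, hc⟩ := Nat.find_spec hex
  have hmin := fun m (hm : m < Nat.find hex) => Nat.find_min hex hm
  revert c hmin
  generalize Nat.find hex = n0
  intro c hc hmin
  by_cases h4 : n0 ≤ 4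
  · refine ⟨fun v => Fin.castLE h4 (c v), fun e he h => hc e he ?_⟩
    exact Fin.castLE_injective h4 h
  · exfalso
    push Not at h4
    obtain ⟨n', rfl⟩ : ∃ n', n0 = n' + 1 := ⟨n0 - 1, by omega⟩
    -- every pair of colours is joined
    have hpair : ∀ i j : Fin (n' + 1), i ≠ j → ∃ e ∈ E, s(c e.1, c e.2) = s(i, j) := by
      intro i j hij
      by_contra hno
      push Not at hno
      apply hmin n' (Nat.lt_succ_self n')
      have hy : ∀ x : Fin (n' + 1), x ≠ j → ∃ y : Fin n', j.succAbove y = x := by
        intro x hx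
        exact Fin.exists_succAbove_eq hx
      let c' : Fin N → Fin (n' + 1) := fun v => if c v = j then i else c v
      have hc' : ∀ v, c' v ≠ j := by
        intro v
        simp only [c']
        split_ifs with h
        · exact hij
        · exact h
      choose g hg using fun v => hy (c' v) (hc' v)
      refine ⟨g, fun e he heq => ?_⟩
      have h1 : c' e.1 = c' e.2 := by rw [← hg, ← hg, heq]
      have h2 := hc e he
      have h3 := hno e he
      simp only [c'] at h1
      split_ifs at h1 with ha hb hb
      · exact h2 (ha.trans hb.symm)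
      · apply h3
        rw [ha, ← h1]
        exact Sym2.eq_swap
      · apply h3
        rw [hb, h1]
      · exact h2 h1
    have hsub : (Finset.univ.filter (fun z : Sym2 (Fin (n' + 1)) => ¬ z.IsDiag)) ⊆
        E.toFinset.image (fun e => s(c e.1, c e.2)) := by
      intro z hz
      rw [Finset.mem_filter] at hz
      induction z using Sym2.ind with
      | _ i j =>
        have hij : i ≠ j := by
          intro h
          exact hz.2 (by simp [h])
        obtain ⟨e, he, h⟩ := hpair i j hij
        rw [Finset.mem_image]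
        exact ⟨e, List.mem_toFinset.2 he, h⟩
    have hcard := Finset.card_le_card hsub
    have h1 : (Finset.univ.filter (fun z : Sym2 (Fin (n' + 1)) => ¬ z.IsDiag)).card =
        (n' + 1).choose 2 := by
      have := Sym2.card_subtype_not_diag (α := Fin (n' + 1))
      rw [Fintype.card_subtype, Fintype.card_fin] at this
      exact this
    have h2 : (E.toFinset.image (fun e => s(c e.1, c e.2))).card ≤ 9 :=
      le_trans Finset.card_image_le (le_trans (List.toFinset_card_le E) hlen)
    have h3 : (5 : ℕ).choose 2 ≤ (n' + 1).choose 2 := Nat.choose_le_choose 2 (by omega)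
    have h5 : (5 : ℕ).choose 2 = 10 := by decide
    omega

theorem countP_three {α : Type} (E : List α) (p q r : α → Bool)
    (h : ∀ e ∈ E, (p e).toNat + (q e).toNat + (r e).toNat = 2) :
    E.countP p + E.countP q + E.countP r = 2 * E.length := by
  induction E with
  | nil => simp
  | cons a E ih =>
    have ih' := ih (fun e he => h e (List.mem_cons_of_mem _ he))
    have ha := h a List.mem_cons_self
    rw [List.countP_cons, List.countP_cons, List.countP_cons, List.length_cons]
    cases hp : p a <;> cases hq : q a <;> cases hr : r a <;> simp [hp, hq, hr] at ha ⊢ <;> omega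

theorem exists_cut_six (N : ℕ) (E : List (Fin N × Fin N)) (hlen : E.length = 8)
    (hloop : ∀ e ∈ E, e.1 ≠ e.2) :
    ∃ S : Finset (Fin N), 6 ≤ E.countP (fun e => decide ((e.1 ∈ S) ≠ (e.2 ∈ S))) := by
  obtain ⟨c, hc⟩ := exists_coloring N E (by omega) hloop
  let S : Fin 4 → Finset (Fin N) := fun i => Finset.univ.filter (fun v => c v = 0 ∨ c v = i)
  have hcut := countP_three E
    (fun e => decide ((e.1 ∈ S 1) ≠ (e.2 ∈ S 1)))
    (fun e => decide ((e.1 ∈ S 2) ≠ (e.2 ∈ S 2)))
    (fun e => decide ((e.1 ∈ S 3) ≠ (e.2 ∈ S 3))) (by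
      intro e he
      have h := hc e he
      simp only [S, Finset.mem_filter, Finset.mem_univ, true_and]
      generalize c e.1 = x at h ⊢
      generalize c e.2 = y at h ⊢
      fin_cases x <;> fin_cases y <;> simp at h ⊢)
  rw [hlen] at hcut
  by_contra hno
  push Not at hno
  have h1 := hno (S 1)
  have h2 := hno (S 2)
  have h3 := hno (S 3)
  omega

/-- The negation of the preceding statement: Let f(m) be the least c such that some loopless multigraph with m edges has every cut of size at most c. Then for all n and k<n, f(C(n,2)+k) = min(floor((n+1)^2/4), floor(n^2/4)+f(k)). -/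
theorem result :
    ¬ (∀ f : ℕ → ℕ,
      (∀ m : ℕ, f m = sInf {c : ℕ | ∃ N : ℕ, ∃ E : List (Fin N × Fin N),
          E.length = m ∧ (∀ e ∈ E, e.1 ≠ e.2) ∧
          ∀ S : Finset (Fin N), E.countP (fun e => decide ((e.1 ∈ S) ≠ (e.2 ∈ S))) ≤ c}) →
      ∀ n k : ℕ, k < n →
        f (n.choose 2 + k) = min ((n + 1) ^ 2 / 4) (n ^ 2 / 4 + f k)) := by
  intro H
  have h := H (fun m => sInf {c : ℕ | ∃ N : ℕ, ∃ E : List (Fin N × Fin N),
          E.length = m ∧ (∀ e ∈ E, e.1 ≠ e.2) ∧
          ∀ S : Finset (Fin N), E.countP (fun e => decide ((e.1 ∈ S) ≠ (e.2 ∈ S))) ≤ c})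
    (fun m => rfl) 14 8 (by norm_num)
  have h99 : (14 : ℕ).choose 2 + 8 = 99 := by decide
  rw [h99] at h
  have hup : sInf {c : ℕ | ∃ N : ℕ, ∃ E : List (Fin N × Fin N),
          E.length = 99 ∧ (∀ e ∈ E, e.1 ≠ e.2) ∧
          ∀ S : Finset (Fin N), E.countP (fun e => decide ((e.1 ∈ S) ≠ (e.2 ∈ S))) ≤ c} ≤ 54 := by
    apply Nat.sInf_le
    refine ⟨13, bigE, by decide +kernel, by decide +kernel, bigE_cut⟩
  have hlow : 6 ≤ sInf {c : ℕ | ∃ N : ℕ, ∃ E : List (Fin N × Fin N),
          E.length = 8 ∧ (∀ e ∈ E, e.1 ≠ e.2) ∧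
          ∀ S : Finset (Fin N), E.countP (fun e => decide ((e.1 ∈ S) ≠ (e.2 ∈ S))) ≤ c} := by
    have hne : {c : ℕ | ∃ N : ℕ, ∃ E : List (Fin N × Fin N),
          E.length = 8 ∧ (∀ e ∈ E, e.1 ≠ e.2) ∧
          ∀ S : Finset (Fin N), E.countP (fun e => decide ((e.1 ∈ S) ≠ (e.2 ∈ S))) ≤ c}.Nonempty := by
      refine ⟨8, 2, List.replicate 8 (0, 1), by simp, ?_, ?_⟩
      · intro e he
        rw [List.eq_of_mem_replicate he]
        decide
      · intro S
        exact le_trans List.countP_le_length (by simp)
    apply le_csInf hne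
    rintro c ⟨N, E, hlen, hloop, hcut⟩
    obtain ⟨S, hS⟩ := exists_cut_six N E hlen hloop
    exact le_trans hS (hcut S)
  rw [h] at hup
  omega

end Pool.Agent.S11302
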