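import Pool.Statements.S11840
import Pool.Agent.Helper23.Free.Main

set_option autoImplicit false
open Pool Pool.MP_dbfea9_co

namespace Pool.Agent.S11840

/-- The negation of the preceding statement: There is c>0 such that every finite planar graph of treewidth at most 4 on n vertices has a vertex set S of size at least cn such that every plane point set of size ∣S∣ is the image of S in some straight-line crossing-free drawing. -/
theorem result :
    ¬ (∃ c : ℝ, 0 < c ∧
      ∀ (V : Type) [Fintype V] [DecidableEq V] (G : SimpleGraph V),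
        (∃ f : V → ℝ × ℝ, Function.Injective f ∧
          (∀ u v w : V, G.Adj u v → w ≠ u → w ≠ v → f w ∉ segment ℝ (f u) (f v)) ∧
          (∀ u v x y : V, G.Adj u v → G.Adj x y → ¬(u = x ∧ v = y) → ¬(u = y ∧ v = x) →
            ∀ p ∈ segment ℝ (f u) (f v), p ∈ segment ℝ (f x) (f y) →
              p ∈ f '' (({u, v} : Set V) ∩ {x, y}))) →
        (∃ (m : ℕ) (T : SimpleGraph (Fin m)) (bag : Fin m → Finset V),
          T.IsTree ∧ (∀ i, (bag i).card ≤ 5) ∧ (∀ v, ∃ i, v ∈ bag i) ∧
          (∀ u v, G.Adj u v → ∃ i, u ∈ bag i ∧ v ∈ bag i) ∧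
          (∀ v, (T.induce {i | v ∈ bag i}).Connected)) →
        ∃ S : Finset V, c * (Fintype.card V : ℝ) ≤ (S.card : ℝ) ∧
          ∀ P : Finset (ℝ × ℝ), P.card = S.card →
            ∃ f : V → ℝ × ℝ, Function.Injective f ∧
              (∀ u v w : V, G.Adj u v → w ≠ u → w ≠ v → f w ∉ segment ℝ (f u) (f v)) ∧
              (∀ u v x y : V, G.Adj u v → G.Adj x y → ¬(u = x ∧ v = y) → ¬(u = y ∧ v = x) →
                ∀ p ∈ segment ℝ (f u) (f v), p ∈ segment ℝ (f x) (f y) →
                  p ∈ f '' (({u, v} : Set V) ∩ {x, y})) ∧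
              S.image f = P) :=
  Pool.Agent.Helper23.Free.main

end Pool.Agent.S11840
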