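import Pool.Statements.S12173
import Pool.Agent.Helper66.KF.All

set_option autoImplicit false
open Pool Pool.MP_e8ee11_co

namespace Pool.Agent.S12173

/-- There is an absolute constant C such that any family of m subsets of an n-element set, each element in at most t sets, admits a ±1 colouring with every set's colour sum at most C√t in absolute value. -/
theorem result :
    ∃ C : ℝ, 0 < C ∧
      ∀ (n m t : ℕ) (S : Fin m → Finset (Fin n)),
        (∀ i : Fin n, (Finset.univ.filter (fun j : Fin m => i ∈ S j)).card ≤ t) →
        ∃ χ : Fin n → ℤ, (∀ i, χ i = 1 ∨ χ i = -1) ∧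
          ∀ j : Fin m, ((|∑ i ∈ S j, χ i| : ℤ) : ℝ) ≤ C * Real.sqrt (t : ℝ) :=
  Pool.Agent.Helper66.KF.beckFiala_of_komlos Pool.Agent.Helper66.KF.komlos

end Pool.Agent.S12173
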