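import Pool.Statements.S13316
import Pool.Agent.Helper95.Tree

set_option autoImplicit false
open Pool Pool.MP_69fc66_gt

namespace Pool.Agent.S13316

open Pool.Agent.Helper95.Perfect

theorem unif {X Y : Type} [TopologicalSpace X] [TopologicalSpace Y] (Φ : C(X, ℝ) → C(Y, ℝ))
    (hΦ : ∀ y, ∃ a b c : X, ∃ r s : ℝ, ∀ f, Φ f y = f a + r * f b + s * f c) :
    ∀ B : Finset Y, ∀ ε : ℝ, 0 < ε → ∃ A : Finset X, ∃ δ : ℝ, 0 < δ ∧
      ∀ f g : C(X, ℝ), (∀ x ∈ A, |f x - g x| < δ) → ∀ y ∈ B, |Φ f y - Φ g y| < ε := by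
  intro B ε hε
  classical
  choose a b c r s h using hΦ
  have hM : 0 ≤ ∑ y ∈ B, (1 + |r y| + |s y|) := Finset.sum_nonneg fun y _ => by positivity
  refine ⟨B.image a ∪ B.image b ∪ B.image c, ε / (1 + ∑ y ∈ B, (1 + |r y| + |s y|)),
    by positivity, ?_⟩
  intro f g hfg y hy
  have ha := hfg (a y) (by
    simp only [Finset.mem_union]
    exact Or.inl (Or.inl (Finset.mem_image_of_mem a hy)))
  have hb := hfg (b y) (by
    simp only [Finset.mem_union]
    exact Or.inl (Or.inr (Finset.mem_image_of_mem b hy)))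
  have hc := hfg (c y) (by
    simp only [Finset.mem_union]
    exact Or.inr (Finset.mem_image_of_mem c hy))
  set δ := ε / (1 + ∑ y ∈ B, (1 + |r y| + |s y|)) with hδ
  have hδ0 : 0 < δ := by positivity
  have h1 : 1 + |r y| + |s y| ≤ ∑ y ∈ B, (1 + |r y| + |s y|) :=
    Finset.single_le_sum (f := fun y => 1 + |r y| + |s y|) (fun y _ => by positivity) hy
  have h2 : Φ f y - Φ g y = (f (a y) - g (a y)) + r y * (f (b y) - g (b y)) +
      s y * (f (c y) - g (c y)) := by
    rw [h y f, h y g]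
    ring
  rw [h2]
  calc |(f (a y) - g (a y)) + r y * (f (b y) - g (b y)) + s y * (f (c y) - g (c y))|
      ≤ |f (a y) - g (a y)| + |r y| * |f (b y) - g (b y)| + |s y| * |f (c y) - g (c y)| := by
        refine (abs_add_three _ _ _).trans ?_
        rw [abs_mul, abs_mul]
    _ ≤ δ + |r y| * δ + |s y| * δ := by gcongr
    _ = (1 + |r y| + |s y|) * δ := by ring
    _ ≤ (∑ y ∈ B, (1 + |r y| + |s y|)) * δ := by gcongr
    _ < (1 + ∑ y ∈ B, (1 + |r y| + |s y|)) * δ := by gcongr; linarith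
    _ = ε := by
        rw [hδ]
        field_simp

/-- The negation of the preceding statement: For Tychonoff spaces X, Y: if the pointwise-convergence function spaces C_p(X), C_p(Y) are uniformly homeomorphic and every closed subset of X is a G-delta, then every closed subset of Y is a G-delta. -/
theorem result :
    ¬ (∀ (X Y : Type) [TopologicalSpace X] [TopologicalSpace Y] [T35Space X] [T35Space Y],
      (∃ Φ : C(X, ℝ) ≃ C(Y, ℝ),
        (∀ B : Finset Y, ∀ ε : ℝ, 0 < ε → ∃ A : Finset X, ∃ δ : ℝ, 0 < δ ∧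
          ∀ f g : C(X, ℝ), (∀ x ∈ A, |f x - g x| < δ) →
            ∀ y ∈ B, |Φ f y - Φ g y| < ε) ∧
        (∀ A : Finset X, ∀ ε : ℝ, 0 < ε → ∃ B : Finset Y, ∃ δ : ℝ, 0 < δ ∧
          ∀ f g : C(Y, ℝ), (∀ y ∈ B, |f y - g y| < δ) →
            ∀ x ∈ A, |Φ.symm f x - Φ.symm g x| < ε)) →
      (∀ s : Set X, IsClosed s → IsGδ s) →
      (∀ t : Set Y, IsClosed t → IsGδ t)) := by
  intro H
  have t1 : T35Space (W FQ ⊕ Unit) := t35_sum
  have t2 : T35Space (Tree ⊕ Y0 FQ) := t35_sum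
  refine FQ_not_functions (countable_functions FQ_nonempty FQ_closed
    (H (W FQ ⊕ Unit) (Tree ⊕ Y0 FQ) ?_ (perfect_double fun s _ => tree_gdelta s)))
  refine ⟨⟨T FQ, S FQ_nonempty, S_T FQ_nonempty, T_S FQ_nonempty⟩, ?_, ?_⟩
  · exact unif (T FQ) fun y => T_finite (F := FQ) y
  · exact unif (S FQ_nonempty) fun y => S_finite FQ_nonempty y

end Pool.Agent.S13316
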