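import Pool.Statements.S13482

set_option autoImplicit false
open Pool Pool.MP_8503ce_gt

namespace Pool.Agent.S13482

section Aux

open Cardinal Ordinal Order

/-- The well-ordered type of `ω_ (n+1)`. -/
def L (n : ℕ) : Type := (ω_ ((n : Ordinal.{0}) + 1)).ToType

noncomputable instance (n : ℕ) : LinearOrder (L n) :=
  inferInstanceAs (LinearOrder (ω_ ((n : Ordinal.{0}) + 1)).ToType)

instance (n : ℕ) : WellFoundedLT (L n) :=
  inferInstanceAs (WellFoundedLT (ω_ ((n : Ordinal.{0}) + 1)).ToType)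

theorem cof_L (n : ℕ) : Order.cof (L n) = ℵ_ ((n : Ordinal.{0}) + 1) := by
  show Order.cof ((ω_ ((n : Ordinal.{0}) + 1)).ToType) = _
  rw [Ordinal.cof_toType, Cardinal.cof_omega_add_one]

theorem mk_L (n : ℕ) : Cardinal.mk (L n) = ℵ_ ((n : Ordinal.{0}) + 1) := by
  show Cardinal.mk ((ω_ ((n : Ordinal.{0}) + 1)).ToType) = _
  rw [Cardinal.mk_toType, ← Cardinal.ord_aleph, Cardinal.card_ord]

theorem bdd {n : ℕ} (S : Set (L n)) (hS : Cardinal.mk S < ℵ_ ((n : Ordinal.{0}) + 1)) :
    ∃ b : L n, ∀ s ∈ S, s < b := by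
  by_contra h
  push Not at h
  have hc : IsCofinal S := by
    intro b
    obtain ⟨s, hs, hbs⟩ := h b
    exact ⟨s, hs, hbs⟩
  have := Order.cof_le hc
  rw [cof_L] at this
  exact absurd hS (not_lt.mpr this)

theorem bdd_countable {n : ℕ} (S : Set (L n)) (hS : S.Countable) :
    ∃ b : L n, ∀ s ∈ S, s < b := by
  apply bdd
  refine lt_of_le_of_lt hS.le_aleph0 ?_
  rw [← Cardinal.aleph_zero]
  rw [Cardinal.aleph_lt_aleph]
  exact lt_of_le_of_lt (zero_le) (lt_add_one _)

instance (n : ℕ) : Nonempty (L n) :=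
  (bdd_countable (n := n) ∅ Set.countable_empty).nonempty

theorem exists_gt' {n : ℕ} (a : L n) : ∃ b : L n, a < b := by
  obtain ⟨b, hb⟩ := bdd_countable {a} (Set.countable_singleton a)
  exact ⟨b, hb a rfl⟩

/-- The upper-set (Alexandrov) topology on `L n`. -/
instance (n : ℕ) : TopologicalSpace (L n) where
  IsOpen U := IsUpperSet U
  isOpen_univ := isUpperSet_univ
  isOpen_inter _ _ h k := h.inter k
  isOpen_sUnion _ h := isUpperSet_sUnion h

theorem isOpen_L {n : ℕ} {U : Set (L n)} : IsOpen U ↔ IsUpperSet U := Iff.rfl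

instance (n : ℕ) : T0Space (L n) := by
  refine ⟨fun {x y} h => ?_⟩
  have h1 : ∀ {x y : L n}, Inseparable x y → x ≤ y := by
    intro x y h
    have := (h.mem_open_iff (isOpen_L.mpr (isUpperSet_Ici x))).mp (Set.mem_Ici.mpr le_rfl)
    exact this
  exact le_antisymm (h1 h) (h1 h.symm)

/-- monotone maps between different `L`s are bounded -/
theorem monotone_bdd {n m : ℕ} (hnm : n ≠ m) (φ : L n → L m) (hφ : Monotone φ) :
    ∃ b : L m, ∀ a, φ a ≤ b := by
  rcases lt_or_gt_of_ne hnm with h | h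
  · have hc : Cardinal.mk (Set.range φ) < ℵ_ ((m : Ordinal.{0}) + 1) := by
      refine lt_of_le_of_lt Cardinal.mk_range_le ?_
      rw [mk_L, Cardinal.aleph_lt_aleph]
      have : (n : Ordinal.{0}) < (m : Ordinal.{0}) := by exact_mod_cast h
      simpa using this
    obtain ⟨b, hb⟩ := bdd _ hc
    exact ⟨b, fun a => (hb _ ⟨a, rfl⟩).le⟩
  · by_contra hcon
    push Not at hcon
    choose α hα using hcon
    have hc : Cardinal.mk (Set.range α) < ℵ_ ((n : Ordinal.{0}) + 1) := by
      refine lt_of_le_of_lt Cardinal.mk_range_le ?_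
      rw [mk_L, Cardinal.aleph_lt_aleph]
      have : (m : Ordinal.{0}) < (n : Ordinal.{0}) := by exact_mod_cast h
      simpa using this
    obtain ⟨a0, ha0⟩ := bdd _ hc
    have h1 := hα (φ a0)
    have h2 := hφ (ha0 _ ⟨φ a0, rfl⟩).le
    exact absurd (lt_of_lt_of_le h1 h2) (lt_irrefl _)

/-- The points of the product of the `L n + 1` with only finitely many top coordinates. -/
structure Y : Type where
  /-- the coordinates -/
  pt : ∀ n : ℕ, WithTop (L n)
  /-- finitely many top coordinates -/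
  fin : {n | pt n = ⊤}.Finite

theorem Y.ext' {x y : Y} (h : ∀ n, x.pt n = y.pt n) : x = y := by
  cases x; cases y
  congr
  funext n
  exact h n

/-- Subbasic open sets. -/
def sub (n : ℕ) (c : WithTop (L n)) : Set Y := {y | c < y.pt n}

instance : TopologicalSpace Y :=
  TopologicalSpace.generateFrom {U | ∃ n c, U = sub n c}

theorem isOpen_sub (n : ℕ) (c : WithTop (L n)) : IsOpen (sub n c) :=
  TopologicalSpace.isOpen_generateFrom_of_mem ⟨n, c, rfl⟩

instance : T0Space Y := by
  refine ⟨fun {x y} h => ?_⟩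
  have h1 : ∀ {x y : Y}, Inseparable x y → ∀ n, x.pt n ≤ y.pt n := by
    intro x y h n
    by_contra hlt
    push Not at hlt
    have : y.pt n < y.pt n := (h.mem_open_iff (isOpen_sub n (y.pt n))).mp hlt
    exact absurd this (lt_irrefl _)
  exact Y.ext' fun n => le_antisymm (h1 h n) (h1 h.symm n)

theorem cont_mono {n : ℕ} {f : L n → Y} (hf : Continuous f) (m : ℕ) :
    Monotone (fun a => (f a).pt m) := by
  intro a b hab
  by_contra hlt
  push Not at hlt
  have ho := (isOpen_sub m ((f b).pt m)).preimage hf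
  have : (f b).pt m < (f b).pt m := (isOpen_L.mp ho) hab hlt
  exact absurd this (lt_irrefl _)

/-- The generic point of the image. -/
noncomputable def gen {n : ℕ} (f : L n → Y) (m : ℕ) : WithTop (L m) :=
  WellFounded.min (wellFounded_lt (α := WithTop (L m))) {c | ∀ a, (f a).pt m ≤ c} ⟨⊤, fun _ => le_top⟩

theorem le_gen {n : ℕ} (f : L n → Y) (m : ℕ) (a : L n) : (f a).pt m ≤ gen f m :=
  WellFounded.min_mem (wellFounded_lt (α := WithTop (L m))) {c | ∀ a, (f a).pt m ≤ c}
    ⟨⊤, fun _ => le_top⟩ a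

theorem lt_gen {n : ℕ} (f : L n → Y) (m : ℕ) (c : WithTop (L m)) :
    c < gen f m ↔ ∃ a, c < (f a).pt m := by
  constructor
  · intro h
    by_contra hcon
    push Not at hcon
    exact WellFounded.not_lt_min (wellFounded_lt (α := WithTop (L m)))
      {c | ∀ a, (f a).pt m ≤ c} hcon h
  · rintro ⟨a, ha⟩
    exact lt_of_lt_of_le ha (le_gen f m a)

theorem gen_top {n : ℕ} {f : L n → Y} (hf : Continuous f) {m : ℕ} (hnm : n ≠ m)
    (h : gen f m = ⊤) : ∃ a, (f a).pt m = ⊤ := by
  by_contra hcon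
  push Not at hcon
  have h1 : ∀ a, ∃ b : L m, (b : WithTop (L m)) = (f a).pt m := fun a =>
    WithTop.ne_top_iff_exists.mp (hcon a)
  choose φ hφ using h1
  have hmono : Monotone φ := by
    intro a b hab
    have := cont_mono hf m hab
    simp only [← hφ] at this
    exact WithTop.coe_le_coe.mp this
  obtain ⟨b, hb⟩ := monotone_bdd hnm φ hmono
  have : ((b : L m) : WithTop (L m)) < gen f m := by rw [h]; exact WithTop.coe_lt_top b
  rw [lt_gen] at this
  obtain ⟨a, ha⟩ := this
  rw [← hφ a] at ha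
  exact absurd (WithTop.coe_lt_coe.mp ha) (not_lt.mpr (hb a))

theorem gen_finite {n : ℕ} {f : L n → Y} (hf : Continuous f) : {m | gen f m = ⊤}.Finite := by
  have h1 : ∀ m : ℕ, ∃ a : L n, m ≠ n → gen f m = ⊤ → (f a).pt m = ⊤ := by
    intro m
    by_cases hm : m ≠ n ∧ gen f m = ⊤
    · obtain ⟨a, ha⟩ := gen_top hf (Ne.symm hm.1) hm.2
      exact ⟨a, fun _ _ => ha⟩
    · refine ⟨Classical.arbitrary _, fun h2 h3 => absurd ⟨h2, h3⟩ hm⟩
  choose α hα using h1
  obtain ⟨b, hb⟩ := bdd_countable (Set.range α) (Set.countable_range α)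
  refine ((f b).fin.union (Set.finite_singleton n)).subset ?_
  intro m hm
  by_cases hmn : m = n
  · right; exact hmn
  · left
    have h1 := hα m hmn hm
    have h2 := cont_mono hf m (hb (α m) ⟨m, rfl⟩).le
    show (f b).pt m = ⊤
    exact top_le_iff.mp (h1 ▸ h2)

theorem image_generic {n : ℕ} {f : L n → Y} (hf : Continuous f) :
    closure (Set.range f) = closure ({(⟨gen f, gen_finite hf⟩ : Y)} : Set Y) := by
  have key : ∀ U : Set Y, IsOpen U → ((⟨gen f, gen_finite hf⟩ : Y) ∈ U ↔ ∃ a, f a ∈ U) := by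
    intro U hU
    induction hU with
    | basic s hs =>
      obtain ⟨m, c, rfl⟩ := hs
      exact lt_gen f m c
    | univ => exact ⟨fun _ => ⟨Classical.arbitrary _, trivial⟩, fun _ => trivial⟩
    | inter s t hs ht ihs iht =>
      constructor
      · rintro ⟨h1, h2⟩
        obtain ⟨a, ha⟩ := ihs.mp h1
        obtain ⟨b, hb⟩ := iht.mp h2
        refine ⟨max a b, ?_, ?_⟩
        · exact (isOpen_L.mp (IsOpen.preimage hf hs)) (le_max_left a b) ha
        · exact (isOpen_L.mp (IsOpen.preimage hf ht)) (le_max_right a b) hb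
      · rintro ⟨a, h1, h2⟩
        exact ⟨ihs.mpr ⟨a, h1⟩, iht.mpr ⟨a, h2⟩⟩
    | sUnion S hS ih =>
      constructor
      · rintro ⟨t, ht, h1⟩
        obtain ⟨a, ha⟩ := (ih t ht).mp h1
        exact ⟨a, t, ht, ha⟩
      · rintro ⟨a, t, ht, h1⟩
        exact ⟨t, ht, (ih t ht).mpr ⟨a, h1⟩⟩
  ext y
  rw [mem_closure_iff, mem_closure_iff]
  constructor
  · intro h U hU hy
    obtain ⟨z, hz, a, rfl⟩ := h U hU hy
    exact ⟨_, (key U hU).mpr ⟨a, hz⟩, rfl⟩
  · intro h U hU hy
    obtain ⟨z, hz, hz'⟩ := h U hU hy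
    rw [Set.mem_singleton_iff] at hz'
    subst hz'
    obtain ⟨a, ha⟩ := (key U hU).mp hz
    exact ⟨f a, ha, a, rfl⟩

/-- The class `K`. -/
def K (Z : Type) [TopologicalSpace Z] : Prop :=
  T0Space Z ∧ ∀ n, ∀ f : L n → Z, Continuous f →
    ∃ z : Z, closure (Set.range f) = closure ({z} : Set Z)

theorem isIrreducible_L (n : ℕ) : IsIrreducible (Set.univ : Set (L n)) := by
  refine ⟨Set.univ_nonempty, ?_⟩
  rintro U V hU hV ⟨x, -, hx⟩ ⟨y, -, hy⟩
  exact ⟨max x y, trivial, (isOpen_L.mp hU) (le_max_left x y) hx,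
    (isOpen_L.mp hV) (le_max_right x y) hy⟩

/-- The inclusion of the product. -/
def incl (x : ∀ n, L n) : Y := ⟨fun n => (x n : WithTop (L n)), by
  have : {n | ((x n : L n) : WithTop (L n)) = ⊤} = ∅ := by
    ext n; simp
  rw [this]; exact Set.finite_empty⟩

theorem continuous_incl : Continuous incl := by
  refine continuous_generateFrom_iff.mpr ?_
  rintro U ⟨n, c, rfl⟩
  have : IsOpen {b : L n | c < ((b : L n) : WithTop (L n))} := by
    rw [isOpen_L]
    intro a b hab ha
    exact lt_of_lt_of_le ha (WithTop.coe_le_coe.mpr hab)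
  exact this.preimage (continuous_apply n)

end Aux

/-- The negation of the preceding statement: For any class K of T0 spaces containing all sober spaces, and any family of T0 spaces with K-determined subsets A_i, the product of the A_i is K-determined in the product space. -/
theorem result :
    ¬ (∀ (K : ∀ (Y : Type) [TopologicalSpace Y], Prop),
    (∀ (Y : Type) [TopologicalSpace Y], K Y → T0Space Y) →
    (∀ (Y : Type) [TopologicalSpace Y], T0Space Y → QuasiSober Y → K Y) →
    ∀ (I : Type) (X : I → Type) [∀ i, TopologicalSpace (X i)] [∀ i, T0Space (X i)]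
      (A : ∀ i, Set (X i)),
      (∀ i, ∀ (Y : Type) [TopologicalSpace Y], K Y →
        ∀ f : X i → Y, Continuous f →
          ∃! y : Y, closure (f '' A i) = closure ({y} : Set Y)) →
      ∀ (Y : Type) [TopologicalSpace Y], K Y →
        ∀ f : (∀ i, X i) → Y, Continuous f →
          ∃! y : Y, closure (f '' Set.pi Set.univ A) = closure ({y} : Set Y)) := by
  intro H
  have h := H K (fun Y _ hY => hY.1) ?_ ℕ L (fun _ => Set.univ) ?_ Y
    ⟨inferInstance, fun n f hf => ⟨_, image_generic hf⟩⟩ incl continuous_incl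
  · obtain ⟨y, hy, -⟩ := h
    have hyr : ∀ x : ∀ n, L n, incl x ∈ closure ({y} : Set Y) := by
      intro x
      rw [← hy]
      exact subset_closure ⟨x, by simp, rfl⟩
    have hfin := y.fin
    obtain ⟨n, hn⟩ : ∃ n, y.pt n ≠ ⊤ := by
      by_contra hcon
      push Not at hcon
      have : {n | y.pt n = ⊤} = Set.univ := by
        ext n; simp [hcon n]
      rw [this] at hfin
      exact Set.infinite_univ hfin
    obtain ⟨b, hb⟩ := WithTop.ne_top_iff_exists.mp hn
    obtain ⟨b', hb'⟩ := exists_gt' b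
    have h1 := hyr (fun m => if h : m = n then (h ▸ b') else Classical.arbitrary _)
    rw [mem_closure_iff] at h1
    obtain ⟨z, hz, hz'⟩ := h1 (sub n b) (isOpen_sub n b) (by
      show ((b : L n) : WithTop (L n)) < _
      simp only [incl, dite_true]
      exact WithTop.coe_lt_coe.mpr hb')
    rw [Set.mem_singleton_iff] at hz'
    subst hz'
    have : ((b : L n) : WithTop (L n)) < z.pt n := hz
    rw [← hb] at this
    exact lt_irrefl _ this
  · intro Z _ hZ0 hZ
    refine ⟨hZ0, fun n f hf => ?_⟩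
    have hirr : IsIrreducible (closure (Set.range f)) := by
      rw [← Set.image_univ]
      exact ((isIrreducible_L n).image f hf.continuousOn).closure
    obtain ⟨z, hz⟩ := QuasiSober.sober hirr isClosed_closure
    exact ⟨z, hz.symm⟩
  · intro n Z _ hZ f hf
    have := hZ.1
    obtain ⟨z, hz⟩ := hZ.2 n f hf
    refine ⟨z, by simpa using hz, ?_⟩
    intro w hw
    have hw' : closure (Set.range f) = closure ({w} : Set Z) := by simpa using hw
    have : closure ({w} : Set Z) = closure {z} := hw'.symm.trans hz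
    exact (inseparable_iff_closure_eq.mpr this).eq

end Pool.Agent.S13482
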