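import Pool.Statements.S13603
import Pool.Agent.Helper93.Final

set_option autoImplicit false
open Pool Pool.MP_958cbc_gt

namespace Pool.Agent.S13603

theorem result :
    ∀ (X : Type) [TopologicalSpace X],
      (∃ (a m : ℕ) (s t : Fin m → Fin a), 1 ≤ m ∧
        Nonempty (X ≃ₜ Quot (fun p q : Fin a ⊕ (Fin m × unitInterval) =>
          ∃ e : Fin m, (p = Sum.inr (e, 0) ∧ q = Sum.inl (s e)) ∨
            (p = Sum.inr (e, 1) ∧ q = Sum.inl (t e))))) →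
      ConnectedSpace X →
      ∀ k : ℕ, 1 ≤ k →
      ∀ (Y Z : Type) [TopologicalSpace Y] [TopologicalSpace Z],
        Nonempty (Y ≃ₜ Quot (fun v w : {v : Fin k → X // Function.Injective v} =>
          ∃ σ : Equiv.Perm (Fin k), w.1 = v.1 ∘ σ)) →
        Nonempty (Z ≃ₜ Quot (fun v w : {v : Fin (k + 1) → X // Function.Injective v} =>
          ∃ σ : Equiv.Perm (Fin (k + 1)), w.1 = v.1 ∘ σ)) →
        ∀ n : ℕ,
          ((∃ U : Fin (n + 1) → Set Z, (∀ i, IsOpen (U i)) ∧ (∀ z, ∃ i, z ∈ U i) ∧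
              ∀ i, ∃ H : unitInterval × Z → Z, ∃ z0 : Z,
                ContinuousOn H (Set.univ ×ˢ U i) ∧ ∀ z ∈ U i, H (0, z) = z ∧ H (1, z) = z0) →
            (∃ U : Fin (n + 1) → Set Y, (∀ i, IsOpen (U i)) ∧ (∀ y, ∃ i, y ∈ U i) ∧
              ∀ i, ∃ H : unitInterval × Y → Y, ∃ y0 : Y,
                ContinuousOn H (Set.univ ×ˢ U i) ∧ ∀ y ∈ U i, H (0, y) = y ∧ H (1, y) = y0)) ∧
          ∀ r : ℕ, 2 ≤ r →
            ((∃ U : Fin (n + 1) → Set (Fin r → Z), (∀ i, IsOpen (U i)) ∧ (∀ z, ∃ i, z ∈ U i) ∧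
                ∀ i, ∃ σ : (Fin r → Z) → C(Set.Icc (0:ℝ) 1, Z), ContinuousOn σ (U i) ∧
                  ∀ z ∈ U i, ∀ j : Fin r,
                    σ z (Set.projIcc (0:ℝ) 1 zero_le_one ((j : ℝ) / ((r : ℝ) - 1))) = z j) →
              (∃ U : Fin (n + 1) → Set (Fin r → Y), (∀ i, IsOpen (U i)) ∧ (∀ y, ∃ i, y ∈ U i) ∧
                ∀ i, ∃ σ : (Fin r → Y) → C(Set.Icc (0:ℝ) 1, Y), ContinuousOn σ (U i) ∧
                  ∀ y ∈ U i, ∀ j : Fin r,
                    σ y (Set.projIcc (0:ℝ) 1 zero_le_one ((j : ℝ) / ((r : ℝ) - 1))) = y j)) := by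
  intro X _ hX hconn k hk Y Z _ _ hY hZ n
  obtain ⟨a, m, s, t, hm, ⟨e⟩⟩ := hX
  obtain ⟨eY⟩ := hY
  obtain ⟨eZ⟩ := hZ
  have hpre : PreconnectedSpace (Pool.Agent.Helper93.Gr s t) :=
    (Function.Surjective.connectedSpace e.surjective e.continuous).toPreconnectedSpace
  obtain ⟨f, hf⟩ := Pool.Agent.Helper93.exists_hmono (s := s) (t := t) hm hk
  let e1 : Y ≃ₜ Pool.Agent.Helper93.UConf (Fin k) (Pool.Agent.Helper93.Gr s t) :=
    eY.trans (Pool.Agent.Helper93.uconfMap e)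
  let e2 : Pool.Agent.Helper93.UConf (Fin (k + 1)) (Pool.Agent.Helper93.Gr s t) ≃ₜ Z :=
    (eZ.trans (Pool.Agent.Helper93.uconfMap e)).symm
  have hF := (Pool.Agent.Helper93.HMono.of_homeo e2).comp
    (hf.comp (Pool.Agent.Helper93.HMono.of_homeo e1))
  refine ⟨fun hcat => ?_, fun r hr htc => hF.tc n r hr htc⟩
  have hYne : Nonempty Y := by
    obtain ⟨U, -, -, h⟩ := hcat
    obtain ⟨-, z0, -⟩ := h 0
    obtain ⟨z, -⟩ := Pool.Agent.Helper93.uc_surj (eZ z0)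
    exact ⟨eY.symm (Pool.Agent.Helper93.uc
      (z.res (Fin.castSucc : Fin k → Fin (k + 1)) (Fin.castSucc_injective k)))⟩
  exact hF.cat n hcat

end Pool.Agent.S13603
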