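import Pool.Statements.S13696
import Pool.Agent.Helper95.Tree

set_option autoImplicit false
open Pool Pool.MP_a4908e_gt

namespace Pool.Agent.S13696

open Pool.Agent.Helper95.Perfect

/-- The negation of the preceding statement: For Tychonoff spaces X, Y: if every closed subset of X is a G-delta and the spaces of continuous real functions on X and Y with the pointwise topology are linearly homeomorphic, then every closed subset of Y is a G-delta. -/
theorem result :
    ¬ (∀ (X Y : Type) [TopologicalSpace X] [T35Space X] [TopologicalSpace Y] [T35Space Y],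
      (∀ s : Set X, IsClosed s → IsGδ s) →
      (∃ T : {f : X → ℝ // Continuous f} ≃ₜ {g : Y → ℝ // Continuous g},
        ∀ (a : ℝ) (f g h : {f : X → ℝ // Continuous f}),
          h.1 = a • f.1 + g.1 → (T h).1 = a • (T f).1 + (T g).1) →
      ∀ s : Set Y, IsClosed s → IsGδ s) := by
  intro H
  have t1 : T35Space (W FQ ⊕ Unit) := t35_sum
  have t2 : T35Space (Tree ⊕ Y0 FQ) := t35_sum
  refine FQ_not_functions (countable_functions FQ_nonempty FQ_closed
    (H (W FQ ⊕ Unit) (Tree ⊕ Y0 FQ) (perfect_double fun s _ => tree_gdelta s) ?_))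
  let e : {f : W FQ ⊕ Unit → ℝ // Continuous f} ≃ {g : Tree ⊕ Y0 FQ → ℝ // Continuous g} :=
    { toFun := fun f => ⟨T FQ ⟨f.1, f.2⟩, (T FQ ⟨f.1, f.2⟩).continuous⟩
      invFun := fun h => ⟨S FQ_nonempty ⟨h.1, h.2⟩, (S FQ_nonempty ⟨h.1, h.2⟩).continuous⟩
      left_inv := fun f => Subtype.ext (congrArg DFunLike.coe (S_T FQ_nonempty ⟨f.1, f.2⟩))
      right_inv := fun h => Subtype.ext (congrArg DFunLike.coe (T_S FQ_nonempty ⟨h.1, h.2⟩)) }
  have hc : ∀ w : W FQ ⊕ Unit, Continuous fun f : {f : W FQ ⊕ Unit → ℝ // Continuous f} => f.1 w :=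
    fun w => (continuous_apply w).comp continuous_subtype_val
  have hc' : ∀ w : Tree ⊕ Y0 FQ, Continuous
      fun f : {f : Tree ⊕ Y0 FQ → ℝ // Continuous f} => f.1 w :=
    fun w => (continuous_apply w).comp continuous_subtype_val
  refine ⟨⟨e, ?_, ?_⟩, ?_⟩
  · refine Continuous.subtype_mk (continuous_pi fun y => ?_) _
    obtain ⟨a, b, c, r, s, h⟩ := T_finite (F := FQ) y
    have : (fun f : {f : W FQ ⊕ Unit → ℝ // Continuous f} => T FQ ⟨f.1, f.2⟩ y) =
        fun f => f.1 a + r * f.1 b + s * f.1 c := by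
      funext f
      exact h _
    rw [this]
    exact ((hc a).add (continuous_const.mul (hc b))).add (continuous_const.mul (hc c))
  · refine Continuous.subtype_mk (continuous_pi fun y => ?_) _
    obtain ⟨a, b, c, r, s, h⟩ := S_finite FQ_nonempty y
    have : (fun f : {f : Tree ⊕ Y0 FQ → ℝ // Continuous f} =>
        S FQ_nonempty ⟨f.1, f.2⟩ y) = fun f => f.1 a + r * f.1 b + s * f.1 c := by
      funext f
      exact h _
    rw [this]
    exact ((hc' a).add (continuous_const.mul (hc' b))).add (continuous_const.mul (hc' c))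
  · intro k f g h hh
    funext y
    obtain ⟨a, b, c, r, s, hT⟩ := T_finite (F := FQ) y
    have h1 := hT ⟨f.1, f.2⟩
    have h2 := hT ⟨g.1, g.2⟩
    have h3 := hT ⟨h.1, h.2⟩
    have hv : ∀ w, h.1 w = k * f.1 w + g.1 w := fun w => by
      rw [hh]
      rfl
    simp only [ContinuousMap.coe_mk] at h1 h2 h3
    change T FQ ⟨h.1, h.2⟩ y = k * T FQ ⟨f.1, f.2⟩ y + T FQ ⟨g.1, g.2⟩ y
    rw [h1, h2, h3, hv a, hv b, hv c]
    ring

end Pool.Agent.S13696
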