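import Pool.Statements.S13790

set_option autoImplicit false
open Pool Pool.MP_b4086f_gt

namespace Pool.Agent.S13790

section Aux

/-- enumeration of pairs -/
noncomputable def code (q : ℚ) (n : ℕ) : ℕ := (Denumerable.eqv (ℚ × ℕ)) (q, n)

/-- the pair with a given number -/
noncomputable def mw (s : ℕ) : ℚ × ℕ := (Denumerable.eqv (ℚ × ℕ)).symm s

theorem mw_code (q : ℚ) (n : ℕ) : mw (code q n) = (q, n) := by
  simp [mw, code]

/-- centre -/
noncomputable def m (s : ℕ) : ℝ := ((mw s).1 : ℝ)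

/-- half width -/
noncomputable def w (s : ℕ) : ℝ := 1 / (((mw s).2 : ℝ) + 1)

theorem w_pos (s : ℕ) : 0 < w s := by
  unfold w; positivity

theorem m_code (q : ℚ) (n : ℕ) : m (code q n) = q := by simp [m, mw_code]

theorem w_code (q : ℚ) (n : ℕ) : w (code q n) = 1 / ((n : ℝ) + 1) := by simp [w, mw_code]

theorem exists_big_of_inj (f : ℕ → ℕ) (hf : Function.Injective f) (N : ℕ) : ∃ n, N ≤ f n := by
  obtain ⟨b, ⟨n, rfl⟩, hb⟩ := (Set.infinite_range_of_injective hf).exists_gt N
  exact ⟨n, hb.le⟩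

theorem code_inj {q q' : ℚ} {n n' : ℕ} (h : code q n = code q' n') : n = n' := by
  have := congrArg mw h
  rw [mw_code, mw_code] at this
  exact (Prod.mk.inj this).2

theorem exists_rat_near (c δ : ℝ) (hδ : 0 < δ) : ∃ q : ℚ, |(q : ℝ) - c| < δ := by
  obtain ⟨q, h1, h2⟩ := exists_rat_btwn (show c - δ < c + δ by linarith)
  exact ⟨q, by rw [abs_lt]; constructor <;> linarith⟩

theorem exists_m (c δ : ℝ) (hδ : 0 < δ) (N : ℕ) : ∃ i, N ≤ i ∧ |m i - c| < δ := by
  obtain ⟨q, hq⟩ := exists_rat_near c δ hδ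
  obtain ⟨n, hn⟩ := exists_big_of_inj (fun n => code q n) (fun a b h => code_inj h) N
  exact ⟨code q n, hn, by rw [m_code]; exact hq⟩

theorem exists_small (c δ : ℝ) (hδ : 0 < δ) : ∃ s, |m s - c| + w s < δ := by
  obtain ⟨q, hq⟩ := exists_rat_near c (δ / 2) (by linarith)
  obtain ⟨n, hn⟩ := exists_nat_one_div_lt (show (0 : ℝ) < δ / 2 by linarith)
  exact ⟨code q n, by rw [m_code, w_code]; linarith⟩

theorem exists_wide (p : ℝ) (N : ℕ) : ∃ s, N ≤ s ∧ |p - m s| < w s := by
  have h : ∀ n : ℕ, ∃ q : ℚ, |(q : ℝ) - p| < 1 / ((n : ℝ) + 1) := fun n =>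
    exists_rat_near p _ (by positivity)
  choose q hq using h
  obtain ⟨n, hn⟩ := exists_big_of_inj (fun n => code (q n) n) (fun a b h => code_inj h) N
  refine ⟨code (q n) n, hn, ?_⟩
  rw [m_code, w_code, abs_sub_comm]
  exact hq n

/-- bump -/
noncomputable def g (s : ℕ) (r v : ℝ) : ℝ :=
  max 0 (1 - (1 + r ^ 2) * |v - (m s + w s * Real.sin r)|)

theorem g_nonneg (s : ℕ) (r v : ℝ) : 0 ≤ g s r v := le_max_left _ _

theorem g_le_one (s : ℕ) (r v : ℝ) : g s r v ≤ 1 := by
  refine max_le zero_le_one ?_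
  have : 0 ≤ (1 + r ^ 2) * |v - (m s + w s * Real.sin r)| := by positivity
  linarith

/-- product of complementary bumps -/
noncomputable def phi (i : ℕ) (x : ℕ → ℝ) : ℝ :=
  ∏ s ∈ Finset.range (i + 1), (1 - g s (x (s + 1)) (m i))

theorem phi_nonneg (i : ℕ) (x : ℕ → ℝ) : 0 ≤ phi i x :=
  Finset.prod_nonneg fun s _ => by have := g_le_one s (x (s + 1)) (m i); linarith

theorem phi_le (i : ℕ) (x : ℕ → ℝ) (s : ℕ) (hs : s ≤ i) :
    phi i x ≤ 1 - g s (x (s + 1)) (m i) := by
  unfold phi
  rw [← Finset.mul_prod_erase _ _ (Finset.mem_range.mpr (Nat.lt_succ_of_le hs))]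
  have h1 : 0 ≤ 1 - g s (x (s + 1)) (m i) := by
    have := g_le_one s (x (s + 1)) (m i); linarith
  have h2 : ∏ t ∈ (Finset.range (i + 1)).erase s, (1 - g t (x (t + 1)) (m i)) ≤ 1 := by
    apply Finset.prod_le_one
    · intro t _
      have := g_le_one t (x (t + 1)) (m i); linarith
    · intro t _
      have := g_nonneg t (x (t + 1)) (m i); linarith
  nlinarith

theorem phi_le' (i : ℕ) (x : ℕ → ℝ) (s : ℕ) (hs : s ≤ i) :
    phi i x ≤ (1 + (x (s + 1)) ^ 2) * |m i - (m s + w s * Real.sin (x (s + 1)))| := by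
  have h1 := phi_le i x s hs
  have h2 : 1 - (1 + (x (s + 1)) ^ 2) * |m i - (m s + w s * Real.sin (x (s + 1)))| ≤
    g s (x (s + 1)) (m i) := le_max_right _ _
  linarith

theorem phi_eq_one (i : ℕ) (x : ℕ → ℝ)
    (h : ∀ s, 1 ≤ (1 + (x (s + 1)) ^ 2) * |m i - (m s + w s * Real.sin (x (s + 1)))|) :
    phi i x = 1 := by
  unfold phi
  apply Finset.prod_eq_one
  intro s _
  have : g s (x (s + 1)) (m i) = 0 := by
    unfold g
    apply max_eq_left
    have := h s
    linarith
  rw [this]; ring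

theorem continuous_phi (i : ℕ) : Continuous (phi i) := by
  unfold phi g
  refine continuous_finsetProd _ fun s _ => ?_
  fun_prop

/-- the functions -/
noncomputable def F (i : ℕ) : {f : (ℕ → ℝ) → ℝ // Continuous f} :=
  ⟨fun x => m i + x 0 * phi i x, by
    have := continuous_phi i
    fun_prop⟩

/-- the set -/
def A : Set {f : (ℕ → ℝ) → ℝ // Continuous f} := Set.range F

theorem F_apply (i : ℕ) (x : ℕ → ℝ) : (F i).1 x = m i + x 0 * phi i x := rfl

theorem F_zero (i : ℕ) : (F i).1 0 = m i := by simp [F_apply]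

/-- constant functions -/
def cst (p : ℝ) : {f : (ℕ → ℝ) → ℝ // Continuous f} := ⟨fun _ => p, continuous_const⟩

/-- For finitely many points and a nonempty interval there is a subinterval on which late
functions are close to the constants. -/
theorem shrink (S : Finset (ℕ → ℝ)) (η : ℝ) (hη : 0 < η) (c δ : ℝ) (hδ : 0 < δ) :
    ∃ c' δ' : ℝ, ∃ N : ℕ, 0 < δ' ∧ |c' - c| + δ' ≤ δ ∧
      ∀ i, N ≤ i → |m i - c'| < δ' → ∀ x ∈ S, |x 0| * phi i x < η := by
  classical
  induction S using Finset.induction_on generalizing c δ with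
  | empty => exact ⟨c, δ, 0, hδ, by simp, by simp⟩
  | insert y S hy ih =>
    obtain ⟨c1, δ1, N1, hδ1, hc1, h1⟩ := ih c δ hδ
    obtain ⟨s, hs⟩ := exists_small c1 δ1 hδ1
    set r := y (s + 1) with hr
    set c2 := m s + w s * Real.sin r with hc2
    have hw := w_pos s
    have hcc : |c2 - c1| < δ1 := by
      have : |c2 - c1| ≤ |m s - c1| + w s := by
        have e : c2 - c1 = (m s - c1) + w s * Real.sin r := by rw [hc2]; ring
        rw [e]
        refine (abs_add_le _ _).trans ?_
        have : |w s * Real.sin r| ≤ w s := by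
          rw [abs_mul, abs_of_pos hw]
          have := Real.abs_sin_le_one r
          nlinarith
        linarith
      linarith
    set D : ℝ := (|y 0| + 1) * (1 + r ^ 2) with hD
    have hDpos : 0 < D := by positivity
    refine ⟨c2, min (δ1 - |c2 - c1|) (η / D), max N1 s, ?_, ?_, ?_⟩
    · exact lt_min (by linarith) (by positivity)
    · have h3 : |c2 - c| ≤ |c2 - c1| + |c1 - c| := abs_sub_le _ _ _
      have h4 := min_le_left (δ1 - |c2 - c1|) (η / D)
      linarith
    · intro i hi hmi x hx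
      have hN1 : N1 ≤ i := le_trans (le_max_left _ _) hi
      have hsi : s ≤ i := le_trans (le_max_right _ _) hi
      have hmi1 : |m i - c2| < δ1 - |c2 - c1| := lt_of_lt_of_le hmi (min_le_left _ _)
      have hmi2 : |m i - c2| < η / D := lt_of_lt_of_le hmi (min_le_right _ _)
      rcases Finset.mem_insert.mp hx with rfl | hx
      · have h5 := phi_le' i x s hsi
        rw [← hr, ← hc2] at h5
        have h6 : |m i - c2| * D < η := (lt_div_iff₀ hDpos).mp hmi2
        have h7 := abs_nonneg (x 0)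
        have h8 := abs_nonneg (m i - c2)
        have h9 : |x 0| * phi i x ≤ |x 0| * ((1 + r ^ 2) * |m i - c2|) :=
          mul_le_mul_of_nonneg_left h5 h7
        have h10 : |x 0| * ((1 + r ^ 2) * |m i - c2|) ≤ |m i - c2| * D := by
          rw [hD]
          have : 0 ≤ (1 + r ^ 2) * |m i - c2| := by positivity
          nlinarith
        linarith
      · apply h1 i hN1 _ x hx
        have : |m i - c1| ≤ |m i - c2| + |c2 - c1| := abs_sub_le _ _ _
        linarith

theorem exists_pos_le {ι : Type} (I : Finset ι) (e : ι → ℝ) (he : ∀ x ∈ I, 0 < e x) :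
    ∃ d : ℝ, 0 < d ∧ ∀ x ∈ I, d ≤ e x := by
  classical
  induction I using Finset.induction_on with
  | empty => exact ⟨1, one_pos, by simp⟩
  | insert y S hy ih =>
    obtain ⟨d, hd, h⟩ := ih fun x hx => he x (Finset.mem_insert_of_mem hx)
    refine ⟨min d (e y), lt_min hd (he y (Finset.mem_insert_self _ _)), ?_⟩
    intro x hx
    rcases Finset.mem_insert.mp hx with rfl | hx
    · exact min_le_right _ _
    · exact (min_le_left _ _).trans (h x hx)

theorem mem_closure_fun (S : Set {f : (ℕ → ℝ) → ℝ // Continuous f})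
    (f : {f : (ℕ → ℝ) → ℝ // Continuous f}) :
    f ∈ closure S ↔ ∀ (T : Finset (ℕ → ℝ)) (e : ℝ), 0 < e →
      ∃ h ∈ S, ∀ x ∈ T, |h.1 x - f.1 x| < e := by
  rw [mem_closure_iff]
  constructor
  · intro H T e he
    have hopen : IsOpen (⋂ x ∈ T, {h : {f : (ℕ → ℝ) → ℝ // Continuous f} |
        |h.1 x - f.1 x| < e}) := by
      refine isOpen_biInter_finset fun x _ => ?_
      have hc : Continuous fun h : {f : (ℕ → ℝ) → ℝ // Continuous f} => |h.1 x - f.1 x| := by
        have : Continuous fun h : {f : (ℕ → ℝ) → ℝ // Continuous f} => h.1 x :=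
          (continuous_apply x).comp continuous_subtype_val
        exact (this.sub continuous_const).abs
      exact isOpen_lt hc continuous_const
    obtain ⟨h, h1, h2⟩ := H _ hopen (by simp [he])
    refine ⟨h, h2, fun x hx => ?_⟩
    have := Set.mem_iInter₂.mp h1 x hx
    exact this
  · intro H U hU hf
    obtain ⟨V, hV, rfl⟩ := isOpen_induced_iff.mp hU
    obtain ⟨I, u, hu, hI⟩ := isOpen_pi_iff.mp hV f.1 hf
    have h1 : ∀ x, ∃ e : ℝ, x ∈ I → 0 < e ∧ Metric.ball (f.1 x) e ⊆ u x := by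
      intro x
      by_cases hx : x ∈ I
      · obtain ⟨e, he, hb⟩ := Metric.isOpen_iff.mp (hu x hx).1 _ (hu x hx).2
        exact ⟨e, fun _ => ⟨he, hb⟩⟩
      · exact ⟨0, fun h => absurd h hx⟩
    choose e he using h1
    obtain ⟨d, hd, hde⟩ := exists_pos_le I e fun x hx => (he x hx).1
    obtain ⟨h, hS, hh⟩ := H I d hd
    refine ⟨h, hI ?_, hS⟩
    intro x hx
    apply (he x hx).2
    rw [Metric.mem_ball, Real.dist_eq]
    exact lt_of_lt_of_le (hh x hx) (hde x hx)

/-- Constants are limits of the family. -/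
theorem cst_mem_closure (p : ℝ) : cst p ∈ closure A := by
  rw [mem_closure_fun]
  intro T e he
  obtain ⟨c', δ', N, hδ', hc, h⟩ := shrink T (e / 2) (by linarith) p (e / 2) (by linarith)
  obtain ⟨i, hiN, hi⟩ := exists_m c' δ' hδ' N
  refine ⟨F i, ⟨i, rfl⟩, fun x hx => ?_⟩
  have h1 := h i hiN hi x hx
  have h2 : (F i).1 x - (cst p).1 x = (m i - p) + x 0 * phi i x := by
    rw [F_apply]; simp [cst]; ring
  rw [h2]
  have h3 : |m i - p| ≤ |m i - c'| + |c' - p| := abs_sub_le _ _ _
  have h4 : |x 0 * phi i x| = |x 0| * phi i x := by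
    rw [abs_mul, abs_of_nonneg (phi_nonneg i x)]
  have h5 := abs_add_le (m i - p) (x 0 * phi i x)
  linarith

theorem sin_arcsin' (s : ℕ) (p : ℝ) (h : |p - m s| < w s) :
    m s + w s * Real.sin (Real.arcsin ((p - m s) / w s)) = p := by
  have hw := w_pos s
  rw [abs_lt] at h
  rw [Real.sin_arcsin]
  · field_simp; ring
  · rw [le_div_iff₀ hw]; linarith
  · rw [div_le_iff₀ hw]; linarith

theorem closure_const (f : {f : (ℕ → ℝ) → ℝ // Continuous f}) (hf : f ∈ closure A)
    (hfA : f ∉ A) : ∀ y, f.1 y = f.1 0 := by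
  classical
  intro y
  by_contra hne
  set p := f.1 0 with hp
  set κ := |f.1 y - p| / 2 with hκ
  have hκpos : 0 < κ := by
    have : 0 < |f.1 y - p| := abs_pos.mpr (sub_ne_zero.mpr hne)
    rw [hκ]; linarith
  have hopen : IsOpen {x : ℕ → ℝ | |f.1 x - f.1 y| < κ} := by
    have := f.2
    exact isOpen_lt ((this.sub continuous_const).abs) continuous_const
  obtain ⟨I, u, hu, hI⟩ := isOpen_pi_iff.mp hopen y (by simp [hκpos])
  obtain ⟨s, hs, hps⟩ := exists_wide p (I.sup id)
  set r := Real.arcsin ((p - m s) / w s) with hr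
  have hsin := sin_arcsin' s p hps
  rw [← hr] at hsin
  set x := Function.update y (s + 1) r with hx
  have hxr : x (s + 1) = r := by simp [hx]
  have hfx : |f.1 x - f.1 y| < κ := by
    apply hI
    intro a ha
    have h1 : a ≤ s := le_trans (Finset.le_sup (f := id) ha) hs
    have h2 : x a = y a := by
      rw [hx, Function.update_of_ne (by omega)]
    rw [h2]
    exact (hu a ha).2
  have hsplit : A = F '' {i | i < s} ∪ F '' {i | s ≤ i} := by
    rw [← Set.image_union, A, ← Set.image_univ]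
    congr 1
    ext i
    simp [lt_or_ge]
  have hfcl : f ∈ closure (F '' {i | s ≤ i}) := by
    rw [hsplit, closure_union] at hf
    rcases hf with hf | hf
    · exfalso
      have hfin : (F '' {i | i < s}).Finite := (Set.finite_lt_nat s).image _
      rw [hfin.isClosed.closure_eq] at hf
      obtain ⟨i, -, hi⟩ := hf
      exact hfA ⟨i, hi⟩
    · exact hf
  set D : ℝ := 2 + |x 0| * (1 + r ^ 2) with hD
  have hDpos : 0 < D := by positivity
  obtain ⟨h, ⟨i, hi, rfl⟩, hclose⟩ := (mem_closure_fun _ _).mp hfcl {0, x} (κ / D)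
    (by positivity)
  have h0 := hclose 0 (by simp)
  have h1 := hclose x (by simp)
  rw [F_zero, ← hp] at h0
  have h2 := phi_le' i x s hi
  rw [hxr, hsin] at h2
  have h3 : (F i).1 x - m i = x 0 * phi i x := by rw [F_apply]; ring
  have h4 : |(F i).1 x - m i| ≤ |x 0| * ((1 + r ^ 2) * |m i - p|) := by
    rw [h3, abs_mul, abs_of_nonneg (phi_nonneg i x)]
    exact mul_le_mul_of_nonneg_left h2 (abs_nonneg _)
  have h5 : |x 0| * ((1 + r ^ 2) * |m i - p|) ≤ (|x 0| * (1 + r ^ 2)) * (κ / D) := by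
    rw [← mul_assoc]
    exact mul_le_mul_of_nonneg_left h0.le (by positivity)
  have h6 : |f.1 x - p| ≤ |(F i).1 x - f.1 x| + |(F i).1 x - m i| + |m i - p| := by
    have e : f.1 x - p = -((F i).1 x - f.1 x) + ((F i).1 x - m i) + (m i - p) := by ring
    rw [e]
    refine (abs_add_three _ _ _).trans ?_
    rw [abs_neg]
  have h7 : κ / D * D = κ := div_mul_cancel₀ _ hDpos.ne'
  have h8 : |f.1 x - p| < κ := by
    have : κ / D + (|x 0| * (1 + r ^ 2)) * (κ / D) + κ / D = κ := by
      rw [← h7, hD]; field_simp; ring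
    linarith
  have h9 : |f.1 y - p| ≤ |f.1 x - f.1 y| + |f.1 x - p| := by
    have : f.1 y - p = -(f.1 x - f.1 y) + (f.1 x - p) := by ring
    rw [this]
    refine (abs_add_le _ _).trans ?_
    rw [abs_neg]
  linarith

theorem exists_param (s : ℕ) (c δ : ℝ) (hc : |c - m s| ≤ w s) (hδ : 0 < δ) :
    ∃ r : ℝ, m s + w s * Real.sin r = c ∧ 1 ≤ (1 + r ^ 2) * δ := by
  have hw := w_pos s
  obtain ⟨k, hk⟩ := exists_nat_gt (1 / δ)
  set a := Real.arcsin ((c - m s) / w s) with ha
  refine ⟨a + ((k + 1 : ℕ) : ℝ) * (2 * Real.pi), ?_, ?_⟩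
  · rw [Real.sin_add_nat_mul_two_pi, ha]
    rw [abs_le] at hc
    rw [Real.sin_arcsin]
    · field_simp; ring
    · rw [le_div_iff₀ hw]; linarith
    · rw [div_le_iff₀ hw]; linarith
  · have h1 : -(Real.pi / 2) ≤ a := Real.neg_pi_div_two_le_arcsin _
    have h2 : (3 : ℝ) < Real.pi := Real.pi_gt_three
    have hk0 : (0 : ℝ) ≤ k := Nat.cast_nonneg k
    have h3 : (k : ℝ) + 1 ≤ a + ((k + 1 : ℕ) : ℝ) * (2 * Real.pi) := by
      push_cast
      nlinarith
    have h4 : (k : ℝ) ≤ 1 + (a + ((k + 1 : ℕ) : ℝ) * (2 * Real.pi)) ^ 2 := by nlinarith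
    have h5 : 1 < k * δ := (div_lt_iff₀ hδ).mp hk
    nlinarith

theorem key (B : Set {f : (ℕ → ℝ) → ℝ // Continuous f}) (hBA : B ⊆ A)
    (f : {f : (ℕ → ℝ) → ℝ // Continuous f}) (hfA : f ∉ A) (hB : closure B = insert f B) :
    False := by
  classical
  have hfB : f ∈ closure B := by rw [hB]; exact Set.mem_insert _ _
  have hconst := closure_const f (closure_mono hBA hfB) hfA
  -- every interval contains a subinterval free of centres of members of `B`
  have hnwd : ∀ c δ : ℝ, 0 < δ → ∃ c' δ' : ℝ, 0 < δ' ∧ |c' - c| + δ' ≤ δ ∧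
      ∀ i, F i ∈ B → δ' ≤ |m i - c'| := by
    intro c δ hδ
    obtain ⟨q, hqirr, hq1, hq2⟩ : ∃ q : ℝ, Irrational q ∧ |q - c| < δ ∧ q ≠ f.1 0 := by
      obtain ⟨q1, h1, h2, h3⟩ := exists_irrational_btwn (show c < c + δ by linarith)
      obtain ⟨q2, h4, h5, h6⟩ := exists_irrational_btwn (show c - δ < c by linarith)
      by_cases h : q1 = f.1 0
      · refine ⟨q2, h4, ?_, ?_⟩
        · rw [abs_lt]; constructor <;> linarith
        · rw [← h]; linarith
      · exact ⟨q1, h1, by rw [abs_lt]; constructor <;> linarith, h⟩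
    have hqcl : cst q ∉ closure B := by
      rw [hB]
      rintro (h | h)
      · apply hq2
        rw [← h]; rfl
      · obtain ⟨i, hi⟩ := hBA h
        have h1 : (F i).1 0 = q := by rw [hi]; rfl
        rw [F_zero] at h1
        rw [← h1] at hqirr
        exact hqirr ⟨(mw i).1, rfl⟩
    rw [mem_closure_fun] at hqcl
    push Not at hqcl
    obtain ⟨T, e, he, hT⟩ := hqcl
    obtain ⟨c1, δ1, N, hδ1, hc1, h1⟩ := shrink T (e / 2) (by linarith) q
      (min (δ - |q - c|) (e / 2)) (lt_min (by linarith) (by linarith))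
    have h2 : ∀ i, N ≤ i → |m i - c1| < δ1 → F i ∉ B := by
      intro i hi hmi hFB
      obtain ⟨x, hx, hxe⟩ := hT (F i) hFB
      have h3 := h1 i hi hmi x hx
      have h4 : (F i).1 x - (cst q).1 x = (m i - q) + x 0 * phi i x := by
        rw [F_apply]; simp [cst]; ring
      rw [h4] at hxe
      have h5 : |m i - q| ≤ |m i - c1| + |c1 - q| := abs_sub_le _ _ _
      have h6 : |x 0 * phi i x| = |x 0| * phi i x := by
        rw [abs_mul, abs_of_nonneg (phi_nonneg i x)]
      have h7 := abs_add_le (m i - q) (x 0 * phi i x)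
      have h8 := min_le_right (δ - |q - c|) (e / 2)
      linarith
    -- avoid the finitely many remaining centres
    obtain ⟨c2, h3, h4⟩ : ∃ c2 : ℝ, |c2 - c1| < δ1 ∧ ∀ i < N, m i ≠ c2 := by
      obtain ⟨q1, h5, h6, h7⟩ := exists_irrational_btwn (show c1 < c1 + δ1 by linarith)
      refine ⟨q1, by rw [abs_lt]; constructor <;> linarith, fun i _ h => ?_⟩
      rw [← h] at h5
      exact h5 ⟨(mw i).1, rfl⟩
    obtain ⟨d, hd, hdN⟩ := exists_pos_le (Finset.range N) (fun i => |m i - c2|)
      (fun i hi => abs_pos.mpr (sub_ne_zero.mpr (h4 i (Finset.mem_range.mp hi))))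
    refine ⟨c2, min d (δ1 - |c2 - c1|), lt_min hd (by linarith), ?_, ?_⟩
    · have h5 := min_le_right d (δ1 - |c2 - c1|)
      have h6 := min_le_left (δ - |q - c|) (e / 2)
      have h7 : |c2 - c| ≤ |c2 - c1| + |c1 - c| := abs_sub_le _ _ _
      have h8 : |c1 - c| ≤ |c1 - q| + |q - c| := abs_sub_le _ _ _
      linarith
    · intro i hi
      by_contra hlt
      push Not at hlt
      by_cases hiN : i < N
      · have h9 : d ≤ |m i - c2| := hdN i (Finset.mem_range.mpr hiN)
        have h10 := min_le_left d (δ1 - |c2 - c1|)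
        linarith
      · refine h2 i (not_lt.mp hiN) ?_ hi
        have h5 := min_le_right d (δ1 - |c2 - c1|)
        have h6 : |m i - c1| ≤ |m i - c2| + |c2 - c1| := abs_sub_le _ _ _
        linarith
  choose c' hc' using fun s => hnwd (m s) (w s) (w_pos s)
  choose δ' hδ' hcw hfree using hc'
  choose r hr1 hr2 using fun s => exists_param s (c' s) (δ' s)
    (by have := hcw s; have := hδ' s; linarith) (hδ' s)
  set x : ℕ → ℝ := fun n => Nat.casesOn n 1 r with hx
  have hx0 : x 0 = 1 := rfl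
  have hxs : ∀ s, x (s + 1) = r s := fun s => rfl
  have hall : ∀ h ∈ B, h.1 x - h.1 0 = 1 := by
    intro h hh
    obtain ⟨i, rfl⟩ := hBA hh
    have hphi : phi i x = 1 := by
      apply phi_eq_one
      intro s
      rw [hxs, hr1]
      have h1 := hfree s i hh
      have h2 := hr2 s
      have h3 : 0 ≤ 1 + r s ^ 2 := by positivity
      nlinarith
    rw [F_zero, F_apply, hphi, hx0]; ring
  obtain ⟨h, hhB, hh⟩ := (mem_closure_fun B f).mp hfB {0, x} (1 / 2) (by norm_num)
  have h0 := hh 0 (by simp)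
  have h1 := hh x (by simp)
  have h2 := hall h hhB
  have h3 := hconst x
  rw [abs_lt] at h0 h1
  linarith [h0.1, h0.2, h1.1, h1.2]

theorem not_closed : ¬ IsClosed A := by
  intro h
  have h1 := cst_mem_closure (Real.sqrt 2)
  rw [h.closure_eq] at h1
  obtain ⟨i, hi⟩ := h1
  have h2 : (F i).1 0 = Real.sqrt 2 := by rw [hi]; rfl
  rw [F_zero] at h2
  exact irrational_sqrt_two ⟨(mw i).1, h2⟩

end Aux

/-- The negation of the preceding statement: In the space of continuous real functions on the countable power of the reals, with the pointwise topology, every non-closed set A contains a subset B whose closure is B plus exactly one point lying outside A. -/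
theorem result :
    ¬ (∀ A : Set {f : (ℕ → ℝ) → ℝ // Continuous f}, ¬ IsClosed A →
      ∃ B : Set {f : (ℕ → ℝ) → ℝ // Continuous f}, B ⊆ A ∧
        ∃ x : {f : (ℕ → ℝ) → ℝ // Continuous f}, x ∉ A ∧ closure B = insert x B) := by
  intro H
  obtain ⟨B, hBA, f, hfA, hB⟩ := H A not_closed
  exact key B hBA f hfA hB

end Pool.Agent.S13790
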