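import Pool.Statements.S14094
import Pool.Agent.Helper89.SGroupM

set_option autoImplicit false
open Pool Pool.MP_de3f93_gt

namespace Pool.Agent.S14094

/-- The negation of the preceding statement: Every Hausdorff topological group of countable tightness that is an s-group and whose closed subgroups are all s-groups (sequentially continuous homomorphisms into Hausdorff groups are continuous) is a sequential space. -/
theorem result :
    ¬ (∀ (G : Type) [Group G] [TopologicalSpace G] [IsTopologicalGroup G] [T2Space G],
      (∀ (H : Type) [Group H] [TopologicalSpace H] [IsTopologicalGroup H] [T2Space H]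
          (f : G →* H), SeqContinuous (f : G → H) → Continuous (f : G → H)) →
      (∀ (A : Set G), ∀ x ∈ closure A, ∃ B : Set G, B ⊆ A ∧ B.Countable ∧ x ∈ closure B) →
      (∀ K : Subgroup G, IsClosed (K : Set G) →
        ∀ (H : Type) [Group H] [TopologicalSpace H] [IsTopologicalGroup H] [T2Space H]
          (f : K →* H), SeqContinuous (f : K → H) → Continuous (f : K → H)) →
      SequentialSpace G) := by
  intro hall
  have key : ∀ K : Subgroup (Pool.Agent.Helper89.SG.M × Pool.Agent.Helper89.SG.F),
      IsClosed (K : Set (Pool.Agent.Helper89.SG.M × Pool.Agent.Helper89.SG.F)) →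
        ∀ (H : Type) [Group H] [TopologicalSpace H] [IsTopologicalGroup H] [T2Space H]
          (f : K →* H), SeqContinuous (f : K → H) → Continuous (f : K → H) := by
    intro K hK H _ _ _ _ f hf
    exact Pool.Agent.Helper89.SG.sgroup_closed Pool.Agent.Helper89.SG.M.sq
      Pool.Agent.Helper89.SG.F.cube K hK H f hf
  refine Pool.Agent.Helper89.SG.not_sequential (hall _ ?_ ?_ key)
  · intro H _ _ _ _ f hf
    have h1 := key ⊤ isClosed_univ H (f.comp (Subgroup.subtype ⊤)) (by
      intro u p hu
      exact hf ((continuous_subtype_val.tendsto p).comp hu))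
    have h2 : (f : Pool.Agent.Helper89.SG.M × Pool.Agent.Helper89.SG.F → H) =
        (f.comp (Subgroup.subtype ⊤) : (⊤ : Subgroup _) → H) ∘
          fun x => (⟨x, Subgroup.mem_top x⟩ : (⊤ : Subgroup _)) := rfl
    rw [h2]
    exact h1.comp (continuous_id.subtype_mk _)
  · intro A x hx
    exact ⟨A, subset_rfl, A.to_countable, hx⟩

end Pool.Agent.S14094
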