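import Pool.Statements.S14689
import Pool.Agent.Helper11.PP.Assemble
import Pool.Agent.Helper11.PP.Tukey

set_option autoImplicit false
open Pool Pool.MP_505789_lc

namespace Pool.Agent.S14689

/-- Assuming MA(σ-centered), every partial order of size at most 2^c with all initial segments of size at most c maps into the P-points so that x ≤ y iff the image of x is RK-below the image of y, and also iff it is Tukey-below it. -/
theorem result :
    (∀ (P : Type) [Preorder P],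
        (∃ C : ℕ → Set P, (⋃ n, C n) = Set.univ ∧
            ∀ n, ∀ F : Finset P, (↑F : Set P) ⊆ C n → ∃ r : P, ∀ p ∈ F, r ≤ p) →
        ∀ 𝒟 : Set (Set P), Cardinal.mk 𝒟 < Cardinal.continuum →
          (∀ D ∈ 𝒟, ∀ p : P, ∃ q ∈ D, q ≤ p) →
          ∃ G : Set P, G.Nonempty ∧ (∀ p ∈ G, ∀ q : P, p ≤ q → q ∈ G) ∧
            (∀ p ∈ G, ∀ q ∈ G, ∃ r ∈ G, r ≤ p ∧ r ≤ q) ∧
            ∀ D ∈ 𝒟, (D ∩ G).Nonempty) →
    ∀ (X : Type) [PartialOrder X],
      Cardinal.mk X ≤ (2 : Cardinal) ^ Cardinal.continuum →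
      (∀ x : X, Cardinal.mk (Set.Iic x) ≤ Cardinal.continuum) →
      ∃ e : X → Ultrafilter ℕ,
        (∀ x : X, (∀ s : Set ℕ, s.Finite → s ∉ e x) ∧
            ∀ A : ℕ → Set ℕ, (∀ n, A n ∈ e x) →
              ∃ B ∈ e x, ∀ n, (B \ A n).Finite) ∧
        (∀ x y : X, x ≤ y ↔ ∃ f : ℕ → ℕ, Ultrafilter.map f (e y) = e x) ∧
        (∀ x y : X, x ≤ y ↔
          ∃ g : Set ℕ → Set ℕ, (∀ A ∈ e y, g A ∈ e x) ∧
            ∀ 𝒳 : Set (Set ℕ), (∀ C ∈ 𝒳, C ∈ e y) →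
              (∀ A ∈ e y, ∃ C ∈ 𝒳, C ⊆ A) →
              ∀ B ∈ e x, ∃ C ∈ 𝒳, g C ⊆ B) := by
  intro hMA X _ hX hI
  exact Pool.Agent.Helper11.PP.main Pool.Agent.Helper11.PP.st_tukey hMA X hX hI

end Pool.Agent.S14689
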