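import Pool.Statements.S14965
import Pool.Agent.Helper69.MWF.FROZEN

set_option autoImplicit false
open Pool Pool.MP_80e84b_lc

namespace Pool.Agent.S14965

/-- Every automorphism of the Muchnik lattice (given as a map on mass problems preserving and reflecting weak reducibility, onto up to equivalence) sends each weak degree of {f : A is c.e. in f} to the weak degree of {f : B is c.e. in f} for some set B. -/
theorem result :
    ∀ Φ : Set (ℕ → ℕ) → Set (ℕ → ℕ),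
      (∀ 𝒜 ℬ : Set (ℕ → ℕ),
        (∀ f ∈ ℬ, ∃ g ∈ 𝒜, TuringReducible (PFun.lift g) (PFun.lift f)) ↔
          (∀ f ∈ Φ ℬ, ∃ g ∈ Φ 𝒜, TuringReducible (PFun.lift g) (PFun.lift f))) →
      (∀ 𝒞 : Set (ℕ → ℕ), ∃ 𝒜 : Set (ℕ → ℕ),
        (∀ f ∈ 𝒞, ∃ g ∈ Φ 𝒜, TuringReducible (PFun.lift g) (PFun.lift f)) ∧
          (∀ f ∈ Φ 𝒜, ∃ g ∈ 𝒞, TuringReducible (PFun.lift g) (PFun.lift f))) →
      ∀ A : Set ℕ, ∃ B : Set ℕ,
        (∀ f ∈ {h : ℕ → ℕ | ∃ p : ℕ →. ℕ, TuringReducible p (PFun.lift h) ∧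
                  ∀ n, n ∈ B ↔ (p n).Dom},
            ∃ g ∈ Φ {h : ℕ → ℕ | ∃ p : ℕ →. ℕ, TuringReducible p (PFun.lift h) ∧
                  ∀ n, n ∈ A ↔ (p n).Dom},
              TuringReducible (PFun.lift g) (PFun.lift f)) ∧
        (∀ f ∈ Φ {h : ℕ → ℕ | ∃ p : ℕ →. ℕ, TuringReducible p (PFun.lift h) ∧
                  ∀ n, n ∈ A ↔ (p n).Dom},
            ∃ g ∈ {h : ℕ → ℕ | ∃ p : ℕ →. ℕ, TuringReducible p (PFun.lift h) ∧
                  ∀ n, n ∈ B ↔ (p n).Dom},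
              TuringReducible (PFun.lift g) (PFun.lift f)) := by
  intro Φ h1 h2 A
  exact Pool.Agent.Helper69.MWF.frozen Φ h1 h2 A

end Pool.Agent.S14965
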