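import Pool.Statements.S15181

set_option autoImplicit false

namespace Pool.Agent.S15181

open Set

/-- Codes for oracle computations. -/
inductive OC : Type
  | zero : OC
  | succ : OC
  | left : OC
  | right : OC
  | oracle : OC
  | pair : OC → OC → OC
  | comp : OC → OC → OC
  | prec : OC → OC → OC
  | rfind : OC → OC
  deriving Countable

instance : Nonempty OC := ⟨OC.zero⟩

/-- Evaluation of a code relative to an oracle. -/
def ev (g : ℕ →. ℕ) : OC → (ℕ →. ℕ)
  | .zero => fun _ => 0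
  | .succ => Nat.succ
  | .left => fun n => (Nat.unpair n).1
  | .right => fun n => (Nat.unpair n).2
  | .oracle => g
  | .pair a b => fun n => (Nat.pair <$> ev g a n <*> ev g b n)
  | .comp a b => fun n => ev g b n >>= ev g a
  | .prec a b => fun p =>
      let (u, n) := Nat.unpair p
      n.rec (ev g a u) fun y IH => do
        let i ← IH
        ev g b (Nat.pair u (Nat.pair y i))
  | .rfind a => fun u => Nat.rfind fun n => (fun m => m = 0) <$> ev g a (Nat.pair u n)

theorem exists_code {g f : ℕ →. ℕ} (h : Nat.RecursiveIn {g} f) : ∃ c, ev g c = f := by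
  induction h with
  | zero => exact ⟨.zero, rfl⟩
  | succ => exact ⟨.succ, rfl⟩
  | left => exact ⟨.left, rfl⟩
  | right => exact ⟨.right, rfl⟩
  | oracle g' hg => exact ⟨.oracle, by rw [Set.mem_singleton_iff.mp hg]; rfl⟩
  | pair _ _ ih1 ih2 =>
    obtain ⟨a, rfl⟩ := ih1
    obtain ⟨b, rfl⟩ := ih2
    exact ⟨.pair a b, rfl⟩
  | comp _ _ ih1 ih2 =>
    obtain ⟨a, rfl⟩ := ih1
    obtain ⟨b, rfl⟩ := ih2
    exact ⟨.comp a b, rfl⟩
  | prec _ _ ih1 ih2 =>
    obtain ⟨a, rfl⟩ := ih1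
    obtain ⟨b, rfl⟩ := ih2
    exact ⟨.prec a b, rfl⟩
  | rfind _ ih1 =>
    obtain ⟨a, rfl⟩ := ih1
    exact ⟨.rfind a, rfl⟩

theorem mem_ev_pair (g : ℕ →. ℕ) (a b : OC) (n v : ℕ) :
    v ∈ ev g (.pair a b) n ↔ ∃ u w, Nat.pair u w = v ∧ u ∈ ev g a n ∧ w ∈ ev g b n := by
  change v ∈ (Nat.pair <$> ev g a n <*> ev g b n) ↔ _
  simp only [Seq.seq, Part.map_eq_map, Part.mem_bind_iff, Part.mem_map_iff]
  constructor
  · rintro ⟨f, ⟨u, hu, rfl⟩, w, hw, rfl⟩
    exact ⟨u, w, rfl, hu, hw⟩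
  · rintro ⟨u, w, rfl, hu, hw⟩
    exact ⟨_, ⟨u, hu, rfl⟩, w, hw, rfl⟩

theorem mem_ev_comp (g : ℕ →. ℕ) (a b : OC) (n v : ℕ) :
    v ∈ ev g (.comp a b) n ↔ ∃ u, u ∈ ev g b n ∧ v ∈ ev g a u := by
  change v ∈ (Part.bind (ev g b n) (ev g a)) ↔ _
  exact Part.mem_bind_iff

theorem mem_ev_rfind (g : ℕ →. ℕ) (a : OC) (n v : ℕ) :
    v ∈ ev g (.rfind a) n ↔ 0 ∈ ev g a (Nat.pair n v) ∧
      ∀ m < v, ∃ w, w ≠ 0 ∧ w ∈ ev g a (Nat.pair n m) := by
  refine Iff.trans (Nat.mem_rfind (p := fun k => Part.map (fun m => decide (m = 0))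
    ((ev g a : ℕ → Part ℕ) (Nat.pair n k)))) ?_
  simp only [Part.mem_map_iff, decide_eq_true_eq, exists_eq_right, decide_eq_false_iff_not]
  constructor
  · rintro ⟨h1, h2⟩
    exact ⟨h1, fun m hm => by obtain ⟨w, hw, h0⟩ := h2 hm; exact ⟨w, h0, hw⟩⟩
  · rintro ⟨h1, h2⟩
    exact ⟨h1, fun {m} hm => by obtain ⟨w, h0, hw⟩ := h2 m hm; exact ⟨w, hw, h0⟩⟩

/-- The use principle, in topological form. -/
theorem isOpen_ev (c : OC) : ∀ n v : ℕ, IsOpen {x : ℕ → ℕ | v ∈ ev (PFun.lift x) c n} := by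
  induction c with
  | zero => intro n v; exact (isOpen_const : IsOpen {_x : ℕ → ℕ | v ∈ (0 : Part ℕ)})
  | succ => intro n v; exact (isOpen_const : IsOpen {_x : ℕ → ℕ | v ∈ Part.some (Nat.succ n)})
  | left => intro n v; exact (isOpen_const : IsOpen {_x : ℕ → ℕ | v ∈ Part.some (Nat.unpair n).1})
  | right => intro n v; exact (isOpen_const : IsOpen {_x : ℕ → ℕ | v ∈ Part.some (Nat.unpair n).2})
  | oracle =>
    intro n v
    have : {x : ℕ → ℕ | v ∈ ev (PFun.lift x) OC.oracle n} = (fun x : ℕ → ℕ => x n) ⁻¹' {v} := by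
      ext x
      simp [ev, PFun.lift, eq_comm]
    rw [this]
    exact (isOpen_discrete _).preimage (continuous_apply n)
  | pair a b iha ihb =>
    intro n v
    have : {x : ℕ → ℕ | v ∈ ev (PFun.lift x) (OC.pair a b) n}
        = ⋃ (u : ℕ) (w : ℕ) (_ : Nat.pair u w = v),
          ({x : ℕ → ℕ | u ∈ ev (PFun.lift x) a n} ∩ {x : ℕ → ℕ | w ∈ ev (PFun.lift x) b n}) := by
      ext x
      simp only [Set.mem_ofPred_eq, mem_ev_pair, Set.mem_iUnion, Set.mem_inter_iff, exists_prop]
    rw [this]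
    exact isOpen_iUnion fun u => isOpen_iUnion fun w => isOpen_iUnion fun _ => (iha n u).inter (ihb n w)
  | comp a b iha ihb =>
    intro n v
    have : {x : ℕ → ℕ | v ∈ ev (PFun.lift x) (OC.comp a b) n}
        = ⋃ (u : ℕ), ({x : ℕ → ℕ | u ∈ ev (PFun.lift x) b n} ∩
            {x : ℕ → ℕ | v ∈ ev (PFun.lift x) a u}) := by
      ext x
      simp [mem_ev_comp]
    rw [this]
    exact isOpen_iUnion fun u => (ihb n u).inter (iha u v)
  | prec a b iha ihb =>
    intro n v
    have key : ∀ (u m v : ℕ), IsOpen {x : ℕ → ℕ | v ∈ (Nat.rec (ev (PFun.lift x) a u)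
        (fun y IH => Part.bind IH fun i => ev (PFun.lift x) b (Nat.pair u (Nat.pair y i))) m : Part ℕ)} := by
      intro u m
      induction m with
      | zero => intro v; exact iha u v
      | succ m ihm =>
        intro v
        have : {x : ℕ → ℕ | v ∈ (Nat.rec (ev (PFun.lift x) a u)
            (fun y IH => Part.bind IH fun i => ev (PFun.lift x) b (Nat.pair u (Nat.pair y i)))
              (m + 1) : Part ℕ)}
          = ⋃ (i : ℕ), ({x : ℕ → ℕ | i ∈ (Nat.rec (ev (PFun.lift x) a u)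
            (fun y IH => Part.bind IH fun i => ev (PFun.lift x) b (Nat.pair u (Nat.pair y i))) m : Part ℕ)} ∩
            {x : ℕ → ℕ | v ∈ ev (PFun.lift x) b (Nat.pair u (Nat.pair m i))}) := by
          ext x
          simp
        rw [this]
        exact isOpen_iUnion fun i => (ihm i).inter (ihb _ v)
    exact key (Nat.unpair n).1 (Nat.unpair n).2 v
  | rfind a iha =>
    intro n v
    have : {x : ℕ → ℕ | v ∈ ev (PFun.lift x) (OC.rfind a) n}
        = {x : ℕ → ℕ | 0 ∈ ev (PFun.lift x) a (Nat.pair n v)} ∩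
          ⋂ m ∈ Finset.range v, ⋃ (w : ℕ) (_ : w ≠ 0),
            {x : ℕ → ℕ | w ∈ ev (PFun.lift x) a (Nat.pair n m)} := by
      ext x
      simp [mem_ev_rfind]
    rw [this]
    refine (iha _ 0).inter (isOpen_biInter_finset fun m _ => ?_)
    exact isOpen_iUnion fun w => isOpen_iUnion fun _ => iha _ w

/-- The conditions: functions extending `l` and majorising `g` from then on. -/
def Cn (l : List ℕ) (g : ℕ → ℕ) : Set (ℕ → ℕ) :=
  {f | (∀ i (hi : i < l.length), f i = l[i]) ∧ ∀ i, l.length ≤ i → g i ≤ f i}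

theorem Cn_nonempty (l : List ℕ) (g : ℕ → ℕ) : (Cn l g).Nonempty := by
  refine ⟨fun i => if h : i < l.length then l[i] else g i, ?_, ?_⟩
  · intro i hi
    simp [hi]
  · intro i hi
    simp [Nat.not_lt.mpr hi]

theorem Cn_mono {l : List ℕ} {g g' : ℕ → ℕ} (h : ∀ i, g i ≤ g' i) : Cn l g' ⊆ Cn l g :=
  fun _ hf => ⟨hf.1, fun i hi => (h i).trans (hf.2 i hi)⟩

/-- Restricting to an initial segment of an element of a condition. -/
theorem Cn_restrict {l : List ℕ} {g f : ℕ → ℕ} (hf : f ∈ Cn l g) {n : ℕ} (hn : l.length ≤ n) :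
    Cn ((List.range n).map f) g ⊆ Cn l g := by
  intro f' hf'
  have h1 : ∀ i, i < n → f' i = f i := by
    intro i hi
    have := hf'.1 i (by simpa using hi)
    simpa using this
  refine ⟨fun i hi => ?_, fun i hi => ?_⟩
  · rw [h1 i (by omega)]; exact hf.1 i hi
  · by_cases hin : i < n
    · rw [h1 i hin]; exact hf.2 i hi
    · exact hf'.2 i (by simpa using hin)

/-- An open set containing `f` contains all functions agreeing with `f` on a long enough
initial segment. -/
theorem exists_restrict {U : Set (ℕ → ℕ)} (hU : IsOpen U) {f : ℕ → ℕ} (hf : f ∈ U) :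
    ∃ n, ∀ m, n ≤ m → ∀ g, Cn ((List.range m).map f) g ⊆ U := by
  obtain ⟨n, hn⟩ := (PiNat.isTopologicalBasis_cylinders (fun _ => ℕ)).exists_subset_of_mem_open hf hU |>.elim
    (fun V hV => by
      obtain ⟨⟨x, n, rfl⟩, hfV, hVU⟩ := hV
      refine (⟨n, fun f' hf' => hVU ?_⟩ : ∃ n, ∀ f', (∀ i, i < n → f' i = f i) → f' ∈ U)
      rw [PiNat.mem_cylinder_iff] at hfV ⊢
      intro i hi
      rw [hf' i hi, hfV i hi])
  refine ⟨n, fun m hm g f' hf' => hn f' fun i hi => ?_⟩
  have := hf'.1 i (by simpa using (lt_of_lt_of_le hi hm))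
  simpa using this

/-- The binary sequences that `c` can be made to approximate below `l`, whatever growth is
required. -/
def K (c : OC) (l : List ℕ) : Set (ℕ → Bool) :=
  {y | ∀ n, ∀ g : ℕ → ℕ, ∃ f ∈ Cn l g, ∀ i < n, (y i).toNat ∈ ev (PFun.lift f) c i}

theorem toNat_inj : ∀ {a b : Bool}, a.toNat = b.toNat → a = b := by decide

/-- If `K c l` is empty then strong growth keeps `c` from computing any binary sequence. -/
theorem of_K_empty {c : OC} {l : List ℕ} (h : K c l = ∅) :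
    ∃ g : ℕ → ℕ, ∀ f ∈ Cn l g, ∀ y : ℕ → Bool,
      ev (PFun.lift f) c ≠ PFun.lift (fun n => (y n).toNat) := by
  have h1 : ∀ y : ℕ → Bool, ∃ n, ∃ g : ℕ → ℕ, ∀ f ∈ Cn l g,
      ¬ ∀ i < n, (y i).toNat ∈ ev (PFun.lift f) c i := by
    intro y
    have hy : y ∉ K c l := by rw [h]; simp
    simp only [K, Set.mem_ofPred_eq, not_forall, not_exists, not_and] at hy
    obtain ⟨n, g, hg⟩ := hy
    exact ⟨n, g, fun f hf hc => by
      obtain ⟨i, hi, hi'⟩ := hg f hf
      exact hi' (hc i hi)⟩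
  choose n g hg using h1
  have hnhds : ∀ y : ℕ → Bool, PiNat.cylinder y (n y) ∈ nhds y := fun y =>
    (PiNat.isOpen_cylinder _ y (n y)).mem_nhds (PiNat.self_mem_cylinder y (n y))
  obtain ⟨t, ht⟩ := CompactSpace.elim_nhds_subcover (fun y : ℕ → Bool => PiNat.cylinder y (n y)) hnhds
  refine ⟨fun i => t.sup fun y => g y i, fun f hf y hy => ?_⟩
  have hyt : y ∈ ⋃ x ∈ t, PiNat.cylinder x (n x) := by
    have : (⋃ x ∈ t, PiNat.cylinder x (n x)) = (⊤ : Set (ℕ → Bool)) := ht
    rw [this]; trivial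
  simp only [Set.mem_iUnion] at hyt
  obtain ⟨z, hz, hyz⟩ := hyt
  refine hg z f (Cn_mono (fun i => Finset.le_sup (f := fun y => g y i) hz) hf) fun i hi => ?_
  rw [PiNat.mem_cylinder_iff] at hyz
  rw [hy, ← hyz i hi]
  exact Part.mem_some _

/-- The one-step extension lemma. -/
theorem step {Q : Set (ℕ → Bool)} (hQ : IsClosed Q) {c : OC} {l : List ℕ}
    (hy : (K c l).Nonempty → ∃ y ∈ K c l, y ∉ Q) (g : ℕ → ℕ) :
    ∃ l' g', l.length < l'.length ∧ Cn l' g' ⊆ Cn l g ∧
      ∀ f ∈ Cn l' g', ∀ y ∈ Q, ev (PFun.lift f) c ≠ PFun.lift (fun n => (y n).toNat) := by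
  rcases (K c l).eq_empty_or_nonempty with h | h
  · obtain ⟨g₁, hg₁⟩ := of_K_empty h
    obtain ⟨f, hf⟩ := Cn_nonempty l (fun i => max (g i) (g₁ i))
    have hsub := Cn_restrict hf (n := l.length + 1) (by omega)
    refine ⟨(List.range (l.length + 1)).map f, fun i => max (g i) (g₁ i), by simp, ?_, ?_⟩
    · exact hsub.trans (Cn_mono fun i => le_max_left _ _)
    · intro f' hf' y _
      exact hg₁ f' (Cn_mono (fun i => le_max_right _ _) (hsub hf')) y
  · obtain ⟨y, hyK, hyQ⟩ := hy h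
    obtain ⟨n, hn⟩ : ∃ n, ∀ y' ∈ Q, ¬ ∀ i < n, y' i = y i := by
      obtain ⟨V, ⟨x, n, rfl⟩, hyV, hVQ⟩ :=
        (PiNat.isTopologicalBasis_cylinders (fun _ => Bool)).exists_subset_of_mem_open
          (show y ∈ Qᶜ from hyQ) hQ.isOpen_compl
      refine ⟨n, fun y' hy' hc => hVQ ?_ hy'⟩
      rw [PiNat.mem_cylinder_iff] at hyV ⊢
      intro i hi
      rw [hc i hi, hyV i hi]
    obtain ⟨f, hf, hfc⟩ := hyK n g
    have hopen : IsOpen (⋂ i ∈ Finset.range n,
        {x : ℕ → ℕ | (y i).toNat ∈ ev (PFun.lift x) c i}) :=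
      isOpen_biInter_finset fun i _ => isOpen_ev c i _
    have hfmem : f ∈ ⋂ i ∈ Finset.range n,
        {x : ℕ → ℕ | (y i).toNat ∈ ev (PFun.lift x) c i} := by
      simpa using hfc
    obtain ⟨m, hm⟩ := exists_restrict hopen hfmem
    refine ⟨(List.range (max m (l.length + 1))).map f, g, by simp, ?_, ?_⟩
    · exact Cn_restrict hf (by omega)
    · intro f' hf' y' hy' hev
      have h2 := hm (max m (l.length + 1)) (le_max_left _ _) g hf'
      simp only [Finset.mem_range, Set.mem_iInter, Set.mem_ofPred_eq] at h2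
      refine hn y' hy' fun i hi => ?_
      have h3 := h2 i hi
      rw [hev] at h3
      exact toNat_inj (Part.mem_some_iff.mp h3).symm

/-- The fusion argument. -/
theorem fusion {Q : Set (ℕ → Bool)} (hQ : IsClosed Q)
    (hy : ∀ c l, (K c l).Nonempty → ∃ y ∈ K c l, y ∉ Q) (h : ℕ → ℕ) :
    ∃ f : ℕ → ℕ, (∀ i, h i ≤ f i) ∧
      ∀ c, ∀ y ∈ Q, ev (PFun.lift f) c ≠ PFun.lift (fun n => (y n).toNat) := by
  obtain ⟨e, he⟩ := exists_surjective_nat OC
  have hstep : ∀ (c : OC) (p : List ℕ × (ℕ → ℕ)), ∃ p' : List ℕ × (ℕ → ℕ),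
      p.1.length < p'.1.length ∧ Cn p'.1 p'.2 ⊆ Cn p.1 p.2 ∧
      ∀ f ∈ Cn p'.1 p'.2, ∀ y ∈ Q, ev (PFun.lift f) c ≠ PFun.lift (fun n => (y n).toNat) := by
    intro c p
    obtain ⟨l', g', h1, h2, h3⟩ := step hQ (hy c p.1) p.2
    exact ⟨(l', g'), h1, h2, h3⟩
  choose F hF1 hF2 hF3 using hstep
  let P : ℕ → List ℕ × (ℕ → ℕ) := fun k => Nat.rec ([], h) (fun k p => F (e k) p) k
  have hP0 : P 0 = ([], h) := rfl
  have hPs : ∀ k, P (k + 1) = F (e k) (P k) := fun k => rfl
  have hlen : ∀ k, k ≤ (P k).1.length := by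
    intro k
    induction k with
    | zero => exact Nat.zero_le _
    | succ k ih =>
      have := hF1 (e k) (P k)
      rw [hPs]; omega
  have hanti : ∀ k m, k ≤ m → Cn (P m).1 (P m).2 ⊆ Cn (P k).1 (P k).2 := by
    intro k m hkm
    induction hkm with
    | refl => exact Subset.rfl
    | step _ ih => exact (hF2 _ _).trans ih
  choose a ha using fun k => Cn_nonempty (P k).1 (P k).2
  let f : ℕ → ℕ := fun i => a (i + 1) i
  have hf : ∀ k, f ∈ Cn (P k).1 (P k).2 := by
    intro k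
    refine ⟨fun i hi => ?_, fun i hi => ?_⟩
    · by_cases hik : k ≤ i + 1
      · exact (hanti k (i + 1) hik (ha (i + 1))).1 i hi
      · have h1 := (ha k).1 i hi
        have hlt : i < (P (i + 1)).1.length := by have := hlen (i + 1); omega
        have h2 := (hanti (i + 1) k (by omega) (ha k)).1 i hlt
        have h3 := (ha (i + 1)).1 i hlt
        change a (i + 1) i = _
        rw [h3, ← h2, h1]
    · have := hlen k
      exact (hanti k (i + 1) (by omega) (ha (i + 1))).2 i hi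
  refine ⟨f, fun i => (hf 0).2 i (by simp [hP0]), fun c y hyQ => ?_⟩
  obtain ⟨k, rfl⟩ := he c
  have := hf (k + 1)
  rw [hPs] at this
  exact hF3 (e k) (P k) f this y hyQ

/-- There is a closed set P of functions ℕ→ℕ such that for every closed set Q of binary sequences, it is not the case that every element of P computes an element of Q and every element of Q computes an element of P. -/
theorem result :
    ∃ P : Set (ℕ → ℕ), IsClosed P ∧
      ∀ Q : Set (ℕ → Bool), IsClosed Q →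
        ¬ ((∀ x ∈ P, ∃ y ∈ Q,
              TuringReducible (PFun.lift (fun n => (y n).toNat)) (PFun.lift x)) ∧
           (∀ y ∈ Q, ∃ x ∈ P,
              TuringReducible (PFun.lift x) (PFun.lift (fun n => (y n).toNat)))) := by
  classical
  -- a countable family of binary sequences meeting every closed set which is below the
  -- functions of fast growth
  let Y : OC × List ℕ → (ℕ → Bool) := fun p =>
    if hp : (K p.1 p.2).Nonempty then hp.some else fun _ => false
  have hY : ∀ c l, (K c l).Nonempty → Y (c, l) ∈ K c l := by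
    intro c l hcl
    simp only [Y, hcl, dif_pos]
    exact hcl.some_mem
  -- the countably many functions computable from a member of the family
  let X : OC × (OC × List ℕ) → (ℕ → ℕ) := fun q =>
    if hq : ∃ x : ℕ → ℕ, ev (PFun.lift (fun n => (Y q.2 n).toNat)) q.1 = PFun.lift x then
      hq.choose else fun _ => 0
  obtain ⟨e, he⟩ := exists_surjective_nat (OC × (OC × List ℕ))
  let h : ℕ → ℕ := fun k => X (e k) k + 1
  refine ⟨{x | ∀ i, h i ≤ x i}, ?_, ?_⟩
  · have : {x : ℕ → ℕ | ∀ i, h i ≤ x i} = ⋂ i, (fun x : ℕ → ℕ => x i) ⁻¹' (Set.Ici (h i)) := by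
      ext x; simp
    rw [this]
    exact isClosed_iInter fun i => (isClosed_discrete _).preimage (continuous_apply i)
  · rintro Q hQ ⟨h1, h2⟩
    have hout : ∀ c l, (K c l).Nonempty → ∃ y ∈ K c l, y ∉ Q := by
      intro c l hcl
      refine ⟨Y (c, l), hY c l hcl, fun hmem => ?_⟩
      obtain ⟨x, hx, hred⟩ := h2 _ hmem
      obtain ⟨d, hd⟩ := exists_code (RecursiveIn.iff_nat.mp hred)
      obtain ⟨k, hk⟩ := he (d, (c, l))
      have hex : ∃ x : ℕ → ℕ, ev (PFun.lift (fun n => (Y (e k).2 n).toNat)) (e k).1 = PFun.lift x := by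
        rw [hk]; exact ⟨x, hd⟩
      have hXk : X (e k) = hex.choose := by
        simp only [X]
        rw [dif_pos hex]
      have hspec := hex.choose_spec
      rw [← hXk, hk, hd] at hspec
      have hxX : ∀ n, x n = X (d, (c, l)) n := by
        intro n
        have := congrFun hspec n
        exact Part.some_injective this
      have h3 : h k ≤ x k := hx k
      rw [hxX k] at h3
      simp only [h, hk] at h3
      omega
    obtain ⟨f, hf, hfc⟩ := fusion hQ hout h
    obtain ⟨y, hyQ, hred⟩ := h1 f hf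
    obtain ⟨c, hc⟩ := exists_code (RecursiveIn.iff_nat.mp hred)
    exact hfc c y hyQ hc

end Pool.Agent.S15181
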