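import Pool.Statements.S15294
-- import your own Pool.Agent.* helpers here

set_option autoImplicit false
open Pool Pool.MP_bd622f_lc

namespace Pool.Agent.S15294

abbrev Wd := List (Fin 2)

def XL : List Wd := [[0,0],[1,0],[1,1,0,0],[1,1,1,0],[1,1,1,1],[0,0,1,0,0],[0,0,1,1,0],[0,0,1,1,1],[1,0,1,0,0],[1,0,1,1,0],[1,0,1,1,1],[0,0,1,0,0,1],[0,0,1,1,0,1],[1,0,1,0,0,1],[1,0,1,1,0,1],[1,1,0,0,1,0,0],[1,1,0,0,1,1,0],[1,1,0,0,1,1,1],[1,1,1,0,1,0,0],[1,1,1,0,1,1,0],[1,1,1,0,1,1,1],[1,1,0,0,1,0,0,1],[1,1,0,0,1,1,0,1],[1,1,1,0,1,0,0,1],[1,1,1,0,1,1,0,1]]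

def DL : List Wd := [[0],[1],[0,1],[1,0,0],[1,1,0],[1,1,1],[0,1,0,0],[0,1,1,0],[0,1,1,1],[1,0,0,1],[1,1,0,1],[0,1,0,0,1],[0,1,1,0,1],[1,0,0,1,0,0],[1,0,0,1,1,0],[1,0,0,1,1,1],[1,1,0,1,0,0],[1,1,0,1,1,0],[1,1,0,1,1,1],[1,0,0,1,0,0,1],[1,0,0,1,1,0,1],[1,1,0,1,0,0,1],[1,1,0,1,1,0,1]]

def XS : Set Wd := {x | x ∈ XL}

theorem sp1 : ∀ x ∈ XL, ∀ y ∈ XL, y.isPrefixOf x = true → x = y ∨ x.drop y.length ∈ DL := by
  decide +kernel

theorem sp2 : ∀ d ∈ DL, ∀ x ∈ XL, (d.isPrefixOf x = true → x.drop d.length ∈ DL) ∧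
    (x.isPrefixOf d = true → d.drop x.length ∈ DL) := by
  decide +kernel

theorem sp3 : ([] : Wd) ∉ DL := by decide +kernel

theorem xne : ([] : Wd) ∉ XL := by decide +kernel

theorem noDang : ∀ n : ℕ, ∀ d ∈ DL, ∀ xs ys : List Wd, (∀ x ∈ xs, x ∈ XL) → (∀ y ∈ ys, y ∈ XL) →
    ys.flatten.length ≤ n → d ++ xs.flatten = ys.flatten → False := by
  intro n
  induction n with
  | zero =>
    intro d hd xs ys hxs hys hn h
    have h1 : ys.flatten = [] := List.eq_nil_of_length_eq_zero (Nat.le_zero.mp hn)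
    rw [h1] at h
    have h2 : d = [] := (List.append_eq_nil_iff.mp h).1
    exact sp3 (h2 ▸ hd)
  | succ n ih =>
    intro d hd xs ys hxs hys hn h
    cases ys with
    | nil =>
      have h2 : d = [] := (List.append_eq_nil_iff.mp h).1
      exact sp3 (h2 ▸ hd)
    | cons y ys' =>
      have hy : y ∈ XL := hys y (by simp)
      have hys' : ∀ z ∈ ys', z ∈ XL := fun z hz => hys z (by simp [hz])
      rw [List.flatten_cons] at h hn
      rcases List.append_eq_append_iff.mp h with ⟨e, h1, h2⟩ | ⟨e, h1, h2⟩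
      · -- y = d ++ e , xs.flatten = e ++ ys'.flatten
        have he : e ∈ DL := by
          have := (sp2 d hd y hy).1 (by rw [List.isPrefixOf_iff_prefix]; exact ⟨e, h1.symm⟩)
          rwa [h1, List.drop_left] at this
        have hdl : 0 < d.length := by
          rcases Nat.eq_zero_or_pos d.length with h0 | h0
          · exact absurd ((List.eq_nil_of_length_eq_zero h0) ▸ hd) sp3
          · exact h0
        refine ih e he ys' xs hys' hxs ?_ h2.symm
        have := congrArg List.length h
        simp only [List.length_append] at this hn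
        omega
      · -- d = y ++ e, ys'.flatten = e ++ xs.flatten
        have he : e ∈ DL := by
          have := (sp2 d hd y hy).2 (by rw [List.isPrefixOf_iff_prefix]; exact ⟨e, h1.symm⟩)
          rwa [h1, List.drop_left] at this
        have hyl : 0 < y.length := by
          rcases Nat.eq_zero_or_pos y.length with h0 | h0
          · exact absurd ((List.eq_nil_of_length_eq_zero h0) ▸ hy) xne
          · exact h0
        refine ih e he xs ys' hxs hys' ?_ h2.symm
        simp only [List.length_append] at hn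
        omega

theorem UD : ∀ xs ys : List Wd, (∀ x ∈ xs, x ∈ XS) → (∀ y ∈ ys, y ∈ XS) →
    xs.flatten = ys.flatten → xs = ys := by
  intro xs
  induction xs with
  | nil =>
    intro ys _ hys h
    cases ys with
    | nil => rfl
    | cons y ys' =>
      exfalso
      rw [List.flatten_cons, List.flatten_nil] at h
      have : y = [] := (List.append_eq_nil_iff.mp h.symm).1
      exact xne (this ▸ hys y (by simp))
  | cons x xs' ih =>
    intro ys hxs hys h
    have hx : x ∈ XL := hxs x (by simp)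
    cases ys with
    | nil =>
      exfalso
      rw [List.flatten_cons, List.flatten_nil] at h
      have : x = [] := (List.append_eq_nil_iff.mp h).1
      exact xne (this ▸ hx)
    | cons y ys' =>
      have hy : y ∈ XL := hys y (by simp)
      have hxs' : ∀ z ∈ xs', z ∈ XL := fun z hz => hxs z (by simp [hz])
      have hys' : ∀ z ∈ ys', z ∈ XL := fun z hz => hys z (by simp [hz])
      rw [List.flatten_cons, List.flatten_cons] at h
      rcases List.append_eq_append_iff.mp h with ⟨e, h1, h2⟩ | ⟨e, h1, h2⟩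
      · -- y = x ++ e
        rcases sp1 y hy x hx (by rw [List.isPrefixOf_iff_prefix]; exact ⟨e, h1.symm⟩) with h3 | h3
        · have he : e = [] := by
            rw [h3] at h1; simpa using h1
          rw [he, List.nil_append] at h2
          rw [h3, ih ys' hxs' hys' h2]
        · rw [h1, List.drop_left] at h3
          exact (noDang _ e h3 ys' xs' hys' hxs' le_rfl h2.symm).elim
      · rcases sp1 x hx y hy (by rw [List.isPrefixOf_iff_prefix]; exact ⟨e, h1.symm⟩) with h3 | h3
        · have he : e = [] := by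
            rw [h3] at h1; simpa using h1
          rw [he, List.nil_append] at h2
          rw [h3, ih ys' hxs' hys' h2.symm]
        · rw [h1, List.drop_left] at h3
          exact (noDang _ e h3 xs' ys' hxs' hys' le_rfl h2.symm).elim

theorem kraft : ∑ w ∈ XL.toFinset, (1 / 2 : ℝ) ^ w.length = 1 := by
  have h : XL.Nodup := by decide +kernel
  rw [List.sum_toFinset _ h]
  simp only [XL, List.map_cons, List.map_nil, List.length_cons, List.length_nil, List.sum_cons, List.sum_nil]
  norm_num

theorem maximal : ∀ Y : Set Wd, XS ⊆ Y →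
    (∀ xs ys : List Wd, (∀ x ∈ xs, x ∈ Y) → (∀ y ∈ ys, y ∈ Y) →
      xs.flatten = ys.flatten → xs = ys) → Y = XS := by
  intro Y hXY hY
  refine Set.Subset.antisymm ?_ hXY
  intro y hy
  by_contra hyX
  have hsub : ((insert y XL.toFinset : Finset Wd) : Set Wd) ⊆ Y := by
    intro z hz
    simp only [Finset.coe_insert, Set.mem_insert_iff, Finset.mem_coe, List.mem_toFinset] at hz
    rcases hz with rfl | hz
    · exact hy
    · exact hXY hz
  have hk := InformationTheory.kraft_mcmillan_inequality (S := insert y XL.toFinset)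
    (fun xs ys hxs hys h => hY xs ys (fun x hx => hsub (hxs x hx)) (fun x hx => hsub (hys x hx)) h)
  have hyn : y ∉ XL.toFinset := by
    rw [List.mem_toFinset]; exact hyX
  rw [Finset.sum_insert hyn] at hk
  simp only [Fintype.card_fin, Nat.cast_ofNat] at hk
  rw [kraft] at hk
  have : (0:ℝ) < (1/2 : ℝ) ^ y.length := by positivity
  linarith


/-! box part -/

def St (X : Set Wd) (w : Wd) : Prop := ∃ xs : List Wd, (∀ x ∈ xs, x ∈ X) ∧ xs.flatten = w

theorem St.nil (X : Set Wd) : St X [] := ⟨[], by simp, rfl⟩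

theorem St.app {X : Set Wd} {a b : Wd} (ha : St X a) (hb : St X b) : St X (a ++ b) := by
  obtain ⟨xs, h1, h2⟩ := ha
  obtain ⟨ys, h3, h4⟩ := hb
  refine ⟨xs ++ ys, ?_, by rw [List.flatten_append, h2, h4]⟩
  intro x hx
  rcases List.mem_append.mp hx with h | h
  · exact h1 x h
  · exact h3 x h

theorem St.single {X : Set Wd} {a : Wd} (ha : a ∈ X) : St X a :=
  ⟨[a], by simpa using ha, by simp⟩

/-- no factor straddles a cut -/
theorem straddle {X : Set Wd}
    (hX : ∀ xs ys : List Wd, (∀ x ∈ xs, x ∈ X) → (∀ y ∈ ys, y ∈ X) →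
      xs.flatten = ys.flatten → xs = ys)
    {A B C D c : Wd} (hA : St X A) (hB : St X B) (hC : St X C) (hD : St X D) (hc : c ∈ X)
    (h : A ++ B = C ++ c ++ D) (h1 : C.length < A.length) (h2 : A.length < C.length + c.length) :
    False := by
  obtain ⟨as, ha1, rfl⟩ := hA
  obtain ⟨bs, hb1, rfl⟩ := hB
  obtain ⟨cs, hc1, rfl⟩ := hC
  obtain ⟨ds, hd1, rfl⟩ := hD
  have key : as ++ bs = cs ++ (c :: ds) := by
    apply hX
    · intro x hx
      rcases List.mem_append.mp hx with h | h
      · exact ha1 x h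
      · exact hb1 x h
    · intro x hx
      rcases List.mem_append.mp hx with h | h
      · exact hc1 x h
      · rcases List.mem_cons.mp h with h | h
        · exact h ▸ hc
        · exact hd1 x h
    · rw [List.flatten_append, List.flatten_append, List.flatten_cons, h, List.append_assoc]
  rcases List.append_eq_append_iff.mp key with ⟨es, h3, h4⟩ | ⟨es, h3, h4⟩
  · -- cs = as ++ es
    rw [h3, List.flatten_append, List.length_append] at h1
    omega
  · -- as = cs ++ es, c :: ds = es ++ bs
    cases es with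
    | nil =>
      rw [h3, List.append_nil] at h1
      omega
    | cons e es' =>
      rw [List.cons_append, List.cons.injEq] at h4
      rw [h3, List.flatten_append, List.flatten_cons, List.length_append, List.length_append,
        ← h4.1] at h2
      omega

def Rr (X : Set Wd) (u r : Wd) : Prop :=
  St X (u ++ r) ∧ (r ≠ [] → ∃ y s, u = y ++ s ∧ St X y ∧ s ≠ [] ∧ s ++ r ∈ X)

def Ll (X : Set Wd) (v l : Wd) : Prop :=
  St X (l ++ v) ∧ (l ≠ [] → ∃ t z, v = t ++ z ∧ St X z ∧ t ≠ [] ∧ l ++ t ∈ X)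

theorem exR {X : Set Wd} : ∀ (xs : List Wd), (∀ x ∈ xs, x ∈ X) → ∀ (u w : Wd), xs.flatten = u ++ w →
    ∃ r x, w = r ++ x ∧ Rr X u r ∧ St X x := by
  intro xs
  induction xs with
  | nil =>
    intro _ u w h
    rw [List.flatten_nil] at h
    have h1 := List.append_eq_nil_iff.mp h.symm
    refine ⟨[], [], by simp [h1.2], ⟨by rw [h1.1]; exact St.nil X, fun h => absurd rfl h⟩, St.nil X⟩
  | cons a xs ih =>
    intro hxs u w h
    have ha : a ∈ X := hxs a (by simp)
    have hxs' : ∀ x ∈ xs, x ∈ X := fun x hx => hxs x (by simp [hx])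
    rcases eq_or_ne u [] with rfl | hu
    · refine ⟨[], w, by simp, ⟨by simpa using St.nil X, fun h => absurd rfl h⟩, ?_⟩
      exact ⟨a :: xs, hxs, by simpa using h⟩
    rw [List.flatten_cons] at h
    rcases List.append_eq_append_iff.mp h with ⟨e, h1, h2⟩ | ⟨e, h1, h2⟩
    · -- u = a ++ e, xs.flatten = e ++ w
      obtain ⟨r, x, h3, h4, h5⟩ := ih hxs' e w h2
      refine ⟨r, x, h3, ⟨?_, ?_⟩, h5⟩
      · rw [h1, List.append_assoc]; exact (St.single ha).app h4.1
      · intro hr
        obtain ⟨y, s, h6, h7, h8, h9⟩ := h4.2 hr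
        exact ⟨a ++ y, s, by rw [h1, h6, List.append_assoc], (St.single ha).app h7, h8, h9⟩
    · -- a = u ++ e, w = e ++ xs.flatten
      refine ⟨e, xs.flatten, h2, ⟨?_, ?_⟩, ⟨xs, hxs', rfl⟩⟩
      · rw [← h1]; exact St.single ha
      · intro _
        exact ⟨[], u, by simp, St.nil X, hu, by rw [← h1]; exact ha⟩

theorem exL {X : Set Wd} : ∀ (xs : List Wd), (∀ x ∈ xs, x ∈ X) → ∀ (w v : Wd), xs.flatten = w ++ v →
    ∃ x l, w = x ++ l ∧ Ll X v l ∧ St X x := by
  intro xs
  induction xs using List.reverseRecOn with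
  | nil =>
    intro _ w v h
    rw [List.flatten_nil] at h
    have h1 := List.append_eq_nil_iff.mp h.symm
    refine ⟨[], [], by simp [h1.1], ⟨by rw [h1.2]; exact St.nil X, fun h => absurd rfl h⟩, St.nil X⟩
  | append_singleton xs a ih =>
    intro hxs w v h
    have ha : a ∈ X := hxs a (by simp)
    have hxs' : ∀ x ∈ xs, x ∈ X := fun x hx => hxs x (by simp [hx])
    rcases eq_or_ne v [] with rfl | hv
    · refine ⟨w, [], by simp, ⟨by simpa using St.nil X, fun h => absurd rfl h⟩, ?_⟩
      exact ⟨xs ++ [a], hxs, by simpa using h⟩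
    rw [List.flatten_append, List.flatten_cons, List.flatten_nil, List.append_nil] at h
    rcases List.append_eq_append_iff.mp h with ⟨e, h1, h2⟩ | ⟨e, h1, h2⟩
    · -- w = xs.flatten ++ e, a = e ++ v
      refine ⟨xs.flatten, e, h1, ⟨?_, ?_⟩, ⟨xs, hxs', rfl⟩⟩
      · rw [← h2]; exact St.single ha
      · intro _
        exact ⟨v, [], by simp, St.nil X, hv, by rw [← h2]; exact ha⟩
    · -- xs.flatten = w ++ e, v = e ++ a
      obtain ⟨x, l, h3, h4, h5⟩ := ih hxs' w e h1
      refine ⟨x, l, h3, ⟨?_, ?_⟩, h5⟩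
      · rw [h2, ← List.append_assoc]; exact h4.1.app (St.single ha)
      · intro hl
        obtain ⟨t, z, h6, h7, h8, h9⟩ := h4.2 hl
        exact ⟨t, z ++ a, by rw [h2, h6, List.append_assoc], h7.app (St.single ha), h8, h9⟩

theorem uniqR_aux {X : Set Wd}
    (hX : ∀ xs ys : List Wd, (∀ x ∈ xs, x ∈ X) → (∀ y ∈ ys, y ∈ X) →
      xs.flatten = ys.flatten → xs = ys)
    {u r r' B B' : Wd} (hr : Rr X u r) (hr' : Rr X u r') (hB : St X B) (hB' : St X B')
    (h : r ++ B = r' ++ B') : ¬ r.length < r'.length := by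
  intro hlt
  have hne : r' ≠ [] := by rintro rfl; simp at hlt
  obtain ⟨y, s, h1, h2, h3, h4⟩ := hr'.2 hne
  refine straddle hX hr.1 hB h2 hB' h4 (?_ : (u ++ r) ++ B = y ++ (s ++ r') ++ B') ?_ ?_
  · rw [List.append_assoc, h, h1]; simp
  · have : 0 < s.length := List.length_pos_iff.mpr h3
    rw [h1]; simp only [List.length_append]; omega
  · rw [h1]; simp only [List.length_append]; omega

theorem uniqL_aux {X : Set Wd}
    (hX : ∀ xs ys : List Wd, (∀ x ∈ xs, x ∈ X) → (∀ y ∈ ys, y ∈ X) →
      xs.flatten = ys.flatten → xs = ys)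
    {v l l' A A' : Wd} (hl : Ll X v l) (hl' : Ll X v l') (hA : St X A) (hA' : St X A')
    (h : A ++ l = A' ++ l') : ¬ l.length < l'.length := by
  intro hlt
  have hne : l' ≠ [] := by rintro rfl; simp at hlt
  obtain ⟨t, z, h1, h2, h3, h4⟩ := hl'.2 hne
  have hlen := congrArg List.length h
  simp only [List.length_append] at hlen
  have htp : 0 < t.length := List.length_pos_iff.mpr h3
  refine straddle hX hA hl.1 hA' h2 h4 (?_ : A ++ (l ++ v) = A' ++ (l' ++ t) ++ z) ?_ ?_
  · rw [← List.append_assoc, h, h1]; simp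
  · omega
  · simp only [List.length_append]; omega


section box

variable {U V : Finset Wd}

def Qm (U : Finset Wd) (r : Wd) : Prop := ∃ u ∈ U, Rr XS u r
def Pm (V : Finset Wd) (l : Wd) : Prop := ∃ v ∈ V, Ll XS v l

theorem dec0
    (hbox : ∀ w : Wd, ∃! p : Wd × Wd, p.1 ∈ U ∧ p.2 ∈ V ∧ St XS (p.1 ++ w ++ p.2))
    (hsep : ∀ u ∈ U, ∀ v ∈ V, ∀ w : Wd, St XS (u ++ w ++ v) →
      ∃ w' w'' : Wd, w = w' ++ w'' ∧ St XS (u ++ w') ∧ St XS (w'' ++ v)) (w : Wd) :
    ∃ r x l, w = r ++ x ++ l ∧ Qm U r ∧ St XS x ∧ Pm V l := by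
  obtain ⟨⟨u, v⟩, ⟨hu, hv, h⟩, _⟩ := hbox w
  obtain ⟨w', w'', h1, ⟨xs, hxs, h2⟩, ⟨ys, hys, h3⟩⟩ := hsep u hu v hv w h
  obtain ⟨r, x, h4, h5, h6⟩ := exR xs hxs u w' h2
  obtain ⟨x', l, h7, h8, h9⟩ := exL ys hys w'' v h3
  refine ⟨r, x ++ x', l, ?_, ⟨u, hu, h5⟩, h6.app h9, ⟨v, hv, h8⟩⟩
  rw [h1, h4, h7]; simp

theorem uniq
    (hbox : ∀ w : Wd, ∃! p : Wd × Wd, p.1 ∈ U ∧ p.2 ∈ V ∧ St XS (p.1 ++ w ++ p.2))
    {r x l r' x' l' : Wd} (h : r ++ x ++ l = r' ++ x' ++ l')
    (hr : Qm U r) (hx : St XS x) (hl : Pm V l) (hr' : Qm U r') (hx' : St XS x') (hl' : Pm V l') :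
    r.length = r'.length ∧ l.length = l'.length := by
  obtain ⟨u, hu, h1⟩ := hr
  obtain ⟨v, hv, h2⟩ := hl
  obtain ⟨u', hu', h1'⟩ := hr'
  obtain ⟨v', hv', h2'⟩ := hl'
  have e1 : St XS (u ++ (r ++ x ++ l) ++ v) := by
    have := (h1.1.app hx).app h2.1
    simpa using this
  have e2 : St XS (u' ++ (r ++ x ++ l) ++ v') := by
    have := (h1'.1.app hx').app h2'.1
    rw [h]
    simpa using this
  have huv : (u, v) = (u', v') := (hbox (r ++ x ++ l)).unique ⟨hu, hv, e1⟩ ⟨hu', hv', e2⟩
  obtain ⟨rfl, rfl⟩ := Prod.mk.inj huv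
  have k1 : r ++ (x ++ (l ++ v)) = r' ++ (x' ++ (l' ++ v)) := by
    have := congrArg (· ++ v) h
    simpa using this
  have k2 : (u ++ r ++ x) ++ l = (u ++ r' ++ x') ++ l' := by
    have := congrArg (u ++ ·) h
    simpa using this
  have a1 := uniqR_aux UD h1 h1' (hx.app h2.1) (hx'.app h2'.1) k1
  have a2 := uniqR_aux UD h1' h1 (hx'.app h2'.1) (hx.app h2.1) k1.symm
  have a3 := uniqL_aux UD h2 h2' (h1.1.app hx) (h1'.1.app hx') k2
  have a4 := uniqL_aux UD h2' h2 (h1'.1.app hx') (h1.1.app hx) k2.symm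
  omega

def stB : ℕ → Wd → Bool
  | 0, w => w.isEmpty
  | n + 1, w => w.isEmpty || XL.any (fun x => x.isPrefixOf w && stB n (w.drop x.length))

theorem stB_sound : ∀ n w, stB n w = true → St XS w := by
  intro n
  induction n with
  | zero =>
    intro w h
    have : w = [] := by simpa [stB] using h
    rw [this]; exact St.nil _
  | succ n ih =>
    intro w h
    rw [stB, Bool.or_eq_true] at h
    rcases h with h | h
    · have : w = [] := by simpa using h
      rw [this]; exact St.nil _
    · rw [List.any_eq_true] at h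
      obtain ⟨x, hx, h⟩ := h
      rw [Bool.and_eq_true, List.isPrefixOf_iff_prefix] at h
      obtain ⟨⟨t, rfl⟩, h2⟩ := h
      rw [List.drop_left] at h2
      exact (St.single (X := XS) hx).app (ih t h2)

theorem stB_complete : ∀ n w, w.length ≤ n → St XS w → stB n w = true := by
  intro n
  induction n with
  | zero =>
    intro w h _
    have : w = [] := List.eq_nil_of_length_eq_zero (Nat.le_zero.mp h)
    simp [stB, this]
  | succ n ih =>
    rintro w h ⟨xs, hxs, rfl⟩
    cases xs with
    | nil => simp [stB]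
    | cons x xs =>
      have hx : x ∈ XL := hxs x (by simp)
      have hxp : 0 < x.length := by
        rcases Nat.eq_zero_or_pos x.length with h0 | h0
        · exact absurd ((List.eq_nil_of_length_eq_zero h0) ▸ hx) xne
        · exact h0
      rw [stB, Bool.or_eq_true]
      right
      rw [List.any_eq_true]
      refine ⟨x, hx, ?_⟩
      rw [Bool.and_eq_true, List.isPrefixOf_iff_prefix]
      rw [List.flatten_cons] at h ⊢
      refine ⟨⟨_, rfl⟩, ?_⟩
      rw [List.drop_left]
      apply ih
      · simp only [List.length_append] at h; omega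
      · exact ⟨xs, fun z hz => hxs z (by simp [hz]), rfl⟩

def cand (w : Wd) : List (Wd × Wd) :=
  (List.range (w.length + 1)).flatMap fun i =>
    ((List.range (w.length + 1 - i)).filter fun k => stB k ((w.drop i).take k)).map fun k =>
      (w.take i, w.drop (i + k))

theorem dec1
    (hbox : ∀ w : Wd, ∃! p : Wd × Wd, p.1 ∈ U ∧ p.2 ∈ V ∧ St XS (p.1 ++ w ++ p.2))
    (hsep : ∀ u ∈ U, ∀ v ∈ V, ∀ w : Wd, St XS (u ++ w ++ v) →
      ∃ w' w'' : Wd, w = w' ++ w'' ∧ St XS (u ++ w') ∧ St XS (w'' ++ v)) (w : Wd) :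
    ∃ p ∈ cand w, Qm U p.1 ∧ Pm V p.2 := by
  obtain ⟨r, x, l, rfl, h1, h2, h3⟩ := dec0 hbox hsep w
  refine ⟨(r, l), ?_, h1, h3⟩
  rw [cand, List.mem_flatMap]
  refine ⟨r.length, ?_, ?_⟩
  · rw [List.mem_range]; simp only [List.length_append]; omega
  · rw [List.mem_map]
    refine ⟨x.length, ?_, ?_⟩
    · rw [List.mem_filter, List.mem_range]
      refine ⟨by simp only [List.length_append]; omega, ?_⟩
      rw [List.append_assoc, List.drop_left, List.take_left]
      exact stB_complete _ _ le_rfl h2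
    · congr 1
      · rw [List.append_assoc, List.take_left]
      · rw [← List.length_append, List.drop_left]

def chkQ (r : Wd) (T : List Wd) : Bool :=
  XL.all fun x => !(r.isSuffixOf x) || decide (x.length ≤ r.length) ||
    ((List.range (x.length - r.length)).any fun i =>
      stB i (x.take i) &&
        T.any fun r' => !r'.isEmpty && XL.contains ((x.take (x.length - r.length)).drop i ++ r'))

theorem qimp {r : Wd} {T : List Wd} (hr : r ≠ []) (hc : chkQ r T = true) (h : Qm U r) :
    ∃ r' ∈ T, Qm U r' := by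
  obtain ⟨u, hu, h1⟩ := h
  obtain ⟨y, s, h2, h3, h4, h5⟩ := h1.2 hr
  rw [chkQ, List.all_eq_true] at hc
  have h6 := hc (s ++ r) h5
  have hs : 0 < s.length := List.length_pos_iff.mpr h4
  rw [Bool.or_eq_true, Bool.or_eq_true] at h6
  rcases h6 with (h6 | h6) | h6
  · rw [Bool.not_eq_true', ← Bool.not_eq_true, List.isSuffixOf_iff_suffix] at h6
    exact absurd ⟨s, rfl⟩ h6
  · rw [decide_eq_true_eq, List.length_append] at h6; omega
  · rw [List.any_eq_true] at h6
    obtain ⟨i, hi, h6⟩ := h6
    rw [List.mem_range, List.length_append, Nat.add_sub_cancel] at hi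
    rw [Bool.and_eq_true] at h6
    obtain ⟨h7, h8⟩ := h6
    have h9 : (s ++ r).take i = s.take i := by
      rw [List.take_append_of_le_length hi.le]
    rw [h9] at h7
    have h10 := stB_sound _ _ h7
    rw [List.any_eq_true] at h8
    obtain ⟨r', hr', h8⟩ := h8
    rw [Bool.and_eq_true, List.length_append, Nat.add_sub_cancel, List.take_left] at h8
    have hne : r' ≠ [] := by
      intro h; rw [h] at h8; simp at h8
    have h11 : s.drop i ++ r' ∈ XL := by simpa using h8.2
    have hsp : s.take i ++ s.drop i = s := List.take_append_drop i s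
    refine ⟨r', hr', u, hu, ?_, ?_⟩
    · have h12 : u ++ r' = (y ++ s.take i) ++ (s.drop i ++ r') := by
        rw [h2, List.append_assoc, List.append_assoc, ← List.append_assoc (s.take i), hsp]
      rw [h12]
      exact (h3.app h10).app (St.single h11)
    · intro _
      refine ⟨y ++ s.take i, s.drop i, ?_, h3.app h10, ?_, h11⟩
      · rw [h2, List.append_assoc, hsp]
      · intro h0
        have := congrArg List.length h0
        rw [List.length_drop, List.length_nil] at this
        omega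

def chkP (l : Wd) (T : List Wd) : Bool :=
  XL.all fun x => !(l.isPrefixOf x) || decide (x.length ≤ l.length) ||
    ((List.range (x.length - l.length)).any fun i =>
      stB x.length ((x.drop l.length).drop (i + 1)) &&
        T.any fun l' => !l'.isEmpty && XL.contains (l' ++ (x.drop l.length).take (i + 1)))

theorem pimp {l : Wd} {T : List Wd} (hl : l ≠ []) (hc : chkP l T = true) (h : Pm V l) :
    ∃ l' ∈ T, Pm V l' := by
  obtain ⟨v, hv, h1⟩ := h
  obtain ⟨t, z, h2, h3, h4, h5⟩ := h1.2 hl
  rw [chkP, List.all_eq_true] at hc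
  have h6 := hc (l ++ t) h5
  have ht : 0 < t.length := List.length_pos_iff.mpr h4
  rw [Bool.or_eq_true, Bool.or_eq_true] at h6
  rcases h6 with (h6 | h6) | h6
  · rw [Bool.not_eq_true', ← Bool.not_eq_true, List.isPrefixOf_iff_prefix] at h6
    exact absurd ⟨t, rfl⟩ h6
  · rw [decide_eq_true_eq, List.length_append] at h6; omega
  · rw [List.any_eq_true] at h6
    obtain ⟨i, hi, h6⟩ := h6
    rw [List.mem_range, List.length_append, Nat.add_sub_cancel_left] at hi
    rw [Bool.and_eq_true, List.drop_left] at h6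
    obtain ⟨h7, h8⟩ := h6
    have h10 := stB_sound _ _ h7
    rw [List.any_eq_true] at h8
    obtain ⟨l', hl', h8⟩ := h8
    rw [Bool.and_eq_true] at h8
    have hne : l' ≠ [] := by
      intro h; rw [h] at h8; simp at h8
    have h11 : l' ++ t.take (i + 1) ∈ XL := by simpa using h8.2
    have hsp : t.take (i + 1) ++ t.drop (i + 1) = t := List.take_append_drop (i + 1) t
    refine ⟨l', hl', v, hv, ?_, ?_⟩
    · have h12 : l' ++ v = (l' ++ t.take (i + 1)) ++ (t.drop (i + 1) ++ z) := by
        rw [h2, List.append_assoc, ← List.append_assoc (t.take (i + 1)), hsp]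
      rw [h12]
      exact (St.single (X := XS) h11).app (h10.app h3)
    · intro _
      refine ⟨t.take (i + 1), t.drop (i + 1) ++ z, ?_, h10.app h3, ?_, h11⟩
      · rw [h2, ← List.append_assoc, hsp]
      · intro h0
        have := congrArg List.length h0
        rw [List.length_take, List.length_nil] at this
        omega

theorem noSep
    (hbox : ∀ w : Wd, ∃! p : Wd × Wd, p.1 ∈ U ∧ p.2 ∈ V ∧ St XS (p.1 ++ w ++ p.2))
    (hsep : ∀ u ∈ U, ∀ v ∈ V, ∀ w : Wd, St XS (u ++ w ++ v) →
      ∃ w' w'' : Wd, w = w' ++ w'' ∧ St XS (u ++ w') ∧ St XS (w'' ++ v)) : False := by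
  have D := dec1 hbox hsep
  have hn : St XS [] := St.nil _
  obtain ⟨q1, p1⟩ : Qm U [] ∧ Pm V [] := by
    have h := D []
    have hc : cand [] = [([], [])] := by decide +kernel
    rw [hc] at h
    simpa using h
  have s00 : St XS [0, 0] := stB_sound 1 _ (by decide +kernel)
  have nQ00 : ¬ Qm U [0, 0] := fun h => by
    have := uniq hbox (r := [0, 0]) (x := []) (l := []) (r' := []) (x' := [0, 0]) (l' := []) rfl
      h hn p1 q1 s00 p1
    simp at this
  have nP00 : ¬ Pm V [0, 0] := fun h => by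
    have := uniq hbox (r := []) (x := []) (l := [0, 0]) (r' := []) (x' := [0, 0]) (l' := []) rfl
      q1 hn h q1 s00 p1
    simp at this
  by_cases hq : Qm U [1, 1, 1]
  · have nP111 : ¬ Pm V [1, 1, 1] := fun h => by
      have := uniq hbox (r := [1, 1, 1]) (x := []) (l := []) (r' := []) (x' := [])
        (l' := [1, 1, 1]) rfl hq hn p1 q1 hn h
      simp at this
    have nP1 : ¬ Pm V [1] := fun h => by
      have := pimp (T := [[1, 1, 1], [0, 0]]) (by simp) (by decide +kernel) h
      simp [nP111, nP00] at this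
    have Q1 : Qm U [1] := by
      have h := D [1]
      have hc : cand [1] = [([], [1]), ([1], [])] := by decide +kernel
      rw [hc] at h
      simpa [nP1, p1] using h
    have P11 : Pm V [1, 1] := by
      have h := D [1, 1]
      have hc : cand [1, 1] = [([], [1, 1]), ([1], [1]), ([1, 1], [])] := by decide +kernel
      have nQ11 : ¬ Qm U [1, 1] := fun h => by
        have := qimp (T := [[0, 0]]) (by simp) (by decide +kernel) h
        simp [nQ00] at this
      rw [hc] at h
      simpa [nP1, p1, nQ11, q1] using h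
    have := uniq hbox (r := [1, 1, 1]) (x := []) (l := []) (r' := [1]) (x' := [])
        (l' := [1, 1]) rfl hq hn p1 Q1 hn P11
    simp at this
  · have nQ01 : ¬ Qm U [0, 1] := fun h => by
      have := qimp (T := [[1, 1, 1], [0, 0]]) (by simp) (by decide +kernel) h
      simp [hq, nQ00] at this
    have nQ100 : ¬ Qm U [1, 0, 0] := fun h => by
      have := qimp (T := [[1, 1, 1]]) (by simp) (by decide +kernel) h
      simp [hq] at this
    have nP01 : ¬ Pm V [0, 1] := fun h => by
      have := pimp (T := []) (by simp) (by decide +kernel) h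
      simp at this
    have nP100 : ¬ Pm V [1, 0, 0] := fun h => by
      have := pimp (T := []) (by simp) (by decide +kernel) h
      simp at this
    have h01 : Qm U [0] ∧ Pm V [1] := by
      have h := D [0, 1]
      have hc : cand [0, 1] = [([], [0, 1]), ([0], [1]), ([0, 1], [])] := by decide +kernel
      rw [hc] at h
      simpa [nQ01, nP01] using h
    have nP0 : ¬ Pm V [0] := fun h => by
      have := uniq hbox (r := [0]) (x := []) (l := []) (r' := []) (x' := []) (l' := [0]) rfl
        h01.1 hn p1 q1 hn h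
      simp at this
    have nQ1 : ¬ Qm U [1] := fun h => by
      have := uniq hbox (r := [1]) (x := []) (l := []) (r' := []) (x' := []) (l' := [1]) rfl
        h hn p1 q1 hn h01.2
      simp at this
    have h := D [1, 0, 0]
    have hc : cand [1, 0, 0] = [([], [1, 0, 0]), ([], [0]), ([1], [0, 0]), ([1], []),
      ([1, 0], [0]), ([1, 0, 0], [])] := by decide +kernel
    rw [hc] at h
    simp [nP100, nP0, nP00, nQ1, nQ100] at h

end box

/-- The negation of the preceding statement: Every finite maximal code X over a finite alphabet has finite word sets U, V such that each word w has exactly one (u,v) in U×V with uwv in X*, and any such uwv in X* splits as w=w'w'' with uw' and w''v in X*. -/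
theorem result :
    ¬ (∀ (k : ℕ) (X : Set (List (Fin k))),
      X.Finite →
      (∀ xs ys : List (List (Fin k)), (∀ x ∈ xs, x ∈ X) → (∀ y ∈ ys, y ∈ X) →
          xs.flatten = ys.flatten → xs = ys) →
      (∀ Y : Set (List (Fin k)), X ⊆ Y →
          (∀ xs ys : List (List (Fin k)), (∀ x ∈ xs, x ∈ Y) → (∀ y ∈ ys, y ∈ Y) →
              xs.flatten = ys.flatten → xs = ys) →
          Y = X) →
      ∃ U V : Finset (List (Fin k)),
        (∀ w : List (Fin k), ∃! p : List (Fin k) × List (Fin k),
            p.1 ∈ U ∧ p.2 ∈ V ∧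
            ∃ xs : List (List (Fin k)), (∀ x ∈ xs, x ∈ X) ∧ xs.flatten = p.1 ++ w ++ p.2) ∧
        (∀ u ∈ U, ∀ v ∈ V, ∀ w : List (Fin k),
            (∃ xs : List (List (Fin k)), (∀ x ∈ xs, x ∈ X) ∧ xs.flatten = u ++ w ++ v) →
            ∃ w' w'' : List (Fin k), w = w' ++ w'' ∧
              (∃ xs : List (List (Fin k)), (∀ x ∈ xs, x ∈ X) ∧ xs.flatten = u ++ w') ∧
              (∃ ys : List (List (Fin k)), (∀ y ∈ ys, y ∈ X) ∧ ys.flatten = w'' ++ v))) := by
  intro h
  obtain ⟨U, V, hbox, hsep⟩ := h 2 XS (List.finite_toSet XL) UD maximal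
  exact noSep hbox hsep

end Pool.Agent.S15294
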