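import Pool.Statements.S15349
import Pool.Agent.Helper4.DonMain

set_option autoImplicit false
open Pool Pool.MP_cc0723_lc

namespace Pool.Agent.S15349

/-- For every n-state DFA on Z_n where b adds 1 and a is a map with excluded state 0 and duplicated state a(0), if it is completely reachable then each nonempty s-subset is reached by a word of length at most n(n−s). -/
theorem result :
    ∀ (n : ℕ) [NeZero n] (f : ZMod n → ZMod n),
      (∀ P : Finset (ZMod n), P.Nonempty →
        ∃ w : List Bool,
          Finset.univ.image (fun q : ZMod n =>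
            w.foldl (fun (p : ZMod n) (c : Bool) => if c then f p else p + 1) q) = P) →
      (∀ q : ZMod n, (∀ p : ZMod n, f p ≠ q) ↔ q = 0) →
      (∀ q : ZMod n, (∃ p₁ p₂ : ZMod n, p₁ ≠ p₂ ∧ f p₁ = q ∧ f p₂ = q) ↔ q = f 0) →
      ∀ S : Finset (ZMod n), S.Nonempty →
        ∃ w : List Bool, w.length ≤ n * (n - S.card) ∧
          Finset.univ.image (fun q : ZMod n =>
            w.foldl (fun (p : ZMod n) (c : Bool) => if c then f p else p + 1) q) = S := by
  exact Pool.Agent.Helper4.Don.don_main

end Pool.Agent.S15349
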