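import Pool.Statements.S15670
import Pool.Agent.Helper99.Final

set_option autoImplicit false
open MeasureTheory
open Pool Pool.MP_0d4f18_mp

namespace Pool.Agent.S15670

/-- The negation of the preceding statement: If V is limit-periodic and some vector's spectral measure for H_V has a nonzero absolutely continuous part, then for every W in the hull of V, every spectral measure of H_W is absolutely continuous. Spectral measures are identified by their moments. -/
theorem result :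
    ¬ (∀ V : ℤ → ℝ,
      (∀ ε : ℝ, 0 < ε → ∃ p : ℤ, p ≠ 0 ∧ ∃ Q : ℤ → ℝ,
          Function.Periodic Q p ∧ ∀ n : ℤ, |V n - Q n| < ε) →
      (∃ φ : ℤ → ℂ, Summable (fun n : ℤ => ‖φ n‖ ^ 2) ∧
        ∃ μ : Measure ℝ, IsFiniteMeasure μ ∧
          (∀ k : ℕ, Integrable (fun x : ℝ => x ^ k) μ ∧
            ((∫ x, x ^ k ∂μ : ℝ) : ℂ) =
              ∑' n : ℤ, (starRingEnd ℂ) (φ n) *
                (Nat.iterate (fun ψ : ℤ → ℂ => fun m : ℤ =>
                  ψ (m + 1) + ψ (m - 1) + (V m : ℂ) * ψ m) k φ) n) ∧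
          ¬ μ ⟂ₘ volume) →
      ∀ W : ℤ → ℝ,
        (∀ ε : ℝ, 0 < ε → ∃ k : ℤ, ∀ n : ℤ, |W n - V (n + k)| < ε) →
        ∀ φ : ℤ → ℂ, Summable (fun n : ℤ => ‖φ n‖ ^ 2) →
          ∀ μ : Measure ℝ, IsFiniteMeasure μ →
            (∀ k : ℕ, Integrable (fun x : ℝ => x ^ k) μ ∧
              ((∫ x, x ^ k ∂μ : ℝ) : ℂ) =
                ∑' n : ℤ, (starRingEnd ℂ) (φ n) *
                  (Nat.iterate (fun ψ : ℤ → ℂ => fun m : ℤ =>
                    ψ (m + 1) + ψ (m - 1) + (W m : ℂ) * ψ m) k φ) n) →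
            μ ≪ volume) := by
  intro hall
  obtain ⟨V, h1, h2, φ, h3, μ, h4, h5, h6⟩ := Pool.Agent.Helper99.counterexample
  apply h6
  refine hall V h1 h2 V ?_ φ h3 μ h4 h5
  intro ε hε
  refine ⟨0, fun n => ?_⟩
  rw [add_zero, sub_self, abs_zero]
  exact hε

end Pool.Agent.S15670
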