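import Pool.Statements.S15813
import Pool.Agent.Helper36.CV.All

set_option autoImplicit false
open Pool Pool.MP_e5aeaf_mp

namespace Pool.Agent.S15813

/-- For some real couplings λ1, λ2, the spectrum of the 2D separable Fibonacci Hamiltonian on ℓ²(ℤ²) is a Cantorval: nonempty, compact, equal to the closure of its interior, with every endpoint of every nontrivial component a limit of singleton components. -/
theorem result :
    ∃ l1 l2 : ℝ, ∃ T : lp (fun _ : ℤ × ℤ => ℂ) 2 →L[ℂ] lp (fun _ : ℤ × ℤ => ℂ) 2,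
      (∀ ψ : lp (fun _ : ℤ × ℤ => ℂ) 2, ∀ p : ℤ × ℤ,
        T ψ p = ψ (p.1 + 1, p.2) + ψ (p.1 - 1, p.2) + ψ (p.1, p.2 + 1) + ψ (p.1, p.2 - 1)
          + ((((Set.Ico (1 - (Real.sqrt 5 - 1) / 2) 1).indicator (fun _ => l1)
                (Int.fract ((p.1 : ℝ) * ((Real.sqrt 5 - 1) / 2)))
              + (Set.Ico (1 - (Real.sqrt 5 - 1) / 2) 1).indicator (fun _ => l2)
                (Int.fract ((p.2 : ℝ) * ((Real.sqrt 5 - 1) / 2)))) : ℝ) : ℂ) * ψ p) ∧
      ∃ S : Set ℝ, S = {x : ℝ | (x : ℂ) ∈ spectrum ℂ T} ∧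
        S.Nonempty ∧ IsCompact S ∧ closure (interior S) = S ∧
        ∀ x ∈ S, ¬ (connectedComponentIn S x).Subsingleton →
          ∀ e ∈ ({sInf (connectedComponentIn S x), sSup (connectedComponentIn S x)} : Set ℝ),
            ∀ ε > 0, ∃ y ∈ S, connectedComponentIn S y = {y} ∧ |y - e| < ε := by
  exact Pool.Agent.Helper36.CV.fin_S15813 Pool.Agent.Helper36.CV.All.t_OF
    Pool.Agent.Helper36.CV.All.t_F1 Pool.Agent.Helper36.CV.All.t_O11 Pool.Agent.Helper36.CV.All.t_E14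

end Pool.Agent.S15813
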