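import Pool.Statements.S16733
import Pool.Agent.Helper14.Parity

set_option autoImplicit false
open Pool Pool.MP_44e698_nt

namespace Pool.Agent.S16733

open Finset Pool.Agent.Helper14.Parity

/-- The exponent. -/
def E (p : (ℕ × ℕ) × (ℕ × ℕ)) : ℕ :=
  2 * (p.1.1 + 1) * (p.1.2 + 1) + (p.1.1 + 1) + (2 * p.1.1 + 1) * p.2.1 + (p.1.2 + 1) * p.2.2

/-- The general term of the quadruple series. -/
noncomputable def F (q : ℂ) (p : (ℕ × ℕ) × (ℕ × ℕ)) : ℂ := (-1) ^ (p.1.1 + 1 + p.2.2) * q ^ E p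

theorem E_ge (p : (ℕ × ℕ) × (ℕ × ℕ)) : p.1.1 + p.1.2 + (p.2.1 + p.2.2) ≤ E p := by
  obtain ⟨⟨i, j⟩, ⟨a, b⟩⟩ := p
  simp only [E]
  nlinarith [Nat.zero_le (i * j), Nat.zero_le (i * a), Nat.zero_le (j * b)]

theorem summable_F {q : ℂ} (hq : ‖q‖ < 1) : Summable (F q) := by
  have hr0 : 0 ≤ ‖q‖ := norm_nonneg q
  have hg : Summable (fun n : ℕ => ‖q‖ ^ n) := summable_geometric_of_lt_one hr0 hq
  have h2 : Summable (fun p : ℕ × ℕ => ‖q‖ ^ p.1 * ‖q‖ ^ p.2) :=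
    hg.mul_of_nonneg hg (fun n => pow_nonneg hr0 n) (fun n => pow_nonneg hr0 n)
  have h4 : Summable (fun p : (ℕ × ℕ) × (ℕ × ℕ) =>
      (‖q‖ ^ p.1.1 * ‖q‖ ^ p.1.2) * (‖q‖ ^ p.2.1 * ‖q‖ ^ p.2.2)) :=
    h2.mul_of_nonneg h2 (fun p => by positivity) (fun p => by positivity)
  refine Summable.of_norm_bounded h4 ?_
  intro p
  have : ‖F q p‖ = ‖q‖ ^ E p := by
    simp [F]
  rw [this]
  have e : (‖q‖ ^ p.1.1 * ‖q‖ ^ p.1.2) * (‖q‖ ^ p.2.1 * ‖q‖ ^ p.2.2)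
      = ‖q‖ ^ (p.1.1 + p.1.2 + (p.2.1 + p.2.2)) := by
    rw [pow_add, pow_add, pow_add]
  rw [e]
  exact pow_le_pow_of_le_one hr0 hq.le (E_ge p)

/-- The general term of the double series. -/
noncomputable def Y (q : ℂ) (p : ℕ × ℕ) : ℂ := (-q) ^ (2 * (p.1 + 1) * (p.2 + 1) + (p.1 + 1)) /
          ((1 + q ^ (p.2 + 1)) * (1 - q ^ (2 * p.1 + 1)))

theorem norm_pow_lt {q : ℂ} (hq : ‖q‖ < 1) (n : ℕ) : ‖q ^ (n + 1)‖ < 1 := by
  rw [norm_pow]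
  exact pow_lt_one₀ (norm_nonneg q) hq (Nat.succ_ne_zero n)

theorem Y_eq {q : ℂ} (hq : ‖q‖ < 1) (p : ℕ × ℕ) : Y q p = ∑' r : ℕ × ℕ, F q (p, r) := by
  have h1 : ‖q ^ (2 * p.1 + 1)‖ < 1 := norm_pow_lt hq _
  have h2 : ‖-(q ^ (p.2 + 1))‖ < 1 := by rw [norm_neg]; exact norm_pow_lt hq _
  have s1 : HasSum (fun a : ℕ => (q ^ (2 * p.1 + 1)) ^ a) (1 - q ^ (2 * p.1 + 1))⁻¹ :=
    hasSum_geometric_of_norm_lt_one h1
  have s2 : HasSum (fun b : ℕ => (-(q ^ (p.2 + 1))) ^ b) (1 - -(q ^ (p.2 + 1)))⁻¹ :=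
    hasSum_geometric_of_norm_lt_one h2
  have s12 : Summable (fun r : ℕ × ℕ => (q ^ (2 * p.1 + 1)) ^ r.1 * (-(q ^ (p.2 + 1))) ^ r.2) :=
    summable_mul_of_summable_norm (summable_geometric_of_norm_lt_one h1).norm
      (summable_geometric_of_norm_lt_one h2).norm
  have s3 := s1.mul s2 s12
  have s4 := s3.mul_left ((-q) ^ (2 * (p.1 + 1) * (p.2 + 1) + (p.1 + 1)))
  have e : (fun r : ℕ × ℕ => (-q) ^ (2 * (p.1 + 1) * (p.2 + 1) + (p.1 + 1)) *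
      ((q ^ (2 * p.1 + 1)) ^ r.1 * (-(q ^ (p.2 + 1))) ^ r.2)) = fun r => F q (p, r) := by
    funext r
    simp only [F, E]
    rw [neg_pow q, neg_pow (q ^ (p.2 + 1)), ← pow_mul, ← pow_mul]
    have : (-1 : ℂ) ^ (2 * (p.1 + 1) * (p.2 + 1) + (p.1 + 1)) = (-1) ^ (p.1 + 1) := by
      rw [pow_add, mul_assoc, pow_mul]; simp
    rw [this, pow_add (-1 : ℂ) (p.1 + 1) r.2, pow_add q (_ + _) ((p.2 + 1) * r.2),
      pow_add q (2 * (p.1 + 1) * (p.2 + 1) + (p.1 + 1)) ((2 * p.1 + 1) * r.1)]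
    ring
  rw [e] at s4
  rw [s4.tsum_eq, Y]
  rw [div_eq_mul_inv, mul_inv, sub_neg_eq_add]
  ring

/-- The coefficient. -/
def c (N : ℕ) : ℤ := ∑ p ∈ (((range (N + 1)) ×ˢ (range (N + 1))) ×ˢ ((range (N + 1)) ×ˢ (range (N + 1)))).filter
    (fun p => E p = N), (-1) ^ (p.1.1 + 1 + p.2.2)

theorem fiber_eq (N : ℕ) : E ⁻¹' {N} =
    (((((range (N + 1)) ×ˢ (range (N + 1))) ×ˢ ((range (N + 1)) ×ˢ (range (N + 1)))).filter
    (fun p => E p = N) : Finset ((ℕ × ℕ) × (ℕ × ℕ))) : Set ((ℕ × ℕ) × (ℕ × ℕ))) := by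
  ext p
  simp only [Set.mem_preimage, Set.mem_singleton_iff, coe_filter, mem_product, mem_range,
    Set.mem_ofPred_eq]
  constructor
  · intro h
    have := E_ge p
    refine ⟨⟨⟨?_, ?_⟩, ⟨?_, ?_⟩⟩, h⟩ <;> omega
  · rintro ⟨_, h⟩; exact h

theorem tsum_Y {q : ℂ} (hq : ‖q‖ < 1) : ∑' p : ℕ × ℕ, Y q p = ∑' N : ℕ, (c N : ℂ) * q ^ N := by
  have hF := summable_F hq
  have h1 : ∑' p : ℕ × ℕ, Y q p = ∑' x : (ℕ × ℕ) × (ℕ × ℕ), F q x := by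
    rw [hF.tsum_prod]
    exact tsum_congr (fun p => Y_eq hq p)
  rw [h1]
  have h2 := (hF.hasSum.tsum_fiberwise E).tsum_eq
  rw [← h2]
  apply tsum_congr
  intro N
  rw [fiber_eq N]
  rw [Finset.tsum_subtype' _ (F q)]
  rw [c]
  push_cast
  rw [Finset.sum_mul]
  apply Finset.sum_congr rfl
  intro p hp
  rw [mem_filter] at hp
  rw [F, hp.2]

theorem w_kap (i j b d : ℕ) : w (kap (2 * i + 1, 2 * (j + 1), b + 1, d)) = (-1) ^ (i + 1 + b) := by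
  have hb : ((2 * (j + 1) : ℕ) : ZMod 4) = 0 ∨ ((2 * (j + 1) : ℕ) : ZMod 4) = 2 := by
    have h4 : ((2 * (j + 1) : ℕ) : ZMod 4) = (((2 * (j + 1)) % 4 : ℕ) : ZMod 4) := by simp
    rw [h4]
    have : (2 * (j + 1)) % 4 = 0 ∨ (2 * (j + 1)) % 4 = 2 := by omega
    rcases this with h | h <;> rw [h] <;> decide
  have e : w (kap (2 * i + 1, 2 * (j + 1), b + 1, d)) =
      (if ((2 * i + 1 : ℕ) : ZMod 4) = 1 then 1 else if ((2 * i + 1 : ℕ) : ZMod 4) = 3 then -1 else 0)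
        * (if ((b + 1 : ℕ) : ZMod 4) = 0 ∨ ((b + 1 : ℕ) : ZMod 4) = 2 then 1 else -1) := if_pos hb
  rw [e, show i + 1 + b = i + (b + 1) by ring, pow_add]
  congr 1
  · have h4 : ((2 * i + 1 : ℕ) : ZMod 4) = (((2 * i + 1) % 4 : ℕ) : ZMod 4) := by simp
    rw [h4]
    rcases Nat.even_or_odd i with h5 | h5
    · rw [h5.neg_one_pow]
      have : (2 * i + 1) % 4 = 1 := by obtain ⟨k, rfl⟩ := h5; omega
      rw [this]; decide
    · rw [h5.neg_one_pow]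
      have : (2 * i + 1) % 4 = 3 := by obtain ⟨k, rfl⟩ := h5; omega
      rw [this]; decide
  · have h4 : ((b + 1 : ℕ) : ZMod 4) = (((b + 1) % 4 : ℕ) : ZMod 4) := by simp
    rw [h4]
    rcases Nat.even_or_odd (b + 1) with h5 | h5
    · rw [h5.neg_one_pow]
      have : (b + 1) % 4 = 0 ∨ (b + 1) % 4 = 2 := by obtain ⟨k, hk⟩ := h5; omega
      rcases this with h | h <;> rw [h] <;> decide
    · rw [h5.neg_one_pow]
      have : (b + 1) % 4 = 1 ∨ (b + 1) % 4 = 3 := by obtain ⟨k, hk⟩ := h5; omega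
      rcases this with h | h <;> rw [h] <;> decide

theorem c_eq (N : ℕ) (hN : 0 < N) : c N = X (2 * N - 1) w := by
  have hX : X (2 * N - 1) w = ∑ g ∈ ((Sol (2 * N - 1)).filter (fun g => g.2.1 < g.2.2.2)).filter
      (fun g => g.2.1 % 2 = 0), w (kap g) := by
    rw [X, Finset.sum_filter (p := fun g : ℕ × ℕ × ℕ × ℕ => g.2.1 % 2 = 0)]
    apply Finset.sum_congr rfl
    intro g hg
    split_ifs with h
    · rfl
    · rw [w, if_neg]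
      simp only [kap]
      have h4 : (g.2.1 : ZMod 4) = ((g.2.1 % 4 : ℕ) : ZMod 4) := by simp
      rw [h4]
      have : g.2.1 % 4 = 1 ∨ g.2.1 % 4 = 3 := by omega
      rcases this with h | h <;> rw [h] <;> decide
  rw [hX, c]
  refine Finset.sum_nbij' (fun p => (2 * p.1.1 + 1, 2 * (p.1.2 + 1), p.2.2 + 1, 2 * (p.2.1 + p.1.2 + 1) + 1))
    (fun g => (((g.1 - 1) / 2, g.2.1 / 2 - 1), ((g.2.2.2 - g.2.1 - 1) / 2, g.2.2.1 - 1))) ?_ ?_ ?_ ?_ ?_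
  · rintro ⟨⟨i, j⟩, ⟨a, b⟩⟩ h
    rw [mem_filter] at h
    obtain ⟨_, h⟩ := h
    simp only [E] at h
    simp only [mem_filter, mem_Sol]
    refine ⟨⟨⟨by omega, by omega, by omega, by omega, ?_⟩, by omega⟩, by omega⟩
    have : 2 * N = 2 * N - 1 + 1 := by omega
    have h5 : (2 * i + 1) * (2 * (a + j + 1) + 1) + 2 * (j + 1) * (b + 1) + 1 = 2 * N := by
      rw [← h]; ring
    omega
  · rintro ⟨a, b, c, d⟩ h
    simp only [mem_filter, mem_Sol] at h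
    obtain ⟨⟨⟨ha, hb, hc, hd, h⟩, hlt⟩, hbe⟩ := h
    obtain ⟨j, rfl⟩ : ∃ j, b = 2 * (j + 1) := ⟨b / 2 - 1, by omega⟩
    have hodd : (a * d) % 2 = 1 := by
      have : (a * d + 2 * (j + 1) * c) % 2 = 1 := by omega
      have h6 : 2 * (j + 1) * c = 2 * ((j + 1) * c) := by ring
      omega
    have had : a % 2 = 1 ∧ d % 2 = 1 := by
      rw [Nat.mul_mod] at hodd
      rcases Nat.mod_two_eq_zero_or_one a with h7 | h7 <;>
        rcases Nat.mod_two_eq_zero_or_one d with h8 | h8 <;> simp [h7, h8] at hodd ⊢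
    obtain ⟨i, rfl⟩ : ∃ i, a = 2 * i + 1 := ⟨a / 2, by omega⟩
    obtain ⟨k, rfl⟩ : ∃ k, d = 2 * (k + j + 1) + 1 := ⟨(d - 2 * (j + 1)) / 2, by omega⟩
    obtain ⟨l, rfl⟩ : ∃ l, c = l + 1 := ⟨c - 1, by omega⟩
    have e1 : (2 * i + 1 - 1) / 2 = i := by omega
    have e2 : 2 * (j + 1) / 2 - 1 = j := by omega
    have e3 : (2 * (k + j + 1) + 1 - 2 * (j + 1) - 1) / 2 = k := by omega
    have e4 : l + 1 - 1 = l := by omega
    simp only [e1, e2, e3, e4]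
    have hE : E ((i, j), (k, l)) = N := by
      have h5 : (2 * i + 1) * (2 * (k + j + 1) + 1) + 2 * (j + 1) * (l + 1) + 1
          = 2 * E ((i, j), (k, l)) := by
        simp only [E]; ring
      omega
    have hge := E_ge ((i, j), (k, l))
    rw [hE] at hge
    simp only at hge
    simp only [mem_filter, mem_product, mem_range]
    refine ⟨⟨⟨?_, ?_⟩, ⟨?_, ?_⟩⟩, hE⟩ <;> omega
  · rintro ⟨⟨i, j⟩, ⟨a, b⟩⟩ h
    simp only [Prod.mk.injEq]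
    refine ⟨⟨?_, ?_⟩, ⟨?_, ?_⟩⟩ <;> omega
  · rintro ⟨a, b, c, d⟩ h
    simp only [mem_filter, mem_Sol] at h
    obtain ⟨⟨⟨ha, hb, hc, hd, h⟩, hlt⟩, hbe⟩ := h
    obtain ⟨j, rfl⟩ : ∃ j, b = 2 * (j + 1) := ⟨b / 2 - 1, by omega⟩
    have hodd : (a * d) % 2 = 1 := by
      have : (a * d + 2 * (j + 1) * c) % 2 = 1 := by omega
      have h6 : 2 * (j + 1) * c = 2 * ((j + 1) * c) := by ring
      omega
    have had : a % 2 = 1 ∧ d % 2 = 1 := by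
      rw [Nat.mul_mod] at hodd
      rcases Nat.mod_two_eq_zero_or_one a with h7 | h7 <;>
        rcases Nat.mod_two_eq_zero_or_one d with h8 | h8 <;> simp [h7, h8] at hodd ⊢
    simp only [Prod.mk.injEq]
    refine ⟨?_, ?_, ?_, ?_⟩ <;> omega
  · rintro ⟨⟨i, j⟩, ⟨a, b⟩⟩ h
    exact (w_kap i j b (2 * (a + j + 1) + 1)).symm

theorem c_even (N : ℕ) (hN : Even N) : c N = 0 := by
  rcases Nat.eq_zero_or_pos N with h0 | h0
  · subst h0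
    decide
  · rw [c_eq N h0]
    apply X_w
    obtain ⟨k, rfl⟩ := hN
    omega

theorem main {q : ℂ} (hq : ‖q‖ < 1) : ∑' p : ℕ × ℕ, Y (-q) p = - ∑' p : ℕ × ℕ, Y q p := by
  have hq' : ‖-q‖ < 1 := by rw [norm_neg]; exact hq
  rw [tsum_Y hq, tsum_Y hq', ← tsum_neg]
  apply tsum_congr
  intro N
  rcases Nat.even_or_odd N with h | h
  · rw [c_even N h]; simp
  · rw [h.neg_pow]; ring

/-- For every complex q with ∣q∣<1, let Y(q) be the sum over m,n≥1 of (-q)^(2mn+m)/((1+q^n)(1-q^(2m-1))). Then Y(-q) = -Y(q), i.e. Y is an odd function. -/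
theorem result :
    ∀ q : ℂ, ‖q‖ < 1 →
      (∑' p : ℕ × ℕ, (-(-q)) ^ (2 * (p.1 + 1) * (p.2 + 1) + (p.1 + 1)) /
          ((1 + (-q) ^ (p.2 + 1)) * (1 - (-q) ^ (2 * p.1 + 1))))
        = -(∑' p : ℕ × ℕ, (-q) ^ (2 * (p.1 + 1) * (p.2 + 1) + (p.1 + 1)) /
          ((1 + q ^ (p.2 + 1)) * (1 - q ^ (2 * p.1 + 1)))) := by
  intro q hq
  exact main hq

end Pool.Agent.S16733
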