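import Pool.Statements.S17870
import Pool.Agent.Helper8.ThmB
import Pool.Agent.Helper8.Density
import Pool.Agent.Helper1.Stage
import Pool.Agent.Helper4.Chain

set_option autoImplicit false
open Pool Pool.MP_9b3484_nt

namespace Pool.Agent.S17870

/-- The negation of the preceding statement: If ξ is irrational and some bound B is such that, for infinitely many n, every prime dividing the n-th convergent numerator or denominator of ξ is at most B, then ξ is a Liouville number. -/
theorem result :
    ¬ (∀ ξ : ℝ, Irrational ξ →
      (∃ B : ℕ, ∀ N : ℕ, ∃ n ≥ N, ∃ a b : ℤ,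
        (a : ℝ) = (GenContFract.of ξ).nums n ∧
        (b : ℝ) = (GenContFract.of ξ).dens n ∧
        ∀ p : ℕ, p.Prime → (p ∣ a.natAbs ∨ p ∣ b.natAbs) → p ≤ B) →
      Liouville ξ) :=
  Pool.Agent.Helper4.Chain.final_of_stage
    (Pool.Agent.Helper1.Stage.stageStmt
      (Pool.Agent.Helper8.densityStmt
        (Pool.Agent.Helper8.thmA 2 3 (by norm_num) (by norm_num)) Pool.Agent.Helper8.thmB))

end Pool.Agent.S17870
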